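import Mathlib
import Pool.Agent.K3h1.LM.PQ

/-!
# The logarithms of `1 - θ / t`, `θ` an inverse root of an integer polynomial
-/

set_option autoImplicit false

open PowerSeries

namespace Pool.Agent.K3h1.LA

open Pool.Agent.Y113 Pool.Agent.Y916 Pool.Agent.R351.GF Pool.Agent.K3h1.LM

theorem ev_le {t : ℝ} (ht : 0 < t) {f : ℚ⟦X⟧} {A B : ℝ} (hA : 0 ≤ A) (hB : 0 ≤ B) (hBt : 2 * B ≤ t)
    (hf : ∀ m, |((coeff m f : ℚ) : ℝ)| ≤ A * B ^ m) : |ev t f| ≤ A * 2 := by
  unfold ev
  rw [← Real.norm_eq_abs]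
  have h1 : HasSum (fun m : ℕ => A * (1 / 2 : ℝ) ^ m) (A * 2) := hasSum_geometric_two.mul_left A
  refine tsum_of_norm_bounded h1 fun m => ?_
  rw [norm_mul, Real.norm_eq_abs, Real.norm_of_nonneg (by positivity)]
  calc |((coeff m f : ℚ) : ℝ)| * (1 / t) ^ m ≤ A * B ^ m * (1 / t) ^ m :=
        mul_le_mul_of_nonneg_right (hf m) (by positivity)
    _ = A * (B * (1 / t)) ^ m := by rw [mul_assoc, ← mul_pow]
    _ ≤ A * (1 / 2) ^ m := by
        refine mul_le_mul_of_nonneg_left (pow_le_pow_left₀ (by positivity) ?_ _) hA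
        rw [mul_one_div, div_le_iff₀ ht]
        linarith

/-- the numerators of the derivatives of `log (1 - θ_i z)` -/
noncomputable def am {R : Type*} [CommRing R] {n : ℕ} (Θ : Fin n → R) (i : Fin n) : Polynomial R :=
  -Polynomial.C (Θ i) * ∏ l ∈ Finset.univ.erase i, (1 - Polynomial.C (Θ l) * Polynomial.X)

theorem am_map {R S : Type*} [CommRing R] [CommRing S] {n : ℕ} (φ : R →+* S) (Θ : Fin n → R) (i : Fin n) :
    (am Θ i).map φ = am (fun l => φ (Θ l)) i := by
  unfold am
  rw [Polynomial.map_mul, Polynomial.map_neg, Polynomial.map_C, Polynomial.map_prod]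
  congr 1
  refine Finset.prod_congr rfl fun l _ => ?_
  rw [Polynomial.map_sub, Polynomial.map_one, Polynomial.map_mul, Polynomial.map_C, Polynomial.map_X]

theorem natDegree_lin {R : Type*} [CommRing R] (θ : R) :
    (1 - Polynomial.C θ * Polynomial.X : Polynomial R).natDegree ≤ 1 := by
  refine (Polynomial.natDegree_sub_le _ _).trans ?_
  rw [Polynomial.natDegree_one]
  exact max_le (Nat.zero_le _) ((Polynomial.natDegree_C_mul_le _ _).trans Polynomial.natDegree_X_le)

theorem am_natDegree {R : Type*} [CommRing R] {n : ℕ} (Θ : Fin n → R) (i : Fin n) :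
    (am Θ i).natDegree < n := by
  unfold am
  have h1 : (-Polynomial.C (Θ i) * ∏ l ∈ Finset.univ.erase i, (1 - Polynomial.C (Θ l) * Polynomial.X) :
      Polynomial R).natDegree ≤ n - 1 := by
    refine Polynomial.natDegree_mul_le.trans ?_
    rw [Polynomial.natDegree_neg, Polynomial.natDegree_C, zero_add]
    refine (Polynomial.natDegree_prod_le _ _).trans ?_
    refine (Finset.sum_le_sum fun l _ => natDegree_lin (Θ l)).trans ?_
    rw [Finset.sum_const, Finset.card_erase_of_mem (Finset.mem_univ i), Finset.card_univ,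
      Fintype.card_fin, smul_eq_mul, mul_one]
  have := i.pos
  omega

theorem am_coeff_zero {R : Type*} [CommRing R] {n : ℕ} (Θ : Fin n → R) (i : Fin n) {l : ℕ} (hl : n ≤ l) :
    (am Θ i).coeff l = 0 :=
  Polynomial.coeff_eq_zero_of_natDegree_lt (lt_of_lt_of_le (am_natDegree Θ i) hl)

section Ser

variable {n : ℕ} {T : Polynomial ℤ} (h0 : T.coeff 0 = 1) (Θ : Fin n → ℂ)
  (hΘ : T.map (Int.castRingHom ℂ) = ∏ i, (1 - Polynomial.C (Θ i) * Polynomial.X))
include h0 hΘ

theorem lth_eq (i : Fin n) : lth {Θ i} =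
    ∑ s : Fin n, PowerSeries.C ((am Θ i).coeff s) * PowerSeries.map (algebraMap ℚ ℂ) (F T s) := by
  have hps : PowerSeries.map (algebraMap ℚ ℂ) (ps T) =
      ((T.map (Int.castRingHom ℂ) : Polynomial ℂ) : ℂ⟦X⟧) := by
    ext m
    rw [PowerSeries.coeff_map, pq_coeff, Polynomial.coeff_coe, Polynomial.coeff_map]
    simp
  have hne : ((T.map (Int.castRingHom ℂ) : Polynomial ℂ) : ℂ⟦X⟧) ≠ 0 := by
    intro h
    have h2 := congrArg (coeff 0) h
    rw [Polynomial.coeff_coe, Polynomial.coeff_map, h0] at h2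
    simp at h2
  have hd : ∀ L : ℚ⟦X⟧, d⁄dX ℂ (PowerSeries.map (algebraMap ℚ ℂ) L) =
      PowerSeries.map (algebraMap ℚ ℂ) (d⁄dX ℚ L) := by
    intro L
    ext m
    rw [PowerSeries.coeff_map, PowerSeries.coeff_derivative, PowerSeries.coeff_derivative,
      PowerSeries.coeff_map]
    simp
  apply PowerSeries.derivative.ext
  · apply mul_left_cancel₀ hne
    -- left-hand side
    have h1 : ((T.map (Int.castRingHom ℂ) : Polynomial ℂ) : ℂ⟦X⟧) * d⁄dX ℂ (lth {Θ i}) =
        ((am Θ i : Polynomial ℂ) : ℂ⟦X⟧) := by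
      have h2 := lth_single_deriv (Θ i)
      have h3 : (((1 - Polynomial.C (Θ i) * Polynomial.X : Polynomial ℂ)) : ℂ⟦X⟧) =
          1 - PowerSeries.C (Θ i) * X := by
        rw [Polynomial.coe_sub, Polynomial.coe_one, Polynomial.coe_mul, Polynomial.coe_C,
          Polynomial.coe_X]
      rw [hΘ, ← Finset.mul_prod_erase _ _ (Finset.mem_univ i), Polynomial.coe_mul, h3, am,
        Polynomial.coe_mul, Polynomial.coe_neg, Polynomial.coe_C]
      linear_combination (((∏ l ∈ Finset.univ.erase i, (1 - Polynomial.C (Θ l) * Polynomial.X) :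
        Polynomial ℂ)) : ℂ⟦X⟧) * h2
    rw [h1, map_sum, Finset.mul_sum]
    have h3 : ∀ s : Fin n, ((T.map (Int.castRingHom ℂ) : Polynomial ℂ) : ℂ⟦X⟧) *
        d⁄dX ℂ (PowerSeries.C ((am Θ i).coeff s) * PowerSeries.map (algebraMap ℚ ℂ) (F T s)) =
        PowerSeries.C ((am Θ i).coeff s) * X ^ (s : ℕ) := by
      intro s
      have h4 : PowerSeries.map (algebraMap ℚ ℂ) (ps T * d⁄dX ℚ (F T s)) = X ^ (s : ℕ) := by
        rw [ps, deriv_F h0 s, map_pow, PowerSeries.map_X]
      rw [map_mul, hps] at h4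
      rw [Derivation.leibniz, PowerSeries.derivative_C, smul_zero, add_zero, smul_eq_mul, hd,
        mul_left_comm, h4]
    rw [Finset.sum_congr rfl fun s _ => h3 s]
    ext l
    rw [map_sum, Polynomial.coeff_coe]
    simp only [PowerSeries.coeff_C_mul, PowerSeries.coeff_X_pow]
    by_cases hl : l < n
    · rw [Finset.sum_eq_single ⟨l, hl⟩]
      · simp
      · intro s _ hs
        rw [if_neg, mul_zero]
        intro h
        exact hs (Fin.ext h.symm)
      · intro h; exact absurd (Finset.mem_univ _) h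
    · rw [am_coeff_zero Θ i (not_lt.1 hl)]
      symm
      refine Finset.sum_eq_zero fun s _ => ?_
      rw [if_neg, mul_zero]
      intro h
      exact hl (by rw [h]; exact s.2)
  · rw [map_sum, ← PowerSeries.coeff_zero_eq_constantCoeff_apply, lth, coeff_mk]
    rw [Finset.sum_eq_zero]
    · simp
    · intro s _
      rw [map_mul, ← PowerSeries.coeff_zero_eq_constantCoeff_apply
        (PowerSeries.map (algebraMap ℚ ℂ) (F T s)), PowerSeries.coeff_map, F, coeff_mk,
        if_pos (Nat.zero_le _), map_zero, mul_zero]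

theorem log_mat {t : ℝ} (ht : 0 < t) (hcv : ∀ s : Fin n, Cv t (F T s)) (i : Fin n) (hi : ‖Θ i‖ < t) :
    Complex.log (1 - Θ i / t) = ∑ s : Fin n, (am Θ i).coeff s * ((ev t (F T s) : ℝ) : ℂ) := by
  have h1 := hasSum_lth ht {Θ i} (fun θ hθ => by rw [Multiset.mem_singleton.1 hθ]; exact hi)
  rw [Multiset.map_singleton, Multiset.sum_singleton, lth_eq h0 Θ hΘ i] at h1
  have h2 : ∀ s : Fin n, HasSum (fun m : ℕ => (am Θ i).coeff s *
      ((((coeff m (F T s) : ℚ) : ℝ) * (1 / t) ^ m : ℝ) : ℂ)) ((am Θ i).coeff s * ((ev t (F T s) : ℝ) : ℂ)) := by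
    intro s
    refine HasSum.mul_left _ ?_
    exact Complex.hasSum_ofReal.2 ((hcv s).summable ht).hasSum
  have h3 := hasSum_sum (s := Finset.univ) fun s _ => h2 s
  refine h1.unique ?_
  convert h3 using 1
  funext m
  rw [map_sum, Finset.sum_mul]
  refine Finset.sum_congr rfl fun s _ => ?_
  rw [PowerSeries.coeff_C_mul, PowerSeries.coeff_map]
  push_cast
  rw [mul_assoc]
  congr 2

end Ser

/-- **The matrix is invertible.** -/
theorem am_det {F' : Type*} [Field F'] {n : ℕ} (Θ : Fin n → F') (hinj : Function.Injective Θ)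
    (h0 : ∀ i, Θ i ≠ 0) : (Matrix.of fun i s : Fin n => (am Θ i).coeff s).det ≠ 0 := by
  intro hdet
  obtain ⟨v, hv0, hv⟩ := Matrix.exists_vecMul_eq_zero_iff.2 hdet
  apply hv0
  have h1 : ∑ i, Polynomial.C (v i) * am Θ i = 0 := by
    ext l
    rw [Polynomial.finsetSum_coeff, Polynomial.coeff_zero]
    simp only [Polynomial.coeff_C_mul]
    by_cases hl : l < n
    · have := congrFun hv ⟨l, hl⟩
      simpa [Matrix.vecMul, dotProduct] using this
    · refine Finset.sum_eq_zero fun i _ => ?_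
      rw [am_coeff_zero Θ i (not_lt.1 hl), mul_zero]
  funext k
  have h2 := congrArg (Polynomial.eval (Θ k)⁻¹) h1
  rw [Polynomial.eval_finsetSum, Polynomial.eval_zero] at h2
  have h3 : ∀ i, i ≠ k → Polynomial.eval (Θ k)⁻¹ (Polynomial.C (v i) * am Θ i) = 0 := by
    intro i hi
    rw [Polynomial.eval_mul, am, Polynomial.eval_mul, Polynomial.eval_prod]
    rw [Finset.prod_eq_zero (Finset.mem_erase.2 ⟨hi.symm, Finset.mem_univ k⟩)]
    · ring
    · simp [h0 k]
  rw [Finset.sum_eq_single k (fun i _ hi => h3 i hi) (fun h => absurd (Finset.mem_univ _) h),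
    Polynomial.eval_mul, Polynomial.eval_C] at h2
  refine (mul_eq_zero.1 h2).resolve_right ?_
  rw [am, Polynomial.eval_mul, Polynomial.eval_neg, Polynomial.eval_C, Polynomial.eval_prod]
  refine mul_ne_zero (neg_ne_zero.2 (h0 k)) (Finset.prod_ne_zero_iff.2 fun l hl => ?_)
  simp only [Polynomial.eval_sub, Polynomial.eval_one, Polynomial.eval_mul, Polynomial.eval_C,
    Polynomial.eval_X]
  intro h
  have h4 : Θ l = Θ k := by
    have h5 := h0 k
    field_simp at h
    linear_combination -h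
  exact (Finset.mem_erase.1 hl).1 (hinj h4)

end Pool.Agent.K3h1.LA
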