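import Mathlib
import Pool.Agent.K3h1.LA.Lg

/-!
# The discriminant
-/

set_option autoImplicit false

open Polynomial

namespace Pool.Agent.K3h1.LA

theorem reverse_lin {θ : ℂ} (hθ : θ ≠ 0) : (1 - C θ * X : ℂ[X]).reverse = X - C θ := by
  have h1 : (1 - C θ * X : ℂ[X]).natDegree = 1 := by
    refine le_antisymm (natDegree_lin θ) ?_
    by_contra h
    have h2 : (1 - C θ * X : ℂ[X]).coeff 1 = 0 :=
      coeff_eq_zero_of_natDegree_lt (by omega)
    simp [coeff_one] at h2
    exact hθ h2
  ext m
  rw [coeff_reverse, h1]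
  rcases m with _ | _ | m
  · rw [revAt_le (Nat.zero_le 1)]
    simp [coeff_one]
  · rw [revAt_le le_rfl]
    simp [coeff_one, coeff_X, coeff_C]
  · rw [revAt_eq_self_of_lt (by omega)]
    simp [coeff_one, coeff_X]

section D

variable {n : ℕ} {T : ℤ[X]} {Θ : Fin n → ℂ} (hn : T.natDegree = n)
  (hΘ : T.map (Int.castRingHom ℂ) = ∏ i, (1 - C (Θ i) * X))
include hn hΘ

theorem theta_ne (i : Fin n) : Θ i ≠ 0 := by
  intro h0
  have h1 : (∏ i, (1 - C (Θ i) * X) : ℂ[X]).natDegree = n := by
    rw [← hΘ, natDegree_map_eq_of_injective Int.cast_injective, hn]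
  have h2 : (∏ i, (1 - C (Θ i) * X) : ℂ[X]).natDegree ≤ n - 1 := by
    rw [← Finset.mul_prod_erase _ _ (Finset.mem_univ i), h0, C_0, zero_mul, sub_zero, one_mul]
    refine (natDegree_prod_le _ _).trans ?_
    refine (Finset.sum_le_sum fun l _ => natDegree_lin (Θ l)).trans ?_
    rw [Finset.sum_const, Finset.card_erase_of_mem (Finset.mem_univ i), Finset.card_univ,
      Fintype.card_fin, smul_eq_mul, mul_one]
  have := i.pos
  omega

theorem rev_eq : T.reverse.map (Int.castRingHom ℂ) = ∏ i, (X - C (Θ i)) := by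
  have h1 : T.reverse.map (Int.castRingHom ℂ) = (T.map (Int.castRingHom ℂ)).reverse := by
    rw [reverse, reverse, natDegree_map_eq_of_injective Int.cast_injective, reflect_map]
  rw [h1, hΘ]
  have h2 : ∀ s : Finset (Fin n), (∏ i ∈ s, (1 - C (Θ i) * X) : ℂ[X]).reverse = ∏ i ∈ s, (X - C (Θ i)) := by
    classical
    intro s
    induction s using Finset.induction_on with
    | empty =>
      rw [Finset.prod_empty, Finset.prod_empty, ← C_1, reverse_C]
    | insert a s ha ih =>
      rw [Finset.prod_insert ha, Finset.prod_insert ha, reverse_mul_of_domain, ih,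
        reverse_lin (theta_ne hn hΘ a)]
  exact h2 _

theorem one_le_theta : 1 ≤ ∏ i, ‖Θ i‖ := by
  have h1 := congrArg (eval 0) (rev_eq hn hΘ)
  rw [eval_prod] at h1
  simp only [eval_sub, eval_X, eval_C, zero_sub] at h1
  rw [← coeff_zero_eq_eval_zero, coeff_map, coeff_zero_reverse] at h1
  have h2 : ∏ i, ‖Θ i‖ = ‖∏ i, -Θ i‖ := by
    rw [norm_prod]
    exact Finset.prod_congr rfl fun i _ => (norm_neg _).symm
  rw [h2, ← h1]
  simp only [eq_intCast, Complex.norm_intCast]
  have h3 : T ≠ 0 := by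
    rintro rfl
    rw [Polynomial.map_zero] at hΘ
    have h4 := congrArg (eval 0) hΘ
    rw [eval_prod] at h4
    simp at h4
  have h4 := Int.one_le_abs (leadingCoeff_ne_zero.2 h3)
  exact_mod_cast h4

theorem one_le_disc (hinj : Function.Injective Θ) :
    1 ≤ ∏ i, ∏ l ∈ Finset.univ.erase i, ‖Θ i - Θ l‖ := by
  classical
  set R : ℂ[X] := T.reverse.map (Int.castRingHom ℂ) with hR
  have hRe : R = ∏ i, (X - C (Θ i)) := rev_eq hn hΘ
  have hR' : derivative R = (derivative T.reverse).map (Int.castRingHom ℂ) := by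
    rw [hR, derivative_map]
  have hprod : (∏ i, (X - C (Θ i)) : ℂ[X]) = ((Finset.univ.val.map Θ).map fun a => X - C a).prod := by
    rw [Multiset.map_map]
    rfl
  have hmon : R.leadingCoeff = 1 := by
    rw [hRe]
    exact (monic_prod_of_monic _ _ fun i _ => monic_X_sub_C _)
  have hroots : R.roots = Finset.univ.val.map Θ := by
    rw [hRe, hprod, roots_multiset_prod_X_sub_C]
  have h1 := resultant_eq_prod_eval R (derivative R) R.natDegree
    ((natDegree_derivative_le _).trans (Nat.sub_le _ _)) (IsAlgClosed.splits R)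
  rw [hmon, one_pow, one_mul, hroots, Multiset.map_map] at h1
  have h2 : (Multiset.map ((fun x => eval x (derivative R)) ∘ Θ) Finset.univ.val).prod =
      ∏ i, ∏ l ∈ Finset.univ.erase i, (Θ i - Θ l) := by
    show ∏ i, eval (Θ i) (derivative R) = _
    refine Finset.prod_congr rfl fun i _ => ?_
    rw [hRe, ← Finset.mul_prod_erase _ _ (Finset.mem_univ i), derivative_mul, eval_add, eval_mul, eval_mul,
      derivative_X_sub_C, eval_one, one_mul, eval_sub, eval_X, eval_C, sub_self, zero_mul, add_zero,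
      eval_prod]
    refine Finset.prod_congr rfl fun l _ => ?_
    simp
  have h3 : resultant R (derivative R) R.natDegree R.natDegree =
      ((resultant T.reverse (derivative T.reverse) R.natDegree R.natDegree : ℤ) : ℂ) := by
    rw [hR', hR, resultant_map_map]
    rfl
  rw [h3] at h1
  have h4 : (∏ i, ∏ l ∈ Finset.univ.erase i, ‖Θ i - Θ l‖) = ‖∏ i, ∏ l ∈ Finset.univ.erase i, (Θ i - Θ l)‖ := by
    rw [norm_prod]
    exact Finset.prod_congr rfl fun i _ => (norm_prod _ _).symm
  have h5 : (∏ i, ∏ l ∈ Finset.univ.erase i, (Θ i - Θ l)) ≠ 0 := by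
    refine Finset.prod_ne_zero_iff.2 fun i _ => Finset.prod_ne_zero_iff.2 fun l hl => ?_
    intro h
    exact (Finset.mem_erase.1 hl).1 (hinj (sub_eq_zero.1 h)).symm
  rw [h4, ← h2, ← h1] 
  rw [← h2, ← h1] at h5
  rw [Complex.norm_intCast]
  have h6 : resultant T.reverse (derivative T.reverse) R.natDegree R.natDegree ≠ 0 := by
    intro h
    apply h5
    rw [h, Int.cast_zero]
  have h7 := Int.one_le_abs h6
  exact_mod_cast h7

end D

end Pool.Agent.K3h1.LA
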