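import Mathlib
import Pool.Agent.K3h1.LM.Wn
import Pool.Agent.K3h1.LA.Dc
import Pool.Agent.R351.GF.Val

/-!
# The classes of the sequences of logarithms
-/

set_option autoImplicit false

namespace Pool.Agent.K3h1.LA

open Filter Finset Polynomial Pool.Agent.R351.GF Pool.Agent.K3h1.LM
open Pool.Agent.Y113 (ev Cv)
open Pool.Agent.Y916 (F)

section Tz

variable (U : Ultrafilter ℕ) (H : ℕ → ℕ)

/-- truncated sequences -/
noncomputable def tz (z : ℕ → ℂ) : Os U H :=
  ⟨fun j => if ‖z j‖ ≤ gr H j then z j else 0, 1, Eventually.of_forall fun j => by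
    dsimp only
    rw [pow_one]
    split_ifs with h
    · exact h
    · rw [norm_zero]
      exact (gr_pos H j).le⟩

/-- their classes -/
noncomputable def tzc (z : ℕ → ℂ) : Fl U H := Ideal.Quotient.mk (ms U H) (tz U H z)

/-- evaluation -/
def evo (j : ℕ) : Os U H →+* ℂ := (Pi.evalRingHom (fun _ : ℕ => ℂ) j).comp (Os U H).subtype

theorem evo_apply (j : ℕ) (z : Os U H) : evo U H j z = (z : ℕ → ℂ) j := rfl

theorem evo_tz {z : ℕ → ℂ} {j : ℕ} (h : ‖z j‖ ≤ gr H j) : evo U H j (tz U H z) = z j := if_pos h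

theorem mk_congr {z w : Os U H} (h : ∀ᶠ j in (U : Filter ℕ), evo U H j z = evo U H j w) :
    (Ideal.Quotient.mk (ms U H) z : Fl U H) = Ideal.Quotient.mk (ms U H) w := by
  rw [Ideal.Quotient.eq, mem_ms]
  intro D
  filter_upwards [h] with j hj
  have h1 : ((z - w : Os U H) : ℕ → ℂ) j = 0 := by
    rw [← evo_apply, map_sub, hj, sub_self]
  rw [h1, norm_zero, zero_mul]
  exact zero_le_one

theorem tzc_congr {z w : ℕ → ℂ} (h : ∀ᶠ j in (U : Filter ℕ), z j = w j) : tzc U H z = tzc U H w := by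
  apply mk_congr
  filter_upwards [h] with j hj
  show (if ‖z j‖ ≤ gr H j then z j else 0) = (if ‖w j‖ ≤ gr H j then w j else 0)
  rw [hj]

theorem mk_ne_zero {z : Os U H} (h : ∀ᶠ j in (U : Filter ℕ), 1 ≤ ‖evo U H j z‖) :
    (Ideal.Quotient.mk (ms U H) z : Fl U H) ≠ 0 := by
  intro h0
  rw [Ideal.Quotient.eq_zero_iff_mem, mem_ms] at h0
  obtain ⟨j, h1, h2⟩ := (h.and (h0 1)).exists
  have h3 := gr_two H j
  rw [pow_one] at h2
  rw [evo_apply] at h1
  nlinarith

end Tz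

section Ac

variable {F' : Type} [Field F'] {R : Subring F'}

theorem acl_inv {S : Set F'} {y : F'} (hy : y ∈ acl R S) : y⁻¹ ∈ acl R S := by
  rw [mem_acl] at *
  exact hy.inv

theorem acl_alg {S : Set F'} {y : F'} (h : IsAlgebraic R y) : y ∈ acl R S := by
  rw [mem_acl]
  exact h.extendScalars (FaithfulSMul.algebraMap_injective R (Algebra.adjoin R S))

/-- the elements of the closure form a subring -/
def acR (R : Subring F') (S : Set F') : Subring F' where
  carrier := acl R S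
  mul_mem' := acl_mul
  add_mem' := acl_add
  one_mem' := acl_R (Subring.one_mem _)
  zero_mem' := acl_R (Subring.zero_mem _)
  neg_mem' := by
    intro x hx
    have := acl_sub (acl_R (Subring.zero_mem R) : (0 : F') ∈ acl R S) hx
    rwa [zero_sub] at this

theorem mem_acR {S : Set F'} {y : F'} : y ∈ acR R S ↔ y ∈ acl R S := Iff.rfl

/-- solutions of linear systems -/
theorem solve_acl {n : ℕ} {S : Set F'} {A : Matrix (Fin n) (Fin n) F'} (hA : ∀ i s, A i s ∈ acl R S)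
    (hdet : A.det ≠ 0) {y L : Fin n → F'} (hL : ∀ i, L i = ∑ s, A i s * y s) (hLS : ∀ i, L i ∈ acl R S)
    (s : Fin n) : y s ∈ acl R S := by
  classical
  set A' : Matrix (Fin n) (Fin n) (acR R S) := Matrix.of fun i s => ⟨A i s, hA i s⟩ with hA'
  have h1 : A'.map (acR R S).subtype = A := by
    ext i s
    rfl
  have hdetm : A.det ∈ acl R S := by
    rw [← h1, ← RingHom.mapMatrix_apply, ← RingHom.map_det]
    exact (A'.det).2
  have hadj : ∀ s i, A.adjugate s i ∈ acl R S := by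
    intro s i
    rw [← h1, ← RingHom.mapMatrix_apply, ← RingHom.map_adjugate]
    exact (A'.adjugate s i).2
  have hinv : ∀ s i, A⁻¹ s i ∈ acl R S := by
    intro s i
    rw [Matrix.inv_def, Matrix.smul_apply, smul_eq_mul, Ring.inverse_eq_inv']
    exact acl_mul (acl_inv hdetm) (hadj s i)
  have h2 : A.mulVec y = L := by
    funext i
    rw [hL i]
    rfl
  have h3 : y = A⁻¹.mulVec L := by
    rw [← h2, Matrix.mulVec_mulVec, Matrix.nonsing_inv_mul _ (isUnit_iff_ne_zero.2 hdet), Matrix.one_mulVec]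
  rw [h3]
  show ∑ i, A⁻¹ s i * L i ∈ acR R S
  exact Subring.sum_mem _ fun i _ => acl_mul (hinv s i) (hLS i)

theorem am_mem {n : ℕ} {S : Set F'} (Θ : Fin n → F') (h : ∀ i, Θ i ∈ acl R S) (i : Fin n) (s : ℕ) :
    (am Θ i).coeff s ∈ acl R S := by
  have h1 := am_map (acR R S).subtype (fun l => (⟨Θ l, h l⟩ : acR R S)) i
  have h2 : (fun l => (acR R S).subtype (⟨Θ l, h l⟩ : acR R S)) = Θ := rfl
  rw [h2] at h1
  rw [← h1, coeff_map]
  exact ((am (fun l => (⟨Θ l, h l⟩ : acR R S)) i).coeff s).2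

end Ac

section Seq

variable (U : Ultrafilter ℕ) (H : ℕ → ℕ)

/-- Roots of integer polynomials with bounded coefficients are algebraic. -/
theorem alg_of_root {n c : ℕ} (f : ℕ → ℤ[X]) (z : ℕ → ℂ) (hn : ∀ᶠ j in (U : Filter ℕ), (f j).natDegree ≤ n)
    (hc : ∀ᶠ j in (U : Filter ℕ), ∀ l, |(((f j).coeff l : ℤ) : ℝ)| ≤ gr H j ^ c)
    (hf : ∀ᶠ j in (U : Filter ℕ), f j ≠ 0) (hz : ∀ᶠ j in (U : Filter ℕ), ‖z j‖ ≤ gr H j)
    (hr : ∀ᶠ j in (U : Filter ℕ), aeval (z j) (f j) = 0) (Z : Set (Fl U H)) :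
    tzc U H z ∈ acl (Zs U H) Z := by
  classical
  set cl : ℕ → IZ U H := fun l => ⟨fun j => (f j).coeff l, (mem_IZ U H).2 ⟨c, hc.mono fun j hj => hj l⟩⟩ with hcl
  set p : (Zs U H)[X] := ∑ l ∈ range (n + 1), C (psr U H (cl l)) * X ^ l with hp
  have hcoef : ∀ l, l < n + 1 → p.coeff l = psr U H (cl l) := by
    intro l hl
    rw [hp, finsetSum_coeff]
    simp only [coeff_C_mul, coeff_X_pow]
    rw [Finset.sum_eq_single l]
    · rw [if_pos rfl, mul_one]
    · intro l' _ hl'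
      rw [if_neg (Ne.symm hl'), mul_zero]
    · intro h
      exact absurd (mem_range.2 hl) h
  have hp0 : p ≠ 0 := by
    have h1 : ∀ᶠ j in (U : Filter ℕ), ∃ l : Fin (n + 1), (f j).coeff l ≠ 0 := by
      filter_upwards [hn, hf] with j h1 h2
      exact ⟨⟨(f j).natDegree, by omega⟩, leadingCoeff_ne_zero.2 h2⟩
    obtain ⟨l, hl⟩ := Ultrafilter.eventually_exists_iff.1 h1
    intro h0
    have h2 := hcoef l l.2
    rw [h0, coeff_zero] at h2
    have h3 : psi U H (cl l) = 0 := congrArg Subtype.val h2.symm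
    rw [psi_eq_zero] at h3
    obtain ⟨j, h4, h5⟩ := (hl.and h3).exists
    exact h4 h5
  have hev : aeval (tzc U H z) p = 0 := by
    rw [hp, map_sum]
    have h1 : ∀ l ∈ range (n + 1), aeval (tzc U H z) (C (psr U H (cl l)) * X ^ l : (Zs U H)[X]) =
        Ideal.Quotient.mk (ms U H) (izo U H (cl l) * tz U H z ^ l) := by
      intro l _
      rw [map_mul, aeval_C, map_pow, aeval_X, map_mul, map_pow]
      rfl
    rw [Finset.sum_congr rfl h1, ← map_sum, ← map_zero (Ideal.Quotient.mk (ms U H))]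
    apply mk_congr
    filter_upwards [hn, hz, hr] with j h2 h3 h4
    rw [map_sum, map_zero]
    rw [aeval_eq_sum_range' (Nat.lt_succ_of_le h2)] at h4
    rw [← h4]
    refine Finset.sum_congr rfl fun l _ => ?_
    rw [map_mul, map_pow, evo_tz U H h3, zsmul_eq_mul]
    rfl
  exact acl_alg ⟨p, hp0, hev⟩

/-- the sequences of polynomials -/
structure Sys (n : ℕ) (T : ℕ → ℤ[X]) (t hT : ℕ → ℕ) (Θ : ℕ → Fin n → ℂ) : Prop where
  h0 : ∀ᶠ j in (U : Filter ℕ), (T j).coeff 0 = 1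
  hn : ∀ᶠ j in (U : Filter ℕ), (T j).natDegree = n
  hsq : ∀ᶠ j in (U : Filter ℕ), Squarefree ((T j).map (Int.castRingHom ℚ))
  hc : ∀ᶠ j in (U : Filter ℕ), ∀ l, |(T j).coeff l| ≤ hT j
  hΘ : ∀ᶠ j in (U : Filter ℕ), (T j).map (Int.castRingHom ℂ) = ∏ i, (1 - C (Θ j i) * X)
  hinj : ∀ᶠ j in (U : Filter ℕ), Function.Injective (Θ j)
  hE : ∀ E : ℕ, ∀ᶠ j in (U : Filter ℕ), (hT j + 2) ^ E ≤ t j
  ht : ∃ c : ℕ, ∀ᶠ j in (U : Filter ℕ), (t j : ℝ) ≤ gr H j ^ c

variable {U H} {n : ℕ} {T : ℕ → ℤ[X]} {t hT : ℕ → ℕ} {Θ : ℕ → Fin n → ℂ} (S : Sys U H n T t hT Θ)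
include S

theorem Sys.small (E : ℕ) : ∀ᶠ j in (U : Filter ℕ), ((hT j : ℝ) + 2) ^ E ≤ gr H j := by
  obtain ⟨c, hc⟩ := S.ht
  filter_upwards [hc, S.hE (E * (c + 1))] with j h1 h2
  have h3 : ((hT j : ℝ) + 2) ^ (E * (c + 1)) ≤ t j := by exact_mod_cast h2
  rw [pow_mul] at h3
  have h4 : gr H j ^ c ≤ gr H j ^ (c + 1) := pow_le_pow_right₀ (gr_one H j) (Nat.le_succ _)
  have h5 := (h3.trans h1).trans h4
  exact (pow_le_pow_iff_left₀ (by positivity) (gr_pos H j).le (Nat.succ_ne_zero c)).1 h5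

theorem Sys.root : ∀ᶠ j in (U : Filter ℕ), ∀ i, aeval (Θ j i) (T j).reverse = 0 := by
  filter_upwards [S.hn, S.hΘ] with j h1 h2 i
  have h3 := rev_eq h1 h2
  rw [aeval_def, algebraMap_int_eq, ← eval_map, h3, eval_prod]
  exact Finset.prod_eq_zero (mem_univ i) (by simp)

theorem Sys.rev_ne : ∀ᶠ j in (U : Filter ℕ), (T j).reverse ≠ 0 := by
  filter_upwards [S.h0] with j h1
  rw [Ne, reverse_eq_zero]
  rintro h2
  rw [h2] at h1
  simp at h1

theorem Sys.norm : ∀ᶠ j in (U : Filter ℕ), ∀ i, ‖Θ j i‖ < hT j + 1 := by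
  filter_upwards [S.root, S.rev_ne, S.hc] with j h1 h2 h3 i
  exact root_norm h2 (fun l => by rw [coeff_reverse]; exact h3 _) (h1 i)

theorem Sys.norm_gr (i : Fin n) : ∀ᶠ j in (U : Filter ℕ), ‖Θ j i‖ ≤ gr H j := by
  filter_upwards [S.norm, S.small 1] with j h1 h2
  rw [pow_one] at h2
  have := h1 i
  linarith

theorem Sys.alg (i : Fin n) (Z : Set (Fl U H)) : tzc U H (fun j => Θ j i) ∈ acl (Zs U H) Z := by
  refine alg_of_root U H (n := n) (c := 1) (fun j => (T j).reverse) _ ?_ ?_ S.rev_ne (S.norm_gr i)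
    (S.root.mono fun j hj => hj i) Z
  · filter_upwards [S.hn] with j hj
    exact (reverse_natDegree_le _).trans hj.le
  · filter_upwards [S.hc, S.small 1] with j h1 h2 l
    rw [pow_one] at h2 ⊢
    rw [coeff_reverse]
    have h3 : |(((T j).coeff (revAt (T j).natDegree l) : ℤ) : ℝ)| ≤ hT j := by exact_mod_cast h1 _
    linarith

theorem Sys.theta_inj : Function.Injective fun i => tzc U H (fun j => Θ j i) := by
  intro i k hik
  by_contra hne
  set P : Os U H := ∏ i, ∏ l ∈ univ.erase i, (tz U H (fun j => Θ j i) - tz U H (fun j => Θ j l)) with hP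
  have h1 : (Ideal.Quotient.mk (ms U H) P : Fl U H) ≠ 0 := by
    apply mk_ne_zero
    filter_upwards [S.hn, S.hΘ, S.hinj, Filter.eventually_all.2 S.norm_gr] with j h1 h2 h3 h4
    have h5 := one_le_disc h1 h2 h3
    refine h5.trans (le_of_eq ?_)
    rw [hP, map_prod, norm_prod]
    refine Finset.prod_congr rfl fun i _ => ?_
    rw [map_prod, norm_prod]
    refine Finset.prod_congr rfl fun l _ => ?_
    rw [map_sub, evo_tz U H (h4 i), evo_tz U H (h4 l)]
  apply h1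
  rw [hP, map_prod]
  refine Finset.prod_eq_zero (mem_univ i) ?_
  rw [map_prod]
  refine Finset.prod_eq_zero (mem_erase.2 ⟨Ne.symm hne, mem_univ k⟩) ?_
  rw [map_sub]
  exact sub_eq_zero.2 hik

theorem Sys.theta_ne (i : Fin n) : tzc U H (fun j => Θ j i) ≠ 0 := by
  intro h0
  set P : Os U H := ∏ i, tz U H (fun j => Θ j i) with hP
  have h1 : (Ideal.Quotient.mk (ms U H) P : Fl U H) ≠ 0 := by
    apply mk_ne_zero
    filter_upwards [S.hn, S.hΘ, Filter.eventually_all.2 S.norm_gr] with j h1 h2 h4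
    have h5 := one_le_theta h1 h2
    refine h5.trans (le_of_eq ?_)
    rw [hP, map_prod, norm_prod]
    refine Finset.prod_congr rfl fun i _ => ?_
    rw [evo_tz U H (h4 i)]
  apply h1
  rw [hP, map_prod]
  exact Finset.prod_eq_zero (mem_univ i) h0

theorem Sys.ev_bd : ∀ᶠ j in (U : Filter ℕ), (0 : ℝ) < t j ∧ ∀ s : Fin n, Cv (t j : ℝ) (F (T j) s) ∧
    |ev (t j) (F (T j) s)| ≤ gr H j := by
  obtain ⟨E₀, hE₀⟩ := Pool.Agent.Y419.LB.base_holds n
  filter_upwards [S.h0, S.hn, S.hc, S.hE (E₀ + 2), S.small (E₀ + 1)] with j h0 h1 h2 h3 h4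
  have hG := hE₀ (hT j) (T j) h0 h1.le h2
  have hh : (2 : ℝ) ≤ (hT j : ℝ) + 2 := by
    have : (0 : ℝ) ≤ hT j := Nat.cast_nonneg _
    linarith
  have h5 : ((hT j : ℝ) + 2) ^ (E₀ + 2) ≤ t j := by exact_mod_cast h3
  have h6 : (0 : ℝ) < ((hT j : ℝ) + 2) ^ E₀ := by positivity
  have h7 : 2 * ((hT j : ℝ) + 2) ^ E₀ ≤ ((hT j : ℝ) + 2) ^ (E₀ + 1) := by
    rw [pow_succ]
    nlinarith
  have h8 : ((hT j : ℝ) + 2) ^ (E₀ + 1) ≤ ((hT j : ℝ) + 2) ^ (E₀ + 2) :=
    pow_le_pow_right₀ (by linarith) (by omega)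
  have ht0 : (0 : ℝ) < t j := by linarith
  refine ⟨ht0, fun s => ?_⟩
  have hb : ∀ m, |(((PowerSeries.coeff m (F (T j) s) : ℚ)) : ℝ)| ≤
      ((hT j : ℝ) + 2) ^ E₀ * (((hT j : ℝ) + 2) ^ E₀) ^ m := by
    intro m
    have := hG.size (some s) m
    rw [pow_succ'] at this
    exact this
  refine ⟨Cv.of_bound ht0 (B := ((hT j : ℝ) + 2) ^ E₀) (by positivity) (by linarith) hb, ?_⟩
  have h9 := ev_le ht0 h6.le h6.le (by linarith) hb
  linarith

theorem Sys.ev_indep : AlgebraicIndependent (Zs U H)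
    (fun s : Fin n => tzc U H (fun j => ((ev (t j) (F (T j) s) : ℝ) : ℂ))) := by
  apply indep_of_quant
  intro Δ
  obtain ⟨E, hEE⟩ := val_quant n Δ
  obtain ⟨c, hc⟩ := S.ht
  refine ⟨(c + 1) * E, ?_⟩
  filter_upwards [S.h0, S.hn, S.hsq, S.hc, S.hE E, hc, S.ev_bd] with j g0 g1 g2 g3 g4 g5 g6 P hP0 hPd A hA1 hPA
  have hq := hEE (hT j) (t j) (T j) g4 g0 g1 g2 g3 P hP0 hPd A hA1 hPA
  have h3 : (fun s : Fin n => ((tz U H (fun j => ((ev (t j) (F (T j) s) : ℝ) : ℂ)) : Os U H) : ℕ → ℂ) j) =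
      fun s : Fin n => algebraMap ℝ ℂ (ev (t j) (F (T j) s)) := by
    funext s
    rw [← evo_apply, evo_tz U H]
    · rfl
    · rw [Complex.norm_real, Real.norm_eq_abs]
      exact (g6.2 s).2
  have h6 : MvPolynomial.aeval (fun s : Fin n => algebraMap ℝ ℂ (ev (t j) (F (T j) s))) P =
      algebraMap ℝ ℂ (MvPolynomial.aeval (fun s : Fin n => ev (t j) (F (T j) s)) P) :=
    MvPolynomial.aeval_algebraMap_apply ℂ _ P
  have h5 : ‖algebraMap ℝ ℂ (MvPolynomial.aeval (fun s : Fin n => ev (t j) (F (T j) s)) P)‖ =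
      |MvPolynomial.aeval (fun s : Fin n => ev (t j) (F (T j) s)) P| := by
    rw [← Real.norm_eq_abs]
    exact Complex.norm_real _
  rw [h3, h6, h5]
  refine hq.trans (mul_le_mul_of_nonneg_right ?_ (abs_nonneg _))
  have hg1 := gr_one H j
  have h7 : A * t j ≤ (A * gr H j) ^ (c + 1) := by
    rw [mul_pow]
    refine mul_le_mul (le_self_pow₀ hA1 (by omega)) ?_ g6.1.le (by positivity)
    exact g5.trans (pow_le_pow_right₀ hg1 (by omega))
  calc (A * t j) ^ E ≤ ((A * gr H j) ^ (c + 1)) ^ E := pow_le_pow_left₀ (by have := g6.1; positivity) h7 _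
    _ = (A * gr H j) ^ ((c + 1) * E) := by rw [← pow_mul]

/-- **The transcendence degree of the logarithms.** -/
theorem Sys.log_cls {Z : Set (Fl U H)} (hZ : Z.encard < n) :
    ∃ i, tzc U H (fun j => Complex.log (1 - Θ j i / (t j : ℂ))) ∉ acl (Zs U H) Z := by
  by_contra hcon
  push Not at hcon
  obtain ⟨s, hs⟩ := exists_notMem_acl S.ev_indep hZ
  apply hs
  set To : Fin n → Os U H := fun i => tz U H (fun j => Θ j i) with hTo
  set θ : Fin n → Fl U H := fun i => tzc U H (fun j => Θ j i) with hθ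
  refine solve_acl (A := Matrix.of fun i s : Fin n => (am θ i).coeff s)
    (fun i s => am_mem θ (fun i => S.alg i Z) i s) (am_det θ S.theta_inj S.theta_ne)
    (L := fun i => tzc U H (fun j => Complex.log (1 - Θ j i / (t j : ℂ))))
    (y := fun s => tzc U H (fun j => ((ev (t j) (F (T j) s) : ℝ) : ℂ))) (fun i => ?_) hcon s
  have h1 : ∀ s : Fin n, (am θ i).coeff s = Ideal.Quotient.mk (ms U H) ((am To i).coeff s) := by
    intro s
    have h2 := am_map (Ideal.Quotient.mk (ms U H)) To i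
    have h3 : (fun l => Ideal.Quotient.mk (ms U H) (To l)) = θ := rfl
    rw [h3] at h2
    rw [← h2, coeff_map]
  have h2 : ∑ s, (Matrix.of fun i s : Fin n => (am θ i).coeff s) i s *
      tzc U H (fun j => ((ev (t j) (F (T j) s) : ℝ) : ℂ)) =
      Ideal.Quotient.mk (ms U H) (∑ s : Fin n, (am To i).coeff s *
        tz U H (fun j => ((ev (t j) (F (T j) s) : ℝ) : ℂ))) := by
    rw [map_sum]
    refine Finset.sum_congr rfl fun s _ => ?_
    rw [map_mul, ← h1]
    rfl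
  rw [h2]
  apply mk_congr
  filter_upwards [S.h0, S.hΘ, S.ev_bd, Filter.eventually_all.2 S.norm_gr, S.norm, S.hE 2] with j g0 g1 g2 g3 g4 g5
  have hh : (0 : ℝ) ≤ (hT j : ℝ) := Nat.cast_nonneg _
  have h5 : ((hT j : ℝ) + 2) ^ 2 ≤ t j := by exact_mod_cast g5
  have hn1 : 2 * ‖Θ j i‖ ≤ t j := by
    have := g4 i
    nlinarith
  have ht0 := g2.1
  have hlm := log_mat g0 (Θ j) g1 g2.1 (fun s => (g2.2 s).1) i (by
    have := g4 i
    nlinarith)
  rw [Complex.ofReal_natCast] at hlm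
  rw [map_sum, evo_tz U H, hlm]
  · refine Finset.sum_congr rfl fun s _ => ?_
    rw [map_mul, evo_tz U H]
    · congr 1
      have h6 := am_map (evo U H j) To i
      have h7 : (fun l => evo U H j (To l)) = Θ j := by
        funext l
        exact evo_tz U H (g3 l)
      rw [h7] at h6
      rw [← h6, coeff_map]
    · rw [Complex.norm_real, Real.norm_eq_abs]
      exact (g2.2 s).2
  · have h6 : ‖-(Θ j i / (t j : ℂ))‖ ≤ 1 / 2 := by
      rw [norm_neg, norm_div, Complex.norm_natCast, div_le_iff₀ ht0]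
      linarith
    have h7 := Complex.norm_log_one_add_half_le_self h6
    rw [← sub_eq_add_neg] at h7
    have := gr_two H j
    linarith

end Seq

end Pool.Agent.K3h1.LA
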