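import Mathlib
import Pool.Agent.K3h1.LM.OA
import Pool.Agent.K3h1.LA.Cl

/-!
# Small values of polynomials at logarithms of complex numbers, over a set of constants
-/

set_option autoImplicit false

namespace Pool.Agent.K3h1.LA

open Filter Finset Pool.Agent.R351.GF Pool.Agent.Y916 Pool.Agent.Y535.LG Pool.Agent.K3h1.LM

/-- There are integers `b x` with `|b x| ≤ H` and a polynomial `P` whose coefficients are integer polynomials in the
constants `w`, of degree at most `δ` and height at most `H`, not all of them smaller than `(H + 2) ^ (- E₀)`, such that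
`|P (log (v x) + b x τ)| < (H + 2) ^ (- C)`. -/
def BadN {M q : ℕ} (δ E₀ C H : ℕ) (w : Fin q → ℂ) (τ : ℂ) (v : Fin M → ℂ) : Prop :=
  ∃ b : Fin M → ℤ, (∀ x, |b x| ≤ H) ∧ ∃ P : MvPolynomial (Fin M) (MvPolynomial (Fin q) ℤ),
    P.totalDegree ≤ δ ∧ (∀ s, (P.coeff s).totalDegree ≤ δ) ∧ (∀ s s', |(P.coeff s).coeff s'| ≤ H) ∧
    (∃ s, 1 ≤ ‖MvPolynomial.aeval w (P.coeff s)‖ * ((H : ℝ) + 2) ^ E₀) ∧
    ‖MvPolynomial.eval₂ (MvPolynomial.aeval w : MvPolynomial (Fin q) ℤ →ₐ[ℤ] ℂ).toRingHom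
      (fun x => Complex.log (v x) + b x * τ) P‖ * ((H : ℝ) + 2) ^ C < 1

section Seq

variable (U : Ultrafilter ℕ) (H : ℕ → ℕ)

theorem no_badN {M q δ E₀ : ℕ} (w : ℕ → Fin q → ℂ) (hw : ∀ j i, ‖w j i‖ ≤ H j) (τ : ℕ → ℂ)
    (hτ : (∀ᶠ j in (U : Filter ℕ), τ j = 0) ∨ ∃ i, ∀ᶠ j in (U : Filter ℕ), τ j = w j i)
    (v : ℕ → Fin M → ℂ) (C : ℕ → ℕ) (hC : Tendsto C U atTop)
    (hv : ∀ x, ∀ᶠ j in (U : Filter ℕ), ‖Complex.log (v j x)‖ ≤ gr H j)
    (hbad : ∀ᶠ j in (U : Filter ℕ), BadN δ E₀ (C j) (H j) (w j) (τ j) (v j))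
    (hch : ∀ x, tzc U H (fun j => Complex.log (v j x)) ∉
      acl (Zs U H) ((Set.range fun i => (Ideal.Quotient.mk (ms U H) (cst U H w hw i) : Fl U H)) ∪
        (fun x' => tzc U H (fun j => Complex.log (v j x'))) '' {x' | x' < x})) : False := by
  classical
  have hlz : ∀ x, ∀ᶠ j in (U : Filter ℕ), (tz U H (fun j => Complex.log (v j x)) : ℕ → ℂ) j = Complex.log (v j x) :=
    fun x => by
      filter_upwards [hv x] with j hj
      exact evo_tz U H (z := fun j => Complex.log (v j x)) hj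
  -- the data
  have hdata : ∀ j, ∃ (P : MvPolynomial (Fin M) (MvPolynomial (Fin q) ℤ)) (b : Fin M → ℤ),
      (∀ s s', |(P.coeff s).coeff s'| ≤ H j) ∧ (∀ x, |b x| ≤ H j) ∧
      (BadN δ E₀ (C j) (H j) (w j) (τ j) (v j) →
        P.totalDegree ≤ δ ∧ (∀ s, (P.coeff s).totalDegree ≤ δ) ∧
        (∃ s, 1 ≤ ‖MvPolynomial.aeval (w j) (P.coeff s)‖ * gr H j ^ E₀) ∧
        ‖MvPolynomial.eval₂ (MvPolynomial.aeval (w j) : MvPolynomial (Fin q) ℤ →ₐ[ℤ] ℂ).toRingHom
          (fun x => Complex.log (v j x) + b x * τ j) P‖ * gr H j ^ C j < 1) := by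
    intro j
    by_cases h : BadN δ E₀ (C j) (H j) (w j) (τ j) (v j)
    · obtain ⟨b, hb, P, h1, h2, h3, h4, h5⟩ := h
      exact ⟨P, b, h3, hb, fun _ => ⟨h1, h2, h4, h5⟩⟩
    · refine ⟨0, 0, fun s s' => ?_, fun i => ?_, fun h1 => absurd h1 h⟩
      · rw [MvPolynomial.coeff_zero, MvPolynomial.coeff_zero, abs_zero]; exact Int.natCast_nonneg _
      · rw [Pi.zero_apply, abs_zero]; exact Int.natCast_nonneg _
  choose P b hPH hbH hprop using hdata
  have hp : ∀ᶠ j in (U : Filter ℕ), (P j).totalDegree ≤ δ ∧ (∀ s, ((P j).coeff s).totalDegree ≤ δ) ∧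
        (∃ s, 1 ≤ ‖MvPolynomial.aeval (w j) ((P j).coeff s)‖ * gr H j ^ E₀) ∧
        ‖MvPolynomial.eval₂ (MvPolynomial.aeval (w j) : MvPolynomial (Fin q) ℤ →ₐ[ℤ] ℂ).toRingHom
          (fun x => Complex.log (v j x) + b j x * τ j) (P j)‖ * gr H j ^ C j < 1 := by
    filter_upwards [hbad] with j h2
    exact hprop j h2
  -- the classes
  have hgr : ∀ j (n : ℤ), |n| ≤ (H j : ℤ) → |(n : ℝ)| ≤ gr H j ^ 1 := by
    intro j n hn
    rw [pow_one]
    have h1 : |(n : ℝ)| ≤ H j := by exact_mod_cast hn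
    unfold gr
    linarith
  have hbIZ : ∀ x, (fun j => b j x) ∈ IZ U H := fun x => (mem_IZ U H).2 ⟨1, Eventually.of_forall
    fun j => hgr j _ (hbH j x)⟩
  have hPIZ : ∀ (e : Mn M δ) (e' : Mn q δ), (fun j => ((P j).coeff (toF e)).coeff (toF e')) ∈ IZ U H :=
    fun e e' => (mem_IZ U H).2 ⟨1, Eventually.of_forall fun j => hgr j _ (hPH j _ _)⟩
  set ω : Fin q → Os U H := cst U H w hw with hω
  set Q : Mn M δ → MvPolynomial (Fin q) (IZ U H) := fun e =>
    ∑ e' : Mn q δ, MvPolynomial.monomial (toF e') (⟨_, hPIZ e e'⟩ : IZ U H) with hQ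
  set c : Mn M δ → Os U H := fun e => vs U H ω (Q e) with hc
  have hcj : ∀ᶠ j in (U : Filter ℕ), ∀ e, (c e : ℕ → ℂ) j = MvPolynomial.aeval (w j) ((P j).coeff (toF e)) := by
    filter_upwards [hp] with j hj e
    rw [hc]
    simp only
    rw [vs_apply]
    have h1 : MvPolynomial.map (evj U H j) (Q e) = (P j).coeff (toF e) := by
      rw [hQ]
      simp only
      rw [map_sum]
      simp only [MvPolynomial.map_monomial, evj_apply]
      exact (as_sum_Mn _ (hj.2.1 _)).symm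
    rw [h1]
    rfl
  -- the constant `τ`
  obtain ⟨τo, hτo, hτacl⟩ : ∃ τo : Os U H, (∀ᶠ j in (U : Filter ℕ), (τo : ℕ → ℂ) j = τ j) ∧
      (Ideal.Quotient.mk (ms U H) τo : Fl U H) ∈ acl (Zs U H)
        (Set.range fun i => (Ideal.Quotient.mk (ms U H) (ω i) : Fl U H)) := by
    rcases hτ with hτ | ⟨i, hτ⟩
    · refine ⟨0, hτ.mono fun j hj => hj.symm, ?_⟩
      rw [map_zero]
      exact acl_R (Subring.zero_mem _)
    · exact ⟨ω i, hτ.mono fun j hj => hj.symm, subset_acl ⟨i, rfl⟩⟩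
  set S : Set (Fl U H) := Set.range fun i => (Ideal.Quotient.mk (ms U H) (ω i) : Fl U H) with hS
  set z : Fin M → Os U H := fun x => tz U H (fun j => Complex.log (v j x)) + izo U H ⟨_, hbIZ x⟩ * τo with hz
  have hz1 : ∀ x, (Ideal.Quotient.mk (ms U H) (z x) : Fl U H) =
      tzc U H (fun j => Complex.log (v j x)) + psi U H ⟨_, hbIZ x⟩ * Ideal.Quotient.mk (ms U H) τo := by
    intro x
    rw [hz, map_add, map_mul]
    rfl
  have hzj : ∀ᶠ j in (U : Filter ℕ), ∀ x, (z x : ℕ → ℂ) j = Complex.log (v j x) + b j x * τ j := by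
    filter_upwards [Filter.eventually_all.2 hlz, hτo] with j hnj hτj x
    show (tz U H (fun j => Complex.log (v j x)) : ℕ → ℂ) j + ((b j x : ℤ) : ℂ) * (τo : ℕ → ℂ) j = _
    rw [hnj x, hτj]
  -- independence
  have hbz : ∀ (x : Fin M) (S' : Set (Fl U H)), S ⊆ S' →
      psi U H ⟨_, hbIZ x⟩ * Ideal.Quotient.mk (ms U H) τo ∈ acl (Zs U H) S' :=
    fun x S' hS' => acl_mul (acl_R ⟨_, rfl⟩) (acl_mono hS' hτacl)
  have hind : AlgebraicIndependent (Algebra.adjoin (Zs U H) S)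
      (fun x => (Ideal.Quotient.mk (ms U H) (z x) : Fl U H)) := by
    apply indepA_of_chain
    intro x hcon
    apply hch x
    set S' := (S ∪ (fun x' => tzc U H (fun j => Complex.log (v j x'))) '' {x' | x' < x} : Set (Fl U H)) with hS'
    have h1 : (Ideal.Quotient.mk (ms U H) (z x) : Fl U H) ∈ acl (Zs U H) S' := by
      refine acl_of ?_ hcon
      rintro _ (hy | ⟨i', hi', rfl⟩)
      · exact subset_acl (Or.inl hy)
      · simp only [hz1]
        exact acl_add (subset_acl (Or.inr ⟨i', hi', rfl⟩)) (hbz i' S' (fun y hy => Or.inl hy))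
    rw [hz1] at h1
    have h2 := acl_sub h1 (hbz x S' (fun y hy => Or.inl hy))
    rwa [add_sub_cancel_right] at h2
  -- the relation
  have hcA : ∀ e, (Ideal.Quotient.mk (ms U H) (c e) : Fl U H) ∈ Algebra.adjoin (Zs U H) S := by
    intro e
    rw [hc]
    simp only
    rw [mk_vs, hS, Algebra.adjoin_range_eq_range_aeval]
    exact ⟨_, rfl⟩
  have hrel : ∑ e : Mn M δ, c e * ∏ x, z x ^ (e.1 x : ℕ) ∈ ms U H := by
    rw [mem_ms]
    intro D
    filter_upwards [hp, hcj, hzj, hC.eventually_ge_atTop D] with j h1 h2 h3 h4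
    have h5 : ((∑ e : Mn M δ, c e * ∏ x, z x ^ (e.1 x : ℕ) : Os U H) : ℕ → ℂ) j =
        MvPolynomial.eval₂ (MvPolynomial.aeval (w j) : MvPolynomial (Fin q) ℤ →ₐ[ℤ] ℂ).toRingHom
          (fun x => Complex.log (v j x) + b j x * τ j) (P j) := by
      have h6 : ((∑ e : Mn M δ, c e * ∏ x, z x ^ (e.1 x : ℕ) : Os U H) : ℕ → ℂ) j =
          ∑ e : Mn M δ, (c e : ℕ → ℂ) j * ∏ x, (z x : ℕ → ℂ) j ^ (e.1 x : ℕ) := by
        have h7 : ((∑ e : Mn M δ, c e * ∏ x, z x ^ (e.1 x : ℕ) : Os U H) : ℕ → ℂ) =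
            ∑ e : Mn M δ, (c e : ℕ → ℂ) * ∏ x, (z x : ℕ → ℂ) ^ (e.1 x : ℕ) := by
          push_cast
          rfl
        rw [h7, Finset.sum_apply]
        refine Finset.sum_congr rfl fun e _ => ?_
        rw [Pi.mul_apply, Finset.prod_apply]
        rfl
      rw [h6]
      conv_rhs => rw [as_sum_Mn (P j) h1.1]
      rw [MvPolynomial.eval₂_sum]
      refine Finset.sum_congr rfl fun e _ => ?_
      rw [MvPolynomial.eval₂_monomial, h2 e, Finsupp.prod_fintype _ _ (fun _ => pow_zero _)]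
      congr 1
      refine Finset.prod_congr rfl fun x _ => ?_
      rw [h3 x]
      rfl
    rw [h5]
    refine le_trans ?_ h1.2.2.2.le
    exact mul_le_mul_of_nonneg_left (pow_le_pow_right₀ (gr_one H j) h4) (norm_nonneg _)
  have hc0 : ∀ e, c e ∈ ms U H := by
    rw [algebraicIndependent_iff] at hind
    have h0 := hind (∑ e : Mn M δ, MvPolynomial.monomial (toF e)
      (⟨Ideal.Quotient.mk (ms U H) (c e), hcA e⟩ : Algebra.adjoin (Zs U H) S)) (by
        rw [← Ideal.Quotient.eq_zero_iff_mem, map_sum] at hrel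
        rw [map_sum, ← hrel]
        refine Finset.sum_congr rfl fun e _ => ?_
        rw [MvPolynomial.aeval_monomial, Finsupp.prod_fintype _ _ (fun _ => pow_zero _), map_mul,
          map_prod]
        congr 1)
    intro e
    have h1 := congrArg (MvPolynomial.coeff (toF e)) h0
    rw [MvPolynomial.coeff_sum, MvPolynomial.coeff_zero] at h1
    simp only [MvPolynomial.coeff_monomial] at h1
    rw [Finset.sum_eq_single e (fun e' _ he' => if_neg fun h => he' (toF_inj h))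
      (fun h => absurd (mem_univ _) h), if_pos rfl] at h1
    rw [← Ideal.Quotient.eq_zero_iff_mem]
    exact congrArg Subtype.val h1
  have hfin : ∀ᶠ j in (U : Filter ℕ), ∀ e, ‖(c e : ℕ → ℂ) j‖ * gr H j ^ (E₀ + 1) ≤ 1 :=
    Filter.eventually_all.2 fun e => hc0 e (E₀ + 1)
  obtain ⟨j, h1, h2, h3⟩ := (hfin.and (hcj.and hp)).exists
  obtain ⟨s, hs⟩ := h3.2.2.1
  have hg := gr_two H j
  have hs0 : (P j).coeff s ≠ 0 := by
    intro h
    rw [h, map_zero, norm_zero, zero_mul] at hs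
    linarith
  obtain ⟨e, he⟩ : ∃ e : Mn M δ, toF e = s := by
    by_contra hno
    push Not at hno
    apply hs0
    conv_lhs => rw [as_sum_Mn (P j) h3.1]
    rw [MvPolynomial.coeff_sum]
    refine Finset.sum_eq_zero fun e _ => ?_
    rw [MvPolynomial.coeff_monomial, if_neg (hno e)]
  have h4 := h1 e
  rw [h2 e, he, pow_succ, ← mul_assoc] at h4
  nlinarith

end Seq



end Pool.Agent.K3h1.LA
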