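import Mathlib
import Pool.Agent.K3h1.LM.Sh
import Pool.Agent.K3h1.LM.Wn
import Pool.Agent.K3h1.LA.Dc

/-!
# A polynomial whose inverse roots are given algebraic numbers, up to a shift and a common factor
-/

set_option autoImplicit false

open Polynomial

namespace Pool.Agent.K3h1.LA

open Pool.Agent.K3h1.LM
open Pool.Agent.Y419.LB (Dm Dm.coeff Dm.mul Dm.one Dm.mono Dm.of_bound)

/-- an algebraic number of degree at most `D` and height at most `h` -/
def Near (D h : ℕ) (ζ : ℂ) : Prop :=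
  ∃ f : ℤ[X], Irreducible f ∧ f.natDegree ≤ D ∧ (∀ m, |f.coeff m| ≤ h) ∧ aeval ζ f = 0

theorem Near.norm_lt {D h : ℕ} {ζ : ℂ} (hζ : Near D h ζ) : ‖ζ‖ < h + 1 := by
  obtain ⟨f, h1, -, h2, h3⟩ := hζ
  exact root_norm h1.ne_zero h2 h3

theorem Near.pos {D h : ℕ} {ζ : ℂ} (hζ : Near D h ζ) :
    ∃ f : ℤ[X], Irreducible f ∧ f.natDegree ≤ D ∧ (∀ m, |f.coeff m| ≤ h) ∧ aeval ζ f = 0 ∧
      0 < f.leadingCoeff ∧ 1 ≤ f.natDegree := by
  obtain ⟨f, h1, h2, h3, h4⟩ := hζ
  have h5 : 1 ≤ f.natDegree := by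
    by_contra h
    have h6 : f.natDegree = 0 := by omega
    rw [eq_C_of_natDegree_eq_zero h6, aeval_C] at h4
    apply h1.ne_zero
    rw [eq_C_of_natDegree_eq_zero h6]
    have h7 : f.coeff 0 = 0 := by simpa using h4
    rw [h7, C_0]
  rcases lt_or_gt_of_ne (leadingCoeff_ne_zero.2 h1.ne_zero) with h | h
  · refine ⟨-f, (Associated.neg_left (Associated.refl f)).symm.irreducible h1, by rwa [natDegree_neg], fun m => by rw [coeff_neg, abs_neg]; exact h3 m,
      by rw [map_neg, h4, neg_zero], by rw [leadingCoeff_neg]; omega, by rwa [natDegree_neg]⟩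
  · exact ⟨f, h1, h2, h3, h4, h, h5⟩

theorem squarefree_irr {K : ℕ} {g : Fin K → ℤ[X]} (hirr : ∀ k, Irreducible (g k)) (hdeg : ∀ k, 1 ≤ (g k).natDegree)
    (hpos : ∀ k, 0 < (g k).leadingCoeff) (hinj : Function.Injective g) :
    Squarefree ((∏ k, g k).map (Int.castRingHom ℚ)) := by
  have hprim : ∀ k, (g k).IsPrimitive := fun k => (hirr k).isPrimitive (by have := hdeg k; omega)
  have hirr' : ∀ k, Irreducible ((g k).map (Int.castRingHom ℚ)) := fun k =>
    (IsPrimitive.Int.irreducible_iff_irreducible_map_cast (hprim k)).1 (hirr k)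
  rw [Polynomial.map_prod]
  apply Finset.squarefree_prod_of_pairwise_isCoprime
  · intro t _ t' _ htt
    refine (hirr' t).isRelPrime_iff_not_dvd.2 fun hd => ?_
    have h1 := (IsPrimitive.Int.dvd_iff_map_cast_dvd_map_cast _ (g t') (hprim t)).2 hd
    have h2 := (hirr t).associated_of_dvd (hirr t') h1
    apply htt
    apply hinj
    obtain ⟨v, hv⟩ := h2
    obtain ⟨c, hc, hcv⟩ := isUnit_iff.1 v.isUnit
    rw [← hcv] at hv
    have h3 : (g t').leadingCoeff = (g t).leadingCoeff * c := by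
      rw [← hv, leadingCoeff_mul, leadingCoeff_C]
    have h4 := hpos t
    have h5 := hpos t'
    rcases Int.isUnit_iff.1 hc with rfl | rfl
    · rw [C_1, mul_one] at hv
      exact hv
    · exfalso
      rw [h3] at h5
      omega
  · intro t _
    exact (hirr' t).squarefree

theorem exists_theta {T : ℤ[X]} (h0 : T.coeff 0 = 1) (hsq : Squarefree (T.map (Int.castRingHom ℚ))) :
    ∃ Θ : Fin T.natDegree → ℂ, T.map (Int.castRingHom ℂ) = ∏ i, (1 - C (Θ i) * X) ∧ Function.Injective Θ ∧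
      ∀ z : ℂ, aeval z T = 0 → ∃ i, Θ i = z⁻¹ := by
  have hsep : (T.map (Int.castRingHom ℂ)).Separable := by
    have h1 : (T.map (Int.castRingHom ℚ)).Separable := PerfectField.separable_iff_squarefree.2 hsq
    have h2 := h1.map (f := algebraMap ℚ ℂ)
    rw [Polynomial.map_map] at h2
    have h3 : (algebraMap ℚ ℂ).comp (Int.castRingHom ℚ) = Int.castRingHom ℂ := RingHom.ext_int _ _
    rwa [h3] at h2
  have hcard : (thr T).card = T.natDegree := by
    rw [thr, Multiset.card_map, ← (IsAlgClosed.splits _).natDegree_eq_card_roots,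
      natDegree_map_eq_of_injective Int.cast_injective]
  have hnd : (thr T).Nodup := (nodup_roots hsep).map inv_injective
  obtain ⟨Θ, hΘ⟩ : ∃ Θ : Fin T.natDegree → ℂ, Finset.univ.val.map Θ = thr T := by
    rw [← hcard]
    generalize thr T = m
    induction m using Quot.inductionOn with
    | h l =>
      refine ⟨l.get, ?_⟩
      show Finset.univ.val.map l.get = ((l : List ℂ) : Multiset ℂ)
      rw [Fin.univ_val_map]
      congr 1
      exact List.ofFn_get l
  refine ⟨Θ, ?_, ?_, ?_⟩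
  · rw [pth_thr h0, pth, ← hΘ, Multiset.map_map]
    rfl
  · intro i i' hii
    rw [← hΘ] at hnd
    exact Multiset.inj_on_of_nodup_map hnd i (Finset.mem_univ_val i) i' (Finset.mem_univ_val i') hii
  · intro z hz
    have h1 : z⁻¹ ∈ thr T := by
      rw [thr]
      refine Multiset.mem_map_of_mem _ ?_
      rw [mem_roots (by
        rw [Ne, Polynomial.map_eq_zero_iff Int.cast_injective]
        rintro rfl
        simp at h0), IsRoot.def, eval_map]
      exact hz
    rw [← hΘ] at h1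
    obtain ⟨i, -, hi⟩ := Multiset.mem_map.1 h1
    exact ⟨i, hi⟩

theorem exists_T (u D : ℕ) : ∃ E : ℕ, ∀ h : ℕ, ∀ ζ : Fin u → ℂ, (∀ t, Near D h (ζ t)) →
    ∃ n : ℕ, n ≤ u * D ∧ ∃ (T : ℤ[X]) (a : ℕ) (Θ : Fin n → ℂ), 0 < a ∧ a ≤ (h + 2) ^ u ∧ T.coeff 0 = 1 ∧
      T.natDegree = n ∧ Squarefree (T.map (Int.castRingHom ℚ)) ∧ (∀ l, |T.coeff l| ≤ (((h + 2) ^ E : ℕ) : ℤ)) ∧
      T.map (Int.castRingHom ℂ) = ∏ i, (1 - C (Θ i) * X) ∧ Function.Injective Θ ∧
      ∀ t, ∃ i, Θ i = a * (ζ t - 2 * (h + 1)) := by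
  classical
  set M : ℕ := 2 * ((D + 1) + 1 + D + (u + 1) * (D + 1) + 2) with hM
  refine ⟨(D + 1 + M) * u, fun h ζ hζ => ?_⟩
  choose f hirr hD hh hroot hpos hdeg using fun t => (hζ t).pos
  set 𝓕 : Finset ℤ[X] := Finset.univ.image f with h𝓕
  set K : ℕ := 𝓕.card with hK
  have hKu : K ≤ u := by
    refine Finset.card_image_le.trans ?_
    rw [Finset.card_univ, Fintype.card_fin]
  set en : Fin K ≃ 𝓕 := 𝓕.equivFin.symm with hen
  set g : Fin K → ℤ[X] := fun k => (en k : ℤ[X]) with hg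
  have hrep : ∀ k, ∃ t, f t = g k := fun k => by
    obtain ⟨t, -, ht⟩ := Finset.mem_image.1 (en k).2
    exact ⟨t, ht⟩
  choose rep hrep using hrep
  have hginj : Function.Injective g := Subtype.val_injective.comp en.injective
  have hgr : ∀ k, Irreducible (g k) := fun k => by rw [← hrep k]; exact hirr _
  have hgD : ∀ k, (g k).natDegree ≤ D := fun k => by rw [← hrep k]; exact hD _
  have hgh : ∀ k m, |(g k).coeff m| ≤ h := fun k => by rw [← hrep k]; exact hh _
  have hgp : ∀ k, 0 < (g k).leadingCoeff := fun k => by rw [← hrep k]; exact hpos _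
  have hgd : ∀ k, 1 ≤ (g k).natDegree := fun k => by rw [← hrep k]; exact hdeg _
  obtain ⟨a, a', ha0, hah, haa', ha'le⟩ := exists_lc (fun k => (hgr k).ne_zero) hgh
  have haZ : (a : ℤ) ≠ 0 := by exact_mod_cast ha0.ne'
  set T : ℤ[X] := ∏ k, qs (g k) (a' k) a ((2 * (h + 1) : ℕ) : ℤ) with hT
  have hT0 : T.coeff 0 = 1 := by
    rw [hT, coeff_zero_eq_eval_zero, eval_prod]
    refine Finset.prod_eq_one fun k _ => ?_
    rw [← coeff_zero_eq_eval_zero, qs_coeff_zero]
  have hTsq : Squarefree (T.map (Int.castRingHom ℚ)) :=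
    qs_squarefree (m := 1) (b := fun _ => ((2 * (h + 1) : ℕ) : ℤ)) (fun k => (hgr k).ne_zero) haa' haZ hgh
      (squarefree_irr hgr hgd hgp hginj) (fun i i' hii => absurd (Subsingleton.elim i i') hii)
      (fun k => (0, k)) (fun k k' hkk => (Prod.mk.inj hkk).2)
  have hTD : T.natDegree ≤ u * D := by
    refine (natDegree_prod_le _ _).trans ?_
    refine (Finset.sum_le_sum fun k _ => (qs_natDegree_le _ _ _ _).trans (hgD k)).trans ?_
    rw [Finset.sum_const, Finset.card_univ, Fintype.card_fin, smul_eq_mul]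
    exact Nat.mul_le_mul_right _ hKu
  -- the coefficients
  set w : ℕ := 2 * (h + 1) with hw
  set A : ℕ := h ^ K + 1 with hA
  set hq : ℕ := (D + 1) * (h * (w + 1) ^ D) * A ^ (D + 1) + 1 with hhq
  have hqc : ∀ k l, |(qs (g k) (a' k) a (w : ℤ)).coeff l| ≤ (hq : ℤ) := by
    intro k l
    have h2 : ((a : ℕ) : ℤ) ≤ (A : ℤ) := by
      have : a ≤ A := hah.trans (Nat.le_succ _)
      exact_mod_cast this
    exact qs_coeff_le (hgD k) (hgh k) (by rw [abs_of_nonneg (Int.natCast_nonneg _)]) (by omega)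
      ((ha'le _).trans h2) (by rw [abs_of_nonneg (Int.natCast_nonneg _)]; exact h2) l
  have hqle : (D + 1) * hq ≤ (h + 2) ^ (D + 1 + M) := by
    have h1 := size_le K D h w
    have h2 : h + w + 2 ≤ (h + 2) ^ 2 := by
      rw [hw]
      nlinarith
    have h3 : D + 1 ≤ (h + 2) ^ (D + 1) :=
      (Nat.lt_two_pow_self (n := D + 1)).le.trans (Nat.pow_le_pow_left (by omega) _)
    have h4 : hq ≤ (h + 2) ^ M := by
      calc hq ≤ (h + w + 2) ^ ((D + 1) + 1 + D + (K + 1) * (D + 1) + 2) := by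
            have : hq ≤ hq + 2 := by omega
            exact this.trans h1
        _ ≤ ((h + 2) ^ 2) ^ ((D + 1) + 1 + D + (K + 1) * (D + 1) + 2) := Nat.pow_le_pow_left h2 _
        _ = (h + 2) ^ (2 * ((D + 1) + 1 + D + (K + 1) * (D + 1) + 2)) := by rw [← pow_mul]
        _ ≤ (h + 2) ^ M := Nat.pow_le_pow_right (by omega) (by
            rw [hM]
            have : (K + 1) * (D + 1) ≤ (u + 1) * (D + 1) := Nat.mul_le_mul_right _ (by omega)
            omega)
    rw [pow_add]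
    exact Nat.mul_le_mul h3 h4
  have hdm : ∀ k, Dm (qs (g k) (a' k) a (w : ℤ)) (((h : ℝ) + 2) ^ (D + 1 + M)) := fun k => by
    refine (Dm.of_bound (n := D) (B := (hq : ℝ)) ((qs_natDegree_le _ _ _ _).trans (hgD k))
      (Nat.cast_nonneg _) fun l _ => ?_).mono ?_
    · exact_mod_cast hqc k l
    · exact_mod_cast hqle
  have hTc : ∀ l, |T.coeff l| ≤ (((h + 2) ^ ((D + 1 + M) * u) : ℕ) : ℤ) := by
    intro l
    have h1 := (Dm_prodp hdm Finset.univ).coeff l
    rw [Finset.card_univ, Fintype.card_fin, ← pow_mul] at h1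
    have h2 : ((h : ℝ) + 2) ^ ((D + 1 + M) * K) ≤ ((h : ℝ) + 2) ^ ((D + 1 + M) * u) :=
      pow_le_pow_right₀ (by linarith [(Nat.cast_nonneg h : (0 : ℝ) ≤ h)]) (Nat.mul_le_mul_left _ hKu)
    have h3 := h1.trans h2
    exact_mod_cast h3
  obtain ⟨Θ, hΘ, hΘi, hΘr⟩ := exists_theta hT0 hTsq
  refine ⟨T.natDegree, hTD, T, a, Θ, ha0, ?_, hT0, rfl, hTsq, hTc, hΘ, hΘi, fun t => ?_⟩
  · refine hah.trans ((Nat.pow_le_pow_left (by omega : h ≤ h + 2) _).trans (Nat.pow_le_pow_right (by omega) hKu))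
  · -- the roots
    obtain ⟨k, hk⟩ : ∃ k, g k = f t := by
      obtain ⟨k, hk⟩ := en.surjective ⟨f t, Finset.mem_image_of_mem _ (Finset.mem_univ t)⟩
      exact ⟨k, by rw [hg]; simp only; rw [hk]⟩
    have haC : (a : ℂ) ≠ 0 := by exact_mod_cast ha0.ne'
    have hne : ζ t - 2 * (h + 1) ≠ 0 := by
      intro h0
      have h1 := (hζ t).norm_lt
      have h2 : ζ t = ((2 * (h + 1) : ℕ) : ℂ) := by
        push_cast
        linear_combination h0
      rw [h2, Complex.norm_natCast] at h1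
      push_cast at h1
      have h3 : (0 : ℝ) ≤ h := Nat.cast_nonneg h
      linarith
    set z : ℂ := ((a : ℂ) * (ζ t - 2 * (h + 1)))⁻¹ with hz
    have hz0 : z ≠ 0 := inv_ne_zero (mul_ne_zero haC hne)
    have h1 := qs_eval (L := ℂ) (b := (w : ℤ)) (haa' k) haZ (z := z) hz0
    have h2 : 1 / ((((a : ℕ) : ℤ) : ℂ) * z) + ((w : ℤ) : ℂ) = ζ t := by
      have h3 : (((a : ℕ) : ℤ) : ℂ) * z = (ζ t - 2 * (h + 1))⁻¹ := by
        rw [hz, mul_inv]
        push_cast
        rw [← mul_assoc, mul_inv_cancel₀ haC, one_mul]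
      rw [h3, one_div, inv_inv, hw]
      push_cast
      ring
    rw [h2, hk, hroot t, mul_zero] at h1
    have h3 : aeval z (qs (f t) (a' k) a (w : ℤ)) = 0 := by
      refine (mul_eq_zero.1 h1).resolve_left ?_
      exact_mod_cast leadingCoeff_ne_zero.2 (hirr t).ne_zero
    have h4 : aeval z T = 0 := by
      rw [hT, map_prod]
      refine Finset.prod_eq_zero (Finset.mem_univ k) ?_
      rw [hk]
      exact h3
    obtain ⟨i, hi⟩ := hΘr z h4
    exact ⟨i, by rw [hi, hz, inv_inv]⟩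

end Pool.Agent.K3h1.LA
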