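import Mathlib
import Pool.Agent.K3h1.LA.Nb
import Pool.Agent.K3h1.LA.Pl

/-!
# Few exceptional algebraic numbers
-/

set_option autoImplicit false

namespace Pool.Agent.K3h1.LA

open Filter Finset Pool.Agent.R351.GF Pool.Agent.Y916 Pool.Agent.Y535.LG Pool.Agent.K3h1.LM
open Polynomial (aeval)

theorem log_near {N₀ h : ℕ} (hN : 6 * (h + 1) ≤ N₀) {ζ : ℂ} (hζ : ‖ζ‖ < h + 1) :
    Complex.log (((N₀ + 2 * (h + 1) : ℕ) : ℂ) - ζ) =
      ((Real.log N₀ : ℝ) : ℂ) + Complex.log (1 - (ζ - 2 * (h + 1)) / N₀) ∧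
    ‖Complex.log (1 - (ζ - 2 * (h + 1)) / N₀)‖ ≤ 1 ∧ Real.log N₀ + 1 ≤ N₀ ∧ 0 ≤ Real.log N₀ := by
  have hN0 : (0 : ℝ) < N₀ := by
    have : 0 < N₀ := by omega
    exact_mod_cast this
  have hN6 : (6 : ℝ) * (h + 1) ≤ N₀ := by exact_mod_cast hN
  have hh : (0 : ℝ) ≤ h := Nat.cast_nonneg h
  have hx : ‖-((ζ - 2 * (h + 1)) / (N₀ : ℂ))‖ ≤ 1 / 2 := by
    rw [norm_neg, norm_div, Complex.norm_natCast, div_le_iff₀ hN0]
    have h1 : ‖ζ - 2 * ((h : ℂ) + 1)‖ ≤ ‖ζ‖ + 2 * (h + 1) := by
      refine (norm_sub_le _ _).trans ?_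
      have h2 : ‖(2 * ((h : ℂ) + 1))‖ = 2 * (h + 1) := by
        have h3 : (2 * ((h : ℂ) + 1)) = ((2 * (h + 1) : ℕ) : ℂ) := by push_cast; ring
        rw [h3, Complex.norm_natCast]
        push_cast
        ring
      rw [h2]
    linarith
  have h1 := Complex.norm_log_one_add_half_le_self hx
  rw [← sub_eq_add_neg] at h1
  have hne : 1 - (ζ - 2 * (h + 1)) / (N₀ : ℂ) ≠ 0 := by
    intro h0
    have h2 : (ζ - 2 * (h + 1)) / (N₀ : ℂ) = 1 := by linear_combination -h0
    rw [h2, norm_neg, norm_one] at hx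
    norm_num at hx
  refine ⟨?_, by linarith, ?_, ?_⟩
  · rw [← Complex.log_ofReal_mul hN0 hne]
    congr 1
    have hNc : (N₀ : ℂ) ≠ 0 := by exact_mod_cast hN0.ne'
    push_cast
    field_simp
    ring
  · have := Real.log_le_sub_one_of_pos hN0
    linarith
  · refine Real.log_nonneg ?_
    linarith

/-- **At most `q + 1` exceptional numbers**, where `q` is the number of the constants. -/
theorem exc_num (r q D δ E₀ : ℕ) : ∃ E : ℕ, ∀ h N H : ℕ, (h + 2) ^ E ≤ N → N ≤ H → ∀ w : Fin q → ℂ,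
    (∀ i, ‖w i‖ ≤ H) → ∀ τ : ℂ, (τ = 0 ∨ ∃ i, τ = w i) → ∃ G : Finset ℂ, G.card ≤ q + 1 ∧
    ∀ ζ : Fin r → ℂ, Function.Injective ζ → (∀ s, Near D h (ζ s) ∧ ζ s ∉ G) →
      ¬ BadN δ E₀ E H w τ (fun s => (N : ℂ) - ζ s) := by
  classical
  by_contra hcon
  push Not at hcon
  choose h N H hhN hNH w hw τ hτ hG using hcon
  set U : Ultrafilter ℕ := hyperfilter ℕ with hU
  have hUt : Tendsto id (U : Filter ℕ) atTop := by
    rw [hU, ← Nat.cofinite_eq_atTop]
    exact hyperfilter_le_cofinite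
  have hgrow : ∀ E : ℕ, ∀ᶠ j in (U : Filter ℕ), (h j + 2) ^ E ≤ N j := fun E => by
    filter_upwards [hUt.eventually_ge_atTop E] with j hj
    exact (Nat.pow_le_pow_right (by omega) hj).trans (hhN j)
  set N₀ : ℕ → ℕ := fun j => N j - 2 * (h j + 1) with hN₀
  have hN₀e : ∀ᶠ j in (U : Filter ℕ), N₀ j + 2 * (h j + 1) = N j := by
    filter_upwards [hgrow 2] with j hj
    have h1 : 2 * (h j + 1) ≤ (h j + 2) ^ 2 := by nlinarith
    have h2 : N₀ j = N j - 2 * (h j + 1) := rfl
    omega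
  have hgrow₀ : ∀ E : ℕ, ∀ᶠ j in (U : Filter ℕ), (h j + 2) ^ E ≤ N₀ j := fun E => by
    filter_upwards [hgrow (E + 3), hN₀e] with j h1 h3
    have h7 : 1 ≤ (h j + 2) ^ E := Nat.one_le_pow _ _ (by omega)
    have h8 : 1 + 2 * (h j + 1) ≤ (h j + 2) ^ 3 := by
      have : (h j + 2) ^ 3 = (h j + 2) * (h j + 2) ^ 2 := by ring
      nlinarith
    have h10 : (h j + 2) ^ E * (1 + 2 * (h j + 1)) ≤ (h j + 2) ^ E * (h j + 2) ^ 3 :=
      Nat.mul_le_mul_left _ h8
    have h11 : 2 * (h j + 1) ≤ (h j + 2) ^ E * (2 * (h j + 1)) := Nat.le_mul_of_pos_left _ (by omega)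
    have h6 : (h j + 2) ^ (E + 3) = (h j + 2) ^ E * (h j + 2) ^ 3 := pow_add _ _ _
    nlinarith
  have h6N : ∀ᶠ j in (U : Filter ℕ), 6 * (h j + 1) ≤ N₀ j := by
    filter_upwards [hgrow₀ 3] with j hj
    refine le_trans ?_ hj
    have : (h j + 2) ^ 3 = (h j + 2) * (h j + 2) ^ 2 := by ring
    nlinarith
  have hgN : ∀ j, (N j : ℝ) + 2 ≤ gr H j := fun j => by
    have h1 : (N j : ℝ) ≤ H j := by exact_mod_cast hNH j
    unfold gr
    linarith
  set S : Set (Fl U H) := Set.range fun i => (Ideal.Quotient.mk (ms U H) (cst U H w hw i) : Fl U H) with hS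
  -- the classes of the values
  set Y : (ℕ → ℂ) → Fl U H := fun g => tzc U H (fun j => Complex.log ((N j : ℂ) - g j)) with hY
  have hYc : ∀ g g' : ℕ → ℂ, (∀ᶠ j in (U : Filter ℕ), g j = g' j) → Y g = Y g' := by
    intro g g' hg
    apply tzc_congr
    filter_upwards [hg] with j hj
    rw [hj]
  -- the size of the values
  have hval : ∀ g : ℕ → ℂ, (∀ j, Near D (h j) (g j)) →
      ∀ᶠ j in (U : Filter ℕ), ‖Complex.log ((N j : ℂ) - g j)‖ ≤ gr H j := by
    intro g hg
    filter_upwards [h6N, hN₀e] with j h1 h2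
    obtain ⟨h3, h4, h5, h6⟩ := log_near h1 (hg j).norm_lt
    rw [h2] at h3
    rw [h3]
    refine (norm_add_le _ _).trans ?_
    rw [Complex.norm_real, Real.norm_eq_abs, abs_of_nonneg h6]
    have h7 := hgN j
    have h8 : (N₀ j : ℝ) ≤ N j := by exact_mod_cast Nat.sub_le _ _
    linarith
  -- one step
  have hstep : ∀ G : ℕ → Finset ℂ, (∀ j, (G j).card ≤ q + 1) → ∃ (F : ℕ → Fin r → ℂ) (x : Fin r),
      (∀ j, Function.Injective (F j) ∧ ∀ s, Near D (h j) (F j s) ∧ F j s ∉ G j) ∧
      Y (fun j => F j x) ∈ acl (Zs U H) (S ∪ (fun x' => Y (fun j => F j x')) '' {x' | x' < x}) := by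
    intro G hGc
    choose F hFi hFg hFb using fun j => hG j (G j) (hGc j)
    have hτ' : (∀ᶠ j in (U : Filter ℕ), τ j = 0) ∨ ∃ i, ∀ᶠ j in (U : Filter ℕ), τ j = w j i := by
      have h1 : ∀ᶠ j in (U : Filter ℕ), τ j = 0 ∨ ∃ i, τ j = w j i := Eventually.of_forall hτ
      rcases (Ultrafilter.eventually_or).1 h1 with h2 | h2
      · exact Or.inl h2
      · right
        exact Ultrafilter.eventually_exists_iff.1 h2
    by_contra hno
    push Not at hno
    refine no_badN U H w hw τ hτ' (fun j s => (N j : ℂ) - F j s) id hUt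
      (fun x => hval _ fun j => (hFg j x).1) (Eventually.of_forall hFb) fun x => ?_
    exact hno F x fun j => ⟨hFi j, hFg j⟩
  -- `m` steps
  have hsteps : ∀ m : ℕ, m ≤ q + 2 → ∃ (F : Fin m → ℕ → Fin r → ℂ) (x : Fin m → Fin r),
      (∀ i j, Function.Injective (F i j) ∧ ∀ s, Near D (h j) (F i j s)) ∧
      (∀ i i', i' < i → ∀ j s, F i j s ≠ F i' j (x i')) ∧
      ∀ i, Y (fun j => F i j (x i)) ∈
        acl (Zs U H) (S ∪ (fun x' => Y (fun j => F i j x')) '' {x' | x' < x i}) := by
    intro m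
    induction m with
    | zero =>
      intro _
      exact ⟨fun i => i.elim0, fun i => i.elim0, fun i => i.elim0, fun i => i.elim0, fun i => i.elim0⟩
    | succ m ih =>
      intro hm
      obtain ⟨F, x, h1, h2, h3⟩ := ih (by omega)
      obtain ⟨F', x', h4, h5⟩ := hstep (fun j => univ.image fun i : Fin m => F i j (x i)) (fun j => by
        refine Finset.card_image_le.trans ?_
        rw [Finset.card_univ, Fintype.card_fin]
        omega)
      refine ⟨Fin.snoc F F', Fin.snoc x x', ?_, ?_, ?_⟩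
      · intro i
        refine Fin.lastCases ?_ (fun i => ?_) i
        · intro j
          rw [Fin.snoc_last]
          exact ⟨(h4 j).1, fun s => ((h4 j).2 s).1⟩
        · intro j
          rw [Fin.snoc_castSucc]
          exact h1 i j
      · intro i i'
        refine Fin.lastCases ?_ (fun i => ?_) i
        · refine Fin.lastCases ?_ (fun i' => ?_) i'
          · intro hlt
            exact absurd hlt (lt_irrefl _)
          · intro _ j s
            rw [Fin.snoc_last, Fin.snoc_castSucc, Fin.snoc_castSucc]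
            intro heq
            exact ((h4 j).2 s).2 (Finset.mem_image.2 ⟨i', mem_univ _, heq.symm⟩)
        · refine Fin.lastCases ?_ (fun i' => ?_) i'
          · intro hlt
            exact absurd hlt (not_lt.2 (Fin.le_last _))
          · intro hlt j s
            rw [Fin.snoc_castSucc, Fin.snoc_castSucc, Fin.snoc_castSucc]
            exact h2 i i' (Fin.castSucc_lt_castSucc_iff.1 hlt) j s
      · intro i
        refine Fin.lastCases ?_ (fun i => ?_) i
        · simp only [Fin.snoc_last]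
          exact h5
        · simp only [Fin.snoc_castSucc]
          exact h3 i
  obtain ⟨F, x, hF, hFF, hFx⟩ := hsteps (q + 2) le_rfl
  -- the germs
  set γ : Fin (q + 2) × Fin r → Germ (U : Filter ℕ) ℂ := fun p => ((fun j => F p.1 j p.2 : ℕ → ℂ) :
    Germ (U : Filter ℕ) ℂ) with hγ
  set Γ : Finset (Germ (U : Filter ℕ) ℂ) := univ.image γ with hΓ
  set u : ℕ := Γ.card with hu
  set en : Fin u ≃ Γ := Γ.equivFin.symm with hen
  have hrep : ∀ t : Fin u, ∃ p, γ p = (en t : Germ (U : Filter ℕ) ℂ) := by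
    intro t
    obtain ⟨p, -, hp⟩ := Finset.mem_image.1 (en t).2
    exact ⟨p, hp⟩
  choose rep hrep using hrep
  set g : ℕ → Fin u → ℂ := fun j t => F (rep t).1 j (rep t).2 with hg
  have hgood : ∀ j t, Near D (h j) (g j t) := fun j t => (hF _ j).2 _
  have hginj : ∀ᶠ j in (U : Filter ℕ), Function.Injective (g j) := by
    have h1 : ∀ t t', t ≠ t' → ∀ᶠ j in (U : Filter ℕ), g j t ≠ g j t' := by
      intro t t' htt
      have h2 : ¬ ∀ᶠ j in (U : Filter ℕ), g j t = g j t' := by
        intro h3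
        apply htt
        apply en.injective
        apply Subtype.ext
        rw [← hrep t, ← hrep t', hγ]
        exact Germ.coe_eq.2 h3
      exact Ultrafilter.eventually_not.2 h2
    have h2 : ∀ᶠ j in (U : Filter ℕ), ∀ t t', t ≠ t' → g j t ≠ g j t' :=
      Filter.eventually_all.2 fun t => Filter.eventually_all.2 fun t' => by
        by_cases htt : t = t'
        · exact Eventually.of_forall fun j h => absurd htt h
        · exact (h1 t t' htt).mono fun j hj _ => hj
    filter_upwards [h2] with j hj t t' htt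
    by_contra h
    exact hj t t' h htt
  -- the polynomials
  obtain ⟨E₁, hE₁⟩ := exists_T u D
  set Q : ℕ → ℕ → Prop := fun j n => ∃ (T : Polynomial ℤ) (a : ℕ) (Θ : Fin n → ℂ), 0 < a ∧ a ≤ (h j + 2) ^ u ∧
      T.coeff 0 = 1 ∧ T.natDegree = n ∧ Squarefree (T.map (Int.castRingHom ℚ)) ∧
      (∀ l, |T.coeff l| ≤ (((h j + 2) ^ E₁ : ℕ) : ℤ)) ∧
      T.map (Int.castRingHom ℂ) = ∏ i, (1 - Polynomial.C (Θ i) * Polynomial.X) ∧ Function.Injective Θ ∧
      ∀ t, ∃ i, Θ i = a * (g j t - 2 * (h j + 1)) with hQ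
  obtain ⟨n, hn⟩ : ∃ n, ∀ᶠ j in (U : Filter ℕ), Q j n := by
    have h1 : ∀ᶠ j in (U : Filter ℕ), ∃ n : Fin (u * D + 1), Q j n := Eventually.of_forall fun j => by
      obtain ⟨n, hn, h2⟩ := hE₁ (h j) (g j) (hgood j)
      exact ⟨⟨n, by omega⟩, h2⟩
    obtain ⟨n, h2⟩ := Ultrafilter.eventually_exists_iff.1 h1
    exact ⟨n, h2⟩
  have hdat : ∀ j, ∃ (T : Polynomial ℤ) (a : ℕ) (Θ : Fin n → ℂ), Q j n → 0 < a ∧ a ≤ (h j + 2) ^ u ∧
      T.coeff 0 = 1 ∧ T.natDegree = n ∧ Squarefree (T.map (Int.castRingHom ℚ)) ∧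
      (∀ l, |T.coeff l| ≤ (((h j + 2) ^ E₁ : ℕ) : ℤ)) ∧
      T.map (Int.castRingHom ℂ) = ∏ i, (1 - Polynomial.C (Θ i) * Polynomial.X) ∧ Function.Injective Θ ∧
      ∀ t, ∃ i, Θ i = a * (g j t - 2 * (h j + 1)) := by
    intro j
    by_cases h1 : Q j n
    · obtain ⟨T, a, Θ, h2⟩ := h1
      exact ⟨T, a, Θ, fun _ => h2⟩
    · exact ⟨0, 0, 0, fun h2 => absurd h2 h1⟩
  choose T a Θ hT using hdat
  have hT' := hn.mono fun j hj => hT j hj
  obtain ⟨ι, hι⟩ : ∃ ι : Fin u → Fin n, ∀ᶠ j in (U : Filter ℕ), ∀ t, Θ j (ι t) = a j * (g j t - 2 * (h j + 1)) := by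
    have h1 : ∀ᶠ j in (U : Filter ℕ), ∃ ι : Fin u → Fin n, ∀ t, Θ j (ι t) = a j * (g j t - 2 * (h j + 1)) := by
      filter_upwards [hT'] with j hj
      obtain ⟨-, -, -, -, -, -, -, -, h2⟩ := hj
      choose ι hι using h2
      exact ⟨ι, hι⟩
    exact Ultrafilter.eventually_exists_iff.1 h1
  have hιinj : Function.Injective ι := by
    intro t t' htt
    obtain ⟨j, h1, h2, h3⟩ := (hι.and (hginj.and hT')).exists
    apply h2
    have h4 := h1 t
    rw [htt, h1 t'] at h4
    have h5 : (a j : ℂ) ≠ 0 := by exact_mod_cast h3.1.ne'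
    have h6 := mul_left_cancel₀ h5 h4
    linear_combination -h6
  have hSys : Sys U H n T (fun j => a j * N₀ j) (fun j => (h j + 2) ^ E₁) Θ := by
    refine ⟨hT'.mono fun j hj => hj.2.2.1, hT'.mono fun j hj => hj.2.2.2.1, hT'.mono fun j hj => hj.2.2.2.2.1,
      hT'.mono fun j hj => hj.2.2.2.2.2.1, hT'.mono fun j hj => hj.2.2.2.2.2.2.1,
      hT'.mono fun j hj => hj.2.2.2.2.2.2.2.1, fun E => ?_, ⟨u + 1, ?_⟩⟩
    · filter_upwards [hT', hgrow₀ ((E₁ + 2) * E)] with j h1 h2
      have h3 : (h j + 2) ^ E₁ + 2 ≤ (h j + 2) ^ (E₁ + 2) := by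
        have h4 : 1 ≤ (h j + 2) ^ E₁ := Nat.one_le_pow _ _ (by omega)
        have h5 : (h j + 2) ^ (E₁ + 2) = (h j + 2) ^ E₁ * ((h j + 2) * (h j + 2)) := by ring
        have h6 : 4 ≤ (h j + 2) * (h j + 2) := Nat.mul_le_mul (by omega : 2 ≤ h j + 2) (by omega : 2 ≤ h j + 2)
        have h7 : (h j + 2) ^ E₁ * 4 ≤ (h j + 2) ^ E₁ * ((h j + 2) * (h j + 2)) := Nat.mul_le_mul_left _ h6
        omega
      calc ((h j + 2) ^ E₁ + 2) ^ E ≤ ((h j + 2) ^ (E₁ + 2)) ^ E := Nat.pow_le_pow_left h3 _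
        _ = (h j + 2) ^ ((E₁ + 2) * E) := by rw [← pow_mul]
        _ ≤ N₀ j := h2
        _ ≤ a j * N₀ j := Nat.le_mul_of_pos_left _ h1.1
    · filter_upwards [hT', hgrow 1] with j h1 h2
      rw [pow_one] at h2
      have h3 := hgN j
      have h4 : ((h j : ℝ) + 2) ≤ gr H j := by
        have : ((h j : ℝ) + 2) ≤ N j := by exact_mod_cast h2
        linarith
      have h5 : (N₀ j : ℝ) ≤ gr H j := by
        have : (N₀ j : ℝ) ≤ N j := by exact_mod_cast Nat.sub_le _ _
        linarith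
      push_cast
      rw [pow_succ]
      refine mul_le_mul ?_ h5 (Nat.cast_nonneg _) (by have := gr_pos H j; positivity)
      have h6 : (a j : ℝ) ≤ ((h j : ℝ) + 2) ^ u := by exact_mod_cast h1.2.1
      exact h6.trans (pow_le_pow_left₀ (by positivity) h4 _)
  -- the closure
  set c₀ : Fl U H := tzc U H (fun j => ((Real.log (N₀ j) : ℝ) : ℂ)) with hc₀
  set L : Fin n → Fl U H := fun i => tzc U H (fun j => Complex.log (1 - Θ j i / ((a j * N₀ j : ℕ) : ℂ))) with hL
  have hrel : ∀ t, Y (fun j => g j t) = c₀ + L (ι t) := by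
    intro t
    have h1 : c₀ + L (ι t) = Ideal.Quotient.mk (ms U H) (tz U H (fun j => ((Real.log (N₀ j) : ℝ) : ℂ)) +
        tz U H (fun j => Complex.log (1 - Θ j (ι t) / ((a j * N₀ j : ℕ) : ℂ)))) := by
      rw [map_add]
      rfl
    rw [h1]
    apply mk_congr
    filter_upwards [hι, h6N, hN₀e, hval _ (fun j => hgood j t), hT'] with j g1 g2 g3 g4 g5
    obtain ⟨k1, k2, k3, k4⟩ := log_near g2 (hgood j t).norm_lt
    rw [g3] at k1
    have h8 : (N₀ j : ℝ) ≤ N j := by exact_mod_cast Nat.sub_le _ _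
    have h9 := hgN j
    have h10 : Θ j (ι t) / ((a j * N₀ j : ℕ) : ℂ) = (g j t - 2 * (h j + 1)) / N₀ j := by
      rw [g1 t]
      have h5 : (a j : ℂ) ≠ 0 := by exact_mod_cast g5.1.ne'
      push_cast
      rw [mul_div_mul_left _ _ h5]
    rw [map_add, evo_tz U H (z := fun j => Complex.log ((N j : ℂ) - g j t)) g4, evo_tz U H, evo_tz U H, h10]
    · exact k1
    · rw [h10]
      have := gr_two H j
      linarith
    · rw [Complex.norm_real, Real.norm_eq_abs, abs_of_nonneg k4]
      linarith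
  set ε : Set (Germ (U : Filter ℕ) ℂ) := Set.range fun i => γ (i, x i) with hε
  set Z : Set (Fl U H) := insert c₀ ((S ∪ (fun t : Fin u => Y (fun j => g j t)) ''
    {t | (en t : Germ (U : Filter ℕ) ℂ) ∉ ε}) ∪ L '' {i | i ∉ Set.range ι}) with hZ
  have hSZ : S ⊆ Z := fun y hy => Set.mem_insert_of_mem _ (Or.inl (Or.inl hy))
  have hYZ : ∀ p, γ p ∉ ε → Y (fun j => F p.1 j p.2) ∈ Z := by
    intro p hp
    obtain ⟨t, ht⟩ := en.surjective ⟨γ p, Finset.mem_image_of_mem _ (mem_univ p)⟩
    have ht' : (en t : Germ (U : Filter ℕ) ℂ) = γ p := by rw [ht]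
    refine Set.mem_insert_of_mem _ (Or.inl (Or.inr ⟨t, ?_, ?_⟩))
    · rw [Set.mem_setOf_eq, ht']
      exact hp
    · apply hYc
      have h1 := (hrep t).trans ht'
      exact Germ.coe_eq.1 h1
  have hεZ : ∀ i : Fin (q + 2), Y (fun j => F i j (x i)) ∈ acl (Zs U H) Z := by
    intro i
    induction i using WellFoundedGT.induction with
    | ind i ih =>
      refine acl_of ?_ (hFx i)
      rintro _ (hy | ⟨x', hx', rfl⟩)
      · exact subset_acl (hSZ hy)
      · by_cases hp : γ (i, x') ∈ ε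
        · obtain ⟨i'', hi''⟩ := hp
          have h1 : ∀ᶠ j in (U : Filter ℕ), F i'' j (x i'') = F i j x' := Germ.coe_eq.1 hi''
          have h2 : i < i'' := by
            obtain ⟨j, hj⟩ := h1.exists
            rcases lt_trichotomy i i'' with h3 | h3 | h3
            · exact h3
            · exfalso
              subst h3
              have h4 := (hF i j).1 hj
              exact absurd h4.symm (ne_of_lt hx')
            · exact absurd hj.symm (hFF i i'' h3 j x')
          have h3 := ih i'' h2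
          have h4 : Y (fun j => F i j x') = Y (fun j => F i'' j (x i'')) := (hYc _ _ h1).symm
          simp only
          rw [h4]
          exact h3
        · exact subset_acl (hYZ (i, x') hp)
  have hallZ : ∀ t : Fin u, Y (fun j => g j t) ∈ acl (Zs U H) Z := by
    intro t
    by_cases ht : (en t : Germ (U : Filter ℕ) ℂ) ∈ ε
    · obtain ⟨i, hi⟩ := ht
      have h1 : γ (i, x i) = γ (rep t) := by rw [hrep t]; exact hi
      have h2 : Y (fun j => F i j (x i)) = Y (fun j => g j t) := hYc _ _ (Germ.coe_eq.1 h1)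
      rw [← h2]
      exact hεZ i
    · exact subset_acl (Set.mem_insert_of_mem _ (Or.inl (Or.inr ⟨t, ht, rfl⟩)))
  -- the size
  have hεinj : Function.Injective fun i => γ (i, x i) := by
    intro i i' hii
    obtain ⟨j, hj⟩ := (Germ.coe_eq.1 hii : ∀ᶠ j in (U : Filter ℕ), F i j (x i) = F i' j (x i')).exists
    rcases lt_trichotomy i i' with h1 | h1 | h1
    · exact absurd hj.symm (hFF i' i h1 j _)
    · exact h1
    · exact absurd hj (hFF i i' h1 j _)
  have hcard : ((univ : Finset (Fin u)).filter fun t => (en t : Germ (U : Filter ℕ) ℂ) ∉ ε).card + (q + 2) = u := by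
    have h1 := Finset.card_filter_add_card_filter_not (s := (univ : Finset (Fin u)))
      (fun t => (en t : Germ (U : Filter ℕ) ℂ) ∉ ε)
    have h2 : ((univ : Finset (Fin u)).filter fun t => ¬ (en t : Germ (U : Filter ℕ) ℂ) ∉ ε).card = q + 2 := by
      have h3 : ((univ : Finset (Fin u)).filter fun t => ¬ (en t : Germ (U : Filter ℕ) ℂ) ∉ ε) =
          (univ : Finset (Fin (q + 2))).image fun i => en.symm ⟨γ (i, x i), Finset.mem_image_of_mem _ (mem_univ _)⟩ := by
        ext t
        simp only [mem_filter, mem_univ, true_and, not_not, mem_image, hε, Set.mem_range]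
        constructor
        · rintro ⟨i, hi⟩
          refine ⟨i, ?_⟩
          rw [Equiv.symm_apply_eq]
          exact Subtype.ext hi
        · rintro ⟨i, rfl⟩
          exact ⟨i, by rw [Equiv.apply_symm_apply]⟩
      rw [h3, Finset.card_image_of_injective, Finset.card_univ, Fintype.card_fin]
      intro i i' hii
      exact hεinj (congrArg Subtype.val (en.symm.injective hii))
    rw [h2, Finset.card_univ, Fintype.card_fin] at h1
    exact h1
  have hcard2 : ((univ : Finset (Fin n)).filter fun i => i ∉ Set.range ι).card + u = n := by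
    have h1 := Finset.card_filter_add_card_filter_not (s := (univ : Finset (Fin n))) (fun i => i ∉ Set.range ι)
    have h2 : ((univ : Finset (Fin n)).filter fun i => ¬ i ∉ Set.range ι).card = u := by
      have h3 : ((univ : Finset (Fin n)).filter fun i => ¬ i ∉ Set.range ι) = (univ : Finset (Fin u)).image ι := by
        ext i
        simp
      rw [h3, Finset.card_image_of_injective _ hιinj, Finset.card_univ, Fintype.card_fin]
    rw [h2, Finset.card_univ, Fintype.card_fin] at h1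
    exact h1
  have hZc : Z.encard < (n : ℕ∞) := by
    have h1 : Z.encard ≤ ((q + ((univ : Finset (Fin u)).filter fun t =>
        (en t : Germ (U : Filter ℕ) ℂ) ∉ ε).card + ((univ : Finset (Fin n)).filter fun i => i ∉ Set.range ι).card +
        1 : ℕ) : ℕ∞) := by
      refine (Set.encard_insert_le _ _).trans ?_
      push_cast
      refine add_le_add ?_ le_rfl
      refine (Set.encard_union_le _ _).trans (add_le_add ?_ ?_)
      · refine (Set.encard_union_le _ _).trans (add_le_add ?_ ?_)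
        · rw [hS, ← Set.image_univ]
          refine (Set.encard_image_le _ _).trans ?_
          rw [Set.encard_univ]
          simp
        · refine (Set.encard_image_le _ _).trans ?_
          rw [← Set.encard_coe_eq_coe_finsetCard]
          refine Set.encard_le_encard ?_
          intro t ht
          simpa using ht
      · refine (Set.encard_image_le _ _).trans ?_
        rw [← Set.encard_coe_eq_coe_finsetCard]
        refine Set.encard_le_encard ?_
        intro t ht
        simpa using ht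
    refine h1.trans_lt ?_
    have h2 : q + ((univ : Finset (Fin u)).filter fun t =>
        (en t : Germ (U : Filter ℕ) ℂ) ∉ ε).card + ((univ : Finset (Fin n)).filter fun i => i ∉ Set.range ι).card +
        1 < n := by omega
    exact_mod_cast h2
  obtain ⟨i, hi⟩ := hSys.log_cls hZc
  apply hi
  by_cases hir : i ∈ Set.range ι
  · obtain ⟨t, rfl⟩ := hir
    have h1 : L (ι t) = Y (fun j => g j t) - c₀ := by
      rw [hrel t]
      ring
    show L (ι t) ∈ acl (Zs U H) Z
    rw [h1]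
    exact acl_sub (hallZ t) (subset_acl (Set.mem_insert _ _))
  · exact subset_acl (Set.mem_insert_of_mem _ (Or.inr ⟨i, hir, rfl⟩))

end Pool.Agent.K3h1.LA
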