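import Mathlib
import Pool.Agent.K3h1.LM.Tp
import Pool.Agent.K3h1.LA.Ex

/-!
# Algebraic numbers near the elements of large sets of integers
-/

set_option autoImplicit false

namespace Pool.Agent.K3h1.LA

open Filter Finset Pool.Agent.R351.GF Pool.Agent.Y916 Pool.Agent.Y535.LG Pool.Agent.K3h1.LM
open Polynomial (aeval)

variable (U : Ultrafilter ℕ) (H T : ℕ → ℕ)

/-- **The transcendence degree of the logarithms of `u` numbers near `N`** is at least `u - 1`. -/
theorem num_cls {u D : ℕ} (N h : ℕ → ℕ) (g : ℕ → Fin u → ℂ) (hNH : ∀ᶠ j in (U : Filter ℕ), N j ≤ H j)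
    (hgood : ∀ᶠ j in (U : Filter ℕ), ∀ t, Near D (h j) (g j t))
    (hginj : ∀ᶠ j in (U : Filter ℕ), Function.Injective (g j))
    (hgrow : ∀ E : ℕ, ∀ᶠ j in (U : Filter ℕ), (h j + 2) ^ E ≤ N j) :
    (∀ᶠ j in (U : Filter ℕ), ∀ t, ‖Complex.log ((N j : ℂ) - g j t)‖ ≤ gr H j) ∧
    ∀ Z : Set (Fl U H), Z.encard + 1 < (u : ℕ∞) →
      ∃ t, tzc U H (fun j => Complex.log ((N j : ℂ) - g j t)) ∉ acl (Zs U H) Z := by
  classical
  set N₀ : ℕ → ℕ := fun j => N j - 2 * (h j + 1) with hN₀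
  have hN₀e : ∀ᶠ j in (U : Filter ℕ), N₀ j + 2 * (h j + 1) = N j := by
    filter_upwards [hgrow 2] with j hj
    have h1 : 2 * (h j + 1) ≤ (h j + 2) ^ 2 := by nlinarith
    have h2 : N₀ j = N j - 2 * (h j + 1) := rfl
    omega
  have hgrow₀ : ∀ E : ℕ, ∀ᶠ j in (U : Filter ℕ), (h j + 2) ^ E ≤ N₀ j := fun E => by
    filter_upwards [hgrow (E + 3), hN₀e] with j h1 h3
    have h7 : 1 ≤ (h j + 2) ^ E := Nat.one_le_pow _ _ (by omega)
    have h8 : 1 + 2 * (h j + 1) ≤ (h j + 2) ^ 3 := by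
      have : (h j + 2) ^ 3 = (h j + 2) * (h j + 2) ^ 2 := by ring
      nlinarith
    have h10 : (h j + 2) ^ E * (1 + 2 * (h j + 1)) ≤ (h j + 2) ^ E * (h j + 2) ^ 3 :=
      Nat.mul_le_mul_left _ h8
    have h11 : 2 * (h j + 1) ≤ (h j + 2) ^ E * (2 * (h j + 1)) := Nat.le_mul_of_pos_left _ (by omega)
    have h6 : (h j + 2) ^ (E + 3) = (h j + 2) ^ E * (h j + 2) ^ 3 := pow_add _ _ _
    nlinarith
  have h6N : ∀ᶠ j in (U : Filter ℕ), 6 * (h j + 1) ≤ N₀ j := by
    filter_upwards [hgrow₀ 3] with j hj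
    refine le_trans ?_ hj
    have : (h j + 2) ^ 3 = (h j + 2) * (h j + 2) ^ 2 := by ring
    nlinarith
  have hgN : ∀ᶠ j in (U : Filter ℕ), (N j : ℝ) + 2 ≤ gr H j := by
    filter_upwards [hNH] with j hj
    have h1 : (N j : ℝ) ≤ H j := by exact_mod_cast hj
    unfold gr
    linarith
  have hval : ∀ᶠ j in (U : Filter ℕ), ∀ t, ‖Complex.log ((N j : ℂ) - g j t)‖ ≤ gr H j := by
    filter_upwards [h6N, hN₀e, hgood, hgN] with j h1 h2 hg h7 t
    obtain ⟨h3, h4, h5, h6⟩ := log_near h1 (hg t).norm_lt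
    rw [h2] at h3
    rw [h3]
    refine (norm_add_le _ _).trans ?_
    rw [Complex.norm_real, Real.norm_eq_abs, abs_of_nonneg h6]
    have h8 : (N₀ j : ℝ) ≤ N j := by exact_mod_cast Nat.sub_le _ _
    linarith
  refine ⟨hval, fun Z hZ => ?_⟩
  -- the polynomials
  obtain ⟨E₁, hE₁⟩ := exists_T u D
  set Q : ℕ → ℕ → Prop := fun j n => ∃ (T : Polynomial ℤ) (a : ℕ) (Θ : Fin n → ℂ), 0 < a ∧ a ≤ (h j + 2) ^ u ∧
      T.coeff 0 = 1 ∧ T.natDegree = n ∧ Squarefree (T.map (Int.castRingHom ℚ)) ∧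
      (∀ l, |T.coeff l| ≤ (((h j + 2) ^ E₁ : ℕ) : ℤ)) ∧
      T.map (Int.castRingHom ℂ) = ∏ i, (1 - Polynomial.C (Θ i) * Polynomial.X) ∧ Function.Injective Θ ∧
      ∀ t, ∃ i, Θ i = a * (g j t - 2 * (h j + 1)) with hQ
  obtain ⟨n, hn⟩ : ∃ n, ∀ᶠ j in (U : Filter ℕ), Q j n := by
    have h1 : ∀ᶠ j in (U : Filter ℕ), ∃ n : Fin (u * D + 1), Q j n := by
      filter_upwards [hgood] with j hj
      obtain ⟨n, hn, h2⟩ := hE₁ (h j) (g j) hj
      exact ⟨⟨n, by omega⟩, h2⟩
    obtain ⟨n, h2⟩ := Ultrafilter.eventually_exists_iff.1 h1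
    exact ⟨n, h2⟩
  have hdat : ∀ j, ∃ (T : Polynomial ℤ) (a : ℕ) (Θ : Fin n → ℂ), Q j n → 0 < a ∧ a ≤ (h j + 2) ^ u ∧
      T.coeff 0 = 1 ∧ T.natDegree = n ∧ Squarefree (T.map (Int.castRingHom ℚ)) ∧
      (∀ l, |T.coeff l| ≤ (((h j + 2) ^ E₁ : ℕ) : ℤ)) ∧
      T.map (Int.castRingHom ℂ) = ∏ i, (1 - Polynomial.C (Θ i) * Polynomial.X) ∧ Function.Injective Θ ∧
      ∀ t, ∃ i, Θ i = a * (g j t - 2 * (h j + 1)) := by
    intro j
    by_cases h1 : Q j n
    · obtain ⟨T, a, Θ, h2⟩ := h1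
      exact ⟨T, a, Θ, fun _ => h2⟩
    · exact ⟨0, 0, 0, fun h2 => absurd h2 h1⟩
  choose T a Θ hT using hdat
  have hT' := hn.mono fun j hj => hT j hj
  obtain ⟨ι, hι⟩ : ∃ ι : Fin u → Fin n, ∀ᶠ j in (U : Filter ℕ), ∀ t, Θ j (ι t) = a j * (g j t - 2 * (h j + 1)) := by
    have h1 : ∀ᶠ j in (U : Filter ℕ), ∃ ι : Fin u → Fin n, ∀ t, Θ j (ι t) = a j * (g j t - 2 * (h j + 1)) := by
      filter_upwards [hT'] with j hj
      obtain ⟨-, -, -, -, -, -, -, -, h2⟩ := hj
      choose ι hι using h2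
      exact ⟨ι, hι⟩
    exact Ultrafilter.eventually_exists_iff.1 h1
  have hιinj : Function.Injective ι := by
    intro t t' htt
    obtain ⟨j, h1, h2, h3⟩ := (hι.and (hginj.and hT')).exists
    apply h2
    have h4 := h1 t
    rw [htt, h1 t'] at h4
    have h5 : (a j : ℂ) ≠ 0 := by exact_mod_cast h3.1.ne'
    have h6 := mul_left_cancel₀ h5 h4
    linear_combination -h6
  have hSys : Sys U H n T (fun j => a j * N₀ j) (fun j => (h j + 2) ^ E₁) Θ := by
    refine ⟨hT'.mono fun j hj => hj.2.2.1, hT'.mono fun j hj => hj.2.2.2.1, hT'.mono fun j hj => hj.2.2.2.2.1,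
      hT'.mono fun j hj => hj.2.2.2.2.2.1, hT'.mono fun j hj => hj.2.2.2.2.2.2.1,
      hT'.mono fun j hj => hj.2.2.2.2.2.2.2.1, fun E => ?_, ⟨u + 1, ?_⟩⟩
    · filter_upwards [hT', hgrow₀ ((E₁ + 2) * E)] with j h1 h2
      have h3 : (h j + 2) ^ E₁ + 2 ≤ (h j + 2) ^ (E₁ + 2) := by
        have h4 : 1 ≤ (h j + 2) ^ E₁ := Nat.one_le_pow _ _ (by omega)
        have h5 : (h j + 2) ^ (E₁ + 2) = (h j + 2) ^ E₁ * ((h j + 2) * (h j + 2)) := by ring
        have h6 : 4 ≤ (h j + 2) * (h j + 2) := Nat.mul_le_mul (by omega : 2 ≤ h j + 2) (by omega : 2 ≤ h j + 2)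
        have h7 : (h j + 2) ^ E₁ * 4 ≤ (h j + 2) ^ E₁ * ((h j + 2) * (h j + 2)) := Nat.mul_le_mul_left _ h6
        omega
      calc ((h j + 2) ^ E₁ + 2) ^ E ≤ ((h j + 2) ^ (E₁ + 2)) ^ E := Nat.pow_le_pow_left h3 _
        _ = (h j + 2) ^ ((E₁ + 2) * E) := by rw [← pow_mul]
        _ ≤ N₀ j := h2
        _ ≤ a j * N₀ j := Nat.le_mul_of_pos_left _ h1.1
    · filter_upwards [hT', hgrow 1, hgN] with j h1 h2 h3
      rw [pow_one] at h2
      have h4 : ((h j : ℝ) + 2) ≤ gr H j := by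
        have : ((h j : ℝ) + 2) ≤ N j := by exact_mod_cast h2
        linarith
      have h5 : (N₀ j : ℝ) ≤ gr H j := by
        have : (N₀ j : ℝ) ≤ N j := by exact_mod_cast Nat.sub_le _ _
        linarith
      push_cast
      rw [pow_succ]
      refine mul_le_mul ?_ h5 (Nat.cast_nonneg _) (by have := gr_pos H j; positivity)
      have h6 : (a j : ℝ) ≤ ((h j : ℝ) + 2) ^ u := by exact_mod_cast h1.2.1
      exact h6.trans (pow_le_pow_left₀ (by positivity) h4 _)
  -- the closure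
  set c₀ : Fl U H := tzc U H (fun j => ((Real.log (N₀ j) : ℝ) : ℂ)) with hc₀
  set L : Fin n → Fl U H := fun i => tzc U H (fun j => Complex.log (1 - Θ j i / ((a j * N₀ j : ℕ) : ℂ))) with hL
  have hrel : ∀ t, tzc U H (fun j => Complex.log ((N j : ℂ) - g j t)) = c₀ + L (ι t) := by
    intro t
    have h1 : c₀ + L (ι t) = Ideal.Quotient.mk (ms U H) (tz U H (fun j => ((Real.log (N₀ j) : ℝ) : ℂ)) +
        tz U H (fun j => Complex.log (1 - Θ j (ι t) / ((a j * N₀ j : ℕ) : ℂ)))) := by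
      rw [map_add]
      rfl
    rw [h1]
    apply mk_congr
    filter_upwards [hι, h6N, hN₀e, hval, hT', hgood, hgN] with j g1 g2 g3 g4 g5 g6 h9
    obtain ⟨k1, k2, k3, k4⟩ := log_near g2 (g6 t).norm_lt
    rw [g3] at k1
    have h8 : (N₀ j : ℝ) ≤ N j := by exact_mod_cast Nat.sub_le _ _
    have h10 : Θ j (ι t) / ((a j * N₀ j : ℕ) : ℂ) = (g j t - 2 * (h j + 1)) / N₀ j := by
      rw [g1 t]
      have h5 : (a j : ℂ) ≠ 0 := by exact_mod_cast g5.1.ne'
      push_cast
      rw [mul_div_mul_left _ _ h5]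
    rw [map_add, evo_tz U H (z := fun j => Complex.log ((N j : ℂ) - g j t)) (g4 t), evo_tz U H, evo_tz U H, h10]
    · exact k1
    · rw [h10]
      have := gr_two H j
      linarith
    · rw [Complex.norm_real, Real.norm_eq_abs, abs_of_nonneg k4]
      linarith
  by_contra hcon
  push Not at hcon
  set Z' : Set (Fl U H) := insert c₀ (Z ∪ L '' {i | i ∉ Set.range ι}) with hZ'
  have hZZ' : Z ⊆ Z' := fun y hy => Set.mem_insert_of_mem _ (Or.inl hy)
  have hcard2 : ((univ : Finset (Fin n)).filter fun i => i ∉ Set.range ι).card + u = n := by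
    have h1 := Finset.card_filter_add_card_filter_not (s := (univ : Finset (Fin n))) (fun i => i ∉ Set.range ι)
    have h2 : ((univ : Finset (Fin n)).filter fun i => ¬ i ∉ Set.range ι).card = u := by
      have h3 : ((univ : Finset (Fin n)).filter fun i => ¬ i ∉ Set.range ι) = (univ : Finset (Fin u)).image ι := by
        ext i
        simp
      rw [h3, Finset.card_image_of_injective _ hιinj, Finset.card_univ, Fintype.card_fin]
    rw [h2, Finset.card_univ, Fintype.card_fin] at h1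
    exact h1
  have hZc : Z'.encard < (n : ℕ∞) := by
    have h1 : Z'.encard ≤ Z.encard + 1 + (((univ : Finset (Fin n)).filter fun i => i ∉ Set.range ι).card : ℕ∞) := by
      refine (Set.encard_insert_le _ _).trans ?_
      rw [add_right_comm]
      refine add_le_add ?_ le_rfl
      refine (Set.encard_union_le _ _).trans (add_le_add le_rfl ?_)
      refine (Set.encard_image_le _ _).trans ?_
      rw [← Set.encard_coe_eq_coe_finsetCard]
      refine Set.encard_le_encard ?_
      intro t ht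
      simpa using ht
    refine h1.trans_lt ?_
    have h2 : (n : ℕ∞) = (u : ℕ∞) + (((univ : Finset (Fin n)).filter fun i => i ∉ Set.range ι).card : ℕ∞) := by
      have : n = u + ((univ : Finset (Fin n)).filter fun i => i ∉ Set.range ι).card := by omega
      exact_mod_cast this
    rw [h2]
    exact (ENat.add_lt_add_iff_right (ENat.natCast_ne_top _)).2 hZ
  obtain ⟨i, hi⟩ := hSys.log_cls hZc
  apply hi
  by_cases hir : i ∈ Set.range ι
  · obtain ⟨t, rfl⟩ := hir
    have h1 : L (ι t) = tzc U H (fun j => Complex.log ((N j : ℂ) - g j t)) - c₀ := by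
      rw [hrel t]
      ring
    show L (ι t) ∈ acl (Zs U H) Z'
    rw [h1]
    exact acl_sub (acl_mono hZZ' (hcon t)) (subset_acl (Set.mem_insert _ _))
  · exact subset_acl (Set.mem_insert_of_mem _ (Or.inr ⟨i, hir, rfl⟩))

/-- shifts -/
theorem Near.shift {D h w : ℕ} {ζ : ℂ} (hζ : Near D h ζ) {b : ℕ} (hb : b ≤ w) :
    Near D ((D + 1) * (h * (w + 1) ^ D)) (ζ - b) := by
  obtain ⟨f, h1, h2, h3, h4⟩ := hζ
  refine ⟨Polynomial.taylor (b : ℤ) f, ?_, ?_, fun m => ?_, ?_⟩
  · have h5 := (MulEquiv.irreducible_iff (Polynomial.taylorEquiv (b : ℤ)) (x := f)).2 h1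
    exact h5
  · rwa [Polynomial.natDegree_taylor]
  · have h5 := taylor_coeff_le (b := (b : ℤ)) (w := w) h2 h3 (by
      rw [abs_of_nonneg (Int.natCast_nonneg _)]
      exact_mod_cast hb) m
    exact_mod_cast h5
  · rw [Polynomial.taylor_apply, Polynomial.aeval_comp]
    simp only [map_add, Polynomial.aeval_X, Polynomial.aeval_C]
    have h5 : ζ - (b : ℂ) + (algebraMap ℤ ℂ) (b : ℤ) = ζ := by simp
    rw [h5]
    exact h4

/-- **Algebraic numbers near an element of large sets.** -/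
theorem exists_goodN {K D : ℕ} (hT : Tendsto T U atTop) (hTH : ∀ᶠ j in (U : Filter ℕ), T j ≤ H j)
    (f : ℕ → Fin K → ℂ) (h : ℕ → ℕ)
    (hf : ∀ᶠ j in (U : Filter ℕ), Function.Injective (f j) ∧ ∀ s, Near D (h j) (f j s))
    (hh : ∀ E : ℕ, ∀ᶠ j in (U : Filter ℕ), (h j + 2) ^ E ≤ T j)
    (A : ℕ → Finset ℕ) (hA : ∀ j, A j ⊆ Ioc 0 (T j))
    (hL : ∀ c : ℝ, 0 < c → ∀ᶠ j in (U : Filter ℕ), (T j : ℝ) ^ (1 - c) < (A j).card)
    (S : Set (Fl U H)) (hS : S.Finite) :
    ∃ a : ℕ → ℕ, (∀ᶠ j in (U : Filter ℕ), a j ∈ A j) ∧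
      (∀ᶠ j in (U : Filter ℕ), ∀ s, ‖Complex.log ((a j : ℂ) - f j s)‖ ≤ gr H j) ∧ ∀ s : Fin K,
      tzc U H (fun j => Complex.log ((a j : ℂ) - f j s)) ∉ acl (Zs U H)
        (S ∪ (fun s' => tzc U H (fun j => Complex.log ((a j : ℂ) - f j s'))) '' {s' | s' < s}) := by
  classical
  have hH : Tendsto H U atTop := tendsto_atTop_mono' _ hTH hT
  set m : ℕ := S.ncard + 2 with hm
  obtain ⟨N, w, β, hNT, hNA, hβ, hβ', hE⟩ := exists_spaced U T hT h hh A hA hL m
  set e : Fin (m * K) → Fin m × Fin K := fun x => finProdFinEquiv.symm x with he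
  have heinj : Function.Injective e := finProdFinEquiv.symm.injective
  set h' : ℕ → ℕ := fun j => (D + 1) * (h j * (w j + 1) ^ D) with hh'
  obtain ⟨hval, hind⟩ := num_cls U H (u := m * K) (D := D) N h' (fun j x => f j (e x).2 - β j (e x).1)
    (by filter_upwards [hNT, hTH] with j h1 h2; exact h1.trans h2)
    (by
      filter_upwards [hf, hβ] with j h1 h2 x
      exact (h1.2 _).shift (h2 _).2)
    (by
      filter_upwards [hf, hβ'] with j h1 h2 x y hxy
      apply heinj
      by_cases h3 : (e x).1 = (e y).1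
      · refine Prod.ext h3 (h1.1 ?_)
        have h4 : f j (e x).2 - (β j (e x).1 : ℂ) = f j (e y).2 - β j (e y).1 := hxy
        rw [h3] at h4
        linear_combination h4
      · exfalso
        have h4 : f j (e x).2 - (β j (e x).1 : ℂ) = f j (e y).2 - β j (e y).1 := hxy
        have h5 := h2 _ _ h3
        have h6 := (h1.2 (e x).2).norm_lt
        have h7 := (h1.2 (e y).2).norm_lt
        have h8 : (((β j (e x).1 : ℤ) - β j (e y).1 : ℤ) : ℂ) = f j (e x).2 - f j (e y).2 := by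
          push_cast
          linear_combination -h4
        have h9 : |(((β j (e x).1 : ℤ) - β j (e y).1 : ℤ) : ℝ)| = ‖f j (e x).2 - f j (e y).2‖ := by
          rw [← h8, Complex.norm_intCast]
        have h10 := norm_sub_le (f j (e x).2) (f j (e y).2)
        have h11 : (2 * ((h j : ℝ) + 1)) ≤ |(((β j (e x).1 : ℤ) - β j (e y).1 : ℤ) : ℝ)| := by
          exact_mod_cast h5
        linarith)
    (by
      intro E
      filter_upwards [hE ((D + 1 + 1 + D + 2) * E)] with j h1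
      refine le_trans ?_ h1
      rw [pow_mul]
      refine Nat.pow_le_pow_left ?_ _
      have h3 : D + 1 ≤ (h j + w j + 2) ^ (D + 1) :=
        (Nat.lt_two_pow_self (n := D + 1)).le.trans (Nat.pow_le_pow_left (by omega) _)
      have h4 : h j * (w j + 1) ^ D ≤ (h j + w j + 2) ^ (1 + D) := by
        rw [pow_add, pow_one]
        exact Nat.mul_le_mul (by omega) (Nat.pow_le_pow_left (by omega) _)
      have h5 : h' j ≤ (h j + w j + 2) ^ (D + 1 + (1 + D)) := by
        rw [hh', pow_add]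
        exact Nat.mul_le_mul h3 h4
      have h6 : 4 ≤ (h j + w j + 2) ^ 2 := by
        calc 4 = 2 ^ 2 := by norm_num
          _ ≤ (h j + w j + 2) ^ 2 := Nat.pow_le_pow_left (by omega) 2
      have h7 : 1 ≤ (h j + w j + 2) ^ (D + 1 + (1 + D)) := Nat.one_le_pow _ _ (by omega)
      have h8 : (h j + w j + 2) ^ (D + 1 + 1 + D + 2) =
          (h j + w j + 2) ^ (D + 1 + (1 + D)) * (h j + w j + 2) ^ 2 := by
        rw [← pow_add]
        congr 1
        omega
      rw [h8]
      nlinarith)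
  have hcast : ∀ (i : Fin m) (s : Fin K), (fun j => Complex.log (((N j + β j i : ℕ) : ℂ) - f j s)) =
      fun j => Complex.log ((N j : ℂ) - (f j s - β j i)) := by
    intro i s
    funext j
    congr 1
    push_cast
    ring
  by_contra hcon
  push Not at hcon
  have hc : ∀ i : Fin m, ∃ s : Fin K, tzc U H (fun j => Complex.log ((N j : ℂ) - (f j s - β j i))) ∈
      acl (Zs U H) (S ∪ (fun s' => tzc U H (fun j => Complex.log ((N j : ℂ) - (f j s' - β j i)))) '' {s' | s' < s}) := by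
    intro i
    obtain ⟨s, hs⟩ := hcon (fun j => N j + β j i) (by filter_upwards [hNA] with j hj; exact hj i) (by
      filter_upwards [hval] with j hj s
      have h1 := hj (finProdFinEquiv (i, s))
      have h2 : e (finProdFinEquiv (i, s)) = (i, s) := by rw [he]; simp
      rw [h2] at h1
      refine le_of_eq_of_le ?_ h1
      exact congrArg norm (congrFun (hcast i s) j))
    refine ⟨s, ?_⟩
    simp only [hcast] at hs
    exact hs
  choose σ hσ using hc
  set X : Fin m → Fin K → Fl U H := fun i s => tzc U H (fun j => Complex.log ((N j : ℂ) - (f j s - β j i))) with hX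
  set Z : Finset (Fin m × Fin K) := (univ : Finset (Fin m × Fin K)).filter fun p => p.2 ≠ σ p.1 with hZ
  set Y : Set (Fl U H) := S ∪ (fun p : Fin m × Fin K => X p.1 p.2) '' (Z : Set (Fin m × Fin K)) with hY
  have hZc := card_off σ
  rw [← hZ] at hZc
  -- the size of `Y`
  have hYc : Y.encard + 1 < ((m * K : ℕ) : ℕ∞) := by
    have h2 : Y.encard ≤ ((S.ncard + Z.card : ℕ) : ℕ∞) := by
      refine (Set.encard_union_le _ _).trans ?_
      push_cast
      refine add_le_add ?_ ?_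
      · rw [← hS.cast_ncard_eq]
      · refine (Set.encard_image_le _ _).trans ?_
        rw [Set.encard_coe_eq_coe_finsetCard]
    refine (add_le_add h2 le_rfl).trans_lt ?_
    have h3 : S.ncard + Z.card + 1 < m * K := by omega
    exact_mod_cast h3
  -- everything is algebraic over `Y`
  have hXY : ∀ i s, X i s ∈ acl (Zs U H) Y := by
    intro i s
    by_cases hs : s = σ i
    · rw [hs]
      refine acl_mono ?_ (hσ i)
      rintro x (hx | ⟨s', hs', rfl⟩)
      · exact Or.inl hx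
      · refine Or.inr ⟨(i, s'), ?_, rfl⟩
        rw [Finset.mem_coe, hZ, mem_filter]
        exact ⟨mem_univ _, ne_of_lt hs'⟩
    · refine subset_acl (Or.inr ⟨(i, s), ?_, rfl⟩)
      rw [Finset.mem_coe, hZ, mem_filter]
      exact ⟨mem_univ _, hs⟩
  obtain ⟨x, hx⟩ := hind Y hYc
  exact hx (hXY _ _)

/-- families of `K` distinct algebraic numbers of degree at most `D` and height at most `h` -/
def FamN {K : ℕ} (D h : ℕ) (f : Fin K → ℂ) : Prop :=
  Function.Injective f ∧ ∀ s, Near D h (f s)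

/-- **Chains.** -/
theorem exists_chainN {K D : ℕ} (hT : Tendsto T U atTop) (hTH : ∀ᶠ j in (U : Filter ℕ), T j ≤ H j)
    (h : ℕ → ℕ) (hh : ∀ E : ℕ, ∀ᶠ j in (U : Filter ℕ), (h j + 2) ^ E ≤ T j) (k : ℕ) :
    ∀ f : Fin k → ℕ → Fin K → ℂ, (∀ i, ∀ᶠ j in (U : Filter ℕ), FamN D (h j) (f i j)) →
    ∀ B : ℕ → Finset (Fin k → ℕ), (∀ j, B j ⊆ Fintype.piFinset fun _ => Ioc 0 (T j)) →
    (∀ c : ℝ, 0 < c → ∀ᶠ j in (U : Filter ℕ), (T j : ℝ) ^ ((k : ℝ) - c) < (B j).card) →
    ∀ S : Set (Fl U H), S.Finite →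
    ∃ n : ℕ → Fin k → ℕ, (∀ᶠ j in (U : Filter ℕ), n j ∈ B j) ∧
      (∀ᶠ j in (U : Filter ℕ), ∀ i s, ‖Complex.log ((n j i : ℂ) - f i j s)‖ ≤ gr H j) ∧
      ∀ i s, tzc U H (fun j => Complex.log ((n j i : ℂ) - f i j s)) ∉
        acl (Zs U H) (S ∪ (fun p : Fin k × Fin K =>
          tzc U H (fun j => Complex.log ((n j p.1 : ℂ) - f p.1 j p.2))) '' lex i s) := by
  classical
  have hTr : Tendsto (fun j => (T j : ℝ)) U atTop := tendsto_natCast_atTop_atTop.comp hT
  induction k with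
  | zero =>
    intro f hf B hB hL S hS
    have h1 : ∀ᶠ j in (U : Filter ℕ), (fun i : Fin 0 => i.elim0 : Fin 0 → ℕ) ∈ B j := by
      filter_upwards [hL 1 one_pos, hTr.eventually_ge_atTop 1] with j hj hj2
      have h2 : (0 : ℝ) < (B j).card := lt_trans (Real.rpow_pos_of_pos (by linarith) _) hj
      have h3 : 0 < (B j).card := by exact_mod_cast h2
      obtain ⟨n, hn⟩ := Finset.card_pos.1 h3
      have : n = (fun i : Fin 0 => i.elim0 : Fin 0 → ℕ) := funext fun i => i.elim0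
      rwa [← this]
    exact ⟨fun _ => fun i => i.elim0, h1, Eventually.of_forall fun j i => i.elim0, fun i => i.elim0⟩
  | succ k ih =>
    intro f hf B hB hL S hS
    have hhalf : ∀ c : ℝ, 0 < c → ∀ᶠ j in (U : Filter ℕ), 2 ≤ (T j : ℝ) ^ c := fun c hc =>
      ((tendsto_rpow_atTop hc).comp hTr).eventually_ge_atTop 2
    -- the first coordinate
    obtain ⟨a, ha, hav, hat⟩ := exists_goodN U H T hT hTH (f 0) h (hf 0) hh
      (fun j => big (T j) (B j))
      (fun j => Finset.filter_subset _ _) (by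
        intro c hc
        filter_upwards [hL (c / 2) (by positivity), hhalf (c / 2) (by positivity),
          hTr.eventually_ge_atTop 1] with j h1 h2 h3
        have ht0 : (0 : ℝ) < T j := by linarith
        have h4 : ((B j).card : ℝ) ≤ 2 * (big (T j) (B j)).card * (T j : ℝ) ^ k := by
          exact_mod_cast card_le_big (hB j)
        have h5 : (0 : ℝ) < (T j : ℝ) ^ k := by positivity
        have h6 : (T j : ℝ) ^ (((k + 1 : ℕ) : ℝ) - c / 2) =
            (T j : ℝ) ^ (c / 2) * (T j : ℝ) ^ (1 - c) * (T j : ℝ) ^ k := by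
          rw [← Real.rpow_natCast (T j : ℝ) k, ← Real.rpow_add ht0, ← Real.rpow_add ht0]
          congr 1
          push_cast
          ring
        rw [h6] at h1
        have h7 : (T j : ℝ) ^ (c / 2) * (T j : ℝ) ^ (1 - c) < 2 * (big (T j) (B j)).card :=
          lt_of_mul_lt_mul_right (lt_of_lt_of_le h1 h4) h5.le
        have h8 : 0 < (T j : ℝ) ^ (1 - c) := Real.rpow_pos_of_pos ht0 _
        nlinarith) S hS
    -- the fibre
    set R : Set (Fl U H) := Set.range fun s : Fin K => tzc U H (fun j => Complex.log ((a j : ℂ) - f 0 j s)) with hR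
    obtain ⟨m, hm, hmv, hmt⟩ := ih (fun i => f i.succ) (fun i => hf i.succ)
      (fun j => fib (T j) (B j) (a j)) (fun j => Finset.filter_subset _ _) (by
        intro c hc
        filter_upwards [hL (c / 2) (by positivity), hhalf (c / 2) (by positivity),
          hTr.eventually_ge_atTop 1, ha] with j h1 h2 h3 ha
        have ht0 : (0 : ℝ) < T j := by linarith
        have h4 : ((B j).card : ℝ) ≤ 2 * T j * (fib (T j) (B j) (a j)).card := by
          exact_mod_cast (Finset.mem_filter.1 ha).2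
        have h6 : (T j : ℝ) ^ (((k + 1 : ℕ) : ℝ) - c / 2) =
            (T j : ℝ) * ((T j : ℝ) ^ (c / 2) * (T j : ℝ) ^ ((k : ℝ) - c)) := by
          rw [← Real.rpow_add ht0]
          nth_rewrite 2 [← Real.rpow_one (T j : ℝ)]
          rw [← Real.rpow_add ht0]
          congr 1
          push_cast
          ring
        rw [h6] at h1
        have h7 : (T j : ℝ) ^ (c / 2) * (T j : ℝ) ^ ((k : ℝ) - c) < 2 * (fib (T j) (B j) (a j)).card := by
          have h9 : (T j : ℝ) * ((T j : ℝ) ^ (c / 2) * (T j : ℝ) ^ ((k : ℝ) - c)) <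
              (T j : ℝ) * (2 * (fib (T j) (B j) (a j)).card) := by
            refine lt_of_lt_of_le h1 (h4.trans (le_of_eq ?_))
            ring
          exact lt_of_mul_lt_mul_left h9 ht0.le
        have h8 : 0 < (T j : ℝ) ^ ((k : ℝ) - c) := Real.rpow_pos_of_pos ht0 _
        nlinarith) (S ∪ R) (hS.union (Set.finite_range _))
    refine ⟨fun j => Fin.cons (a j) (m j), ?_, ?_, ?_⟩
    · filter_upwards [hm] with j hj
      exact (Finset.mem_filter.1 hj).2
    · filter_upwards [hav, hmv] with j h1 h2 i s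
      refine Fin.cases ?_ (fun i => ?_) i
      · exact h1 s
      · exact h2 i s
    · intro i s
      refine Fin.cases ?_ (fun i => ?_) i
      · intro hcon
        apply hat s
        refine acl_mono ?_ hcon
        rintro x (hx | ⟨p, hp, rfl⟩)
        · exact Or.inl hx
        · rcases hp with hp | ⟨hp1, hp2⟩
          · exact absurd hp (Fin.not_lt_zero _)
          · refine Or.inr ⟨p.2, hp2, ?_⟩
            simp only [hp1]
            rfl
      · intro hcon
        apply hmt i s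
        refine acl_mono ?_ hcon
        rintro x (hx | ⟨⟨i', s'⟩, hp, rfl⟩)
        · exact Or.inl (Or.inl hx)
        · revert hp
          refine Fin.cases ?_ (fun i' => ?_) i'
          · intro _
            exact Or.inl (Or.inr ⟨s', rfl⟩)
          · intro hp
            refine Or.inr ⟨(i', s'), ?_, rfl⟩
            rcases hp with hp | ⟨hp1, hp2⟩
            · exact Or.inl (Fin.succ_lt_succ_iff.1 hp)
            · exact Or.inr ⟨Fin.succ_injective _ hp1, hp2⟩

end Pool.Agent.K3h1.LA
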