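import Mathlib
import Pool.Agent.K3h1.LA.Tc

/-!
# Few exceptional algebraic numbers, over fixed constants and over number fields
-/

set_option autoImplicit false

namespace Pool.Agent.K3h1.LA

open Filter Finset Pool.Agent.R351.GF Pool.Agent.Y916 Pool.Agent.Y535.LG Pool.Agent.K3h1.LM
open Polynomial (aeval)

section Cs

variable (U : Ultrafilter ℕ) (H : ℕ → ℕ)

/-- the classes of the constants -/
noncomputable def sg (hH : Tendsto H U atTop) : ℂ →+* Fl U H :=
  (Ideal.Quotient.mk (ms U H)).comp ((Pi.constRingHom ℕ ℂ).codRestrict (Os U H) (fun z => by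
    refine (mem_Os U H).2 ⟨1, ?_⟩
    have h1 : Tendsto (fun j => (H j : ℝ)) U atTop := tendsto_natCast_atTop_atTop.comp hH
    filter_upwards [h1.eventually_ge_atTop ‖z‖] with j hj
    rw [pow_one]
    show ‖z‖ ≤ gr H j
    unfold gr
    linarith))

theorem sg_eq (hH : Tendsto H U atTop) (z : ℂ) : sg U H hH z = tzc U H (fun _ => z) := by
  apply mk_congr
  have h1 : Tendsto (fun j => (H j : ℝ)) U atTop := tendsto_natCast_atTop_atTop.comp hH
  filter_upwards [h1.eventually_ge_atTop ‖z‖] with j hj
  rw [evo_tz U H (z := fun _ => z)]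
  · rfl
  · unfold gr
    linarith

theorem sg_acl (hH : Tendsto H U atTop) {S : Set ℂ} {x : ℂ} (h : IsAlgebraic (Algebra.adjoin ℤ S) x) :
    sg U H hH x ∈ acl (Zs U H) (sg U H hH '' S) := by
  rw [mem_acl]
  have h1 : ∀ y : Algebra.adjoin ℤ S, sg U H hH y ∈ Algebra.adjoin (Zs U H) (sg U H hH '' S) := by
    rintro ⟨y, hy⟩
    refine Algebra.adjoin_induction (p := fun y _ => sg U H hH y ∈ Algebra.adjoin (Zs U H) (sg U H hH '' S))
      ?_ ?_ ?_ ?_ hy
    · intro y hy
      exact Algebra.subset_adjoin ⟨y, hy, rfl⟩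
    · intro n
      rw [algebraMap_int_eq, eq_intCast, map_intCast]
      exact intCast_mem _ n
    · intro y z _ _ h1 h2
      rw [map_add]
      exact add_mem h1 h2
    · intro y z _ _ h1 h2
      rw [map_mul]
      exact mul_mem h1 h2
  set φ : Algebra.adjoin ℤ S →+* Algebra.adjoin (Zs U H) (sg U H hH '' S) :=
    ((sg U H hH).comp (algebraMap (Algebra.adjoin ℤ S) ℂ)).codRestrict
      (Algebra.adjoin (Zs U H) (sg U H hH '' S)) h1 with hφ
  refine h.ringHom_of_comp_eq φ (sg U H hH) ?_ ?_
  · intro a b hab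
    have h2 : sg U H hH (a : ℂ) = sg U H hH (b : ℂ) := congrArg Subtype.val hab
    exact Subtype.ext ((sg U H hH).injective h2)
  · rfl

end Cs

/-- **At most `t + 1` exceptional numbers**, where `t` is the transcendence degree of the constants. -/
theorem exc_fix (r D δ E₀ m : ℕ) {n t : ℕ} (x : Fin n → ℂ) (u : Fin t → ℂ)
    (hx : ∀ i, IsAlgebraic (Algebra.adjoin ℤ (Set.range u)) (x i)) :
    ∃ E : ℕ, ∀ h N H : ℕ, (h + 2) ^ E ≤ N → N ≤ H → (∀ i, ‖x i‖ ≤ H) → ∃ G : Finset ℂ, G.card ≤ t + 1 ∧
    ∀ ζ : Fin r → ℂ, Function.Injective ζ → (∀ s, Near D h (ζ s) ∧ ζ s ∉ G) →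
      ∀ γ : ℂ, ‖γ‖ ≤ H → (∃ f : Polynomial ℤ, f ≠ 0 ∧ f.natDegree ≤ m ∧ (∀ l, |f.coeff l| ≤ H) ∧ aeval γ f = 0) →
      ∀ τ : ℂ, (τ = 0 ∨ ∃ i, τ = x i) →
      ¬ BadN δ E₀ E H (Fin.snoc x γ : Fin (n + 1) → ℂ) τ (fun s => (N : ℂ) - ζ s) := by
  classical
  by_contra hcon
  push Not at hcon
  choose h N H hhN hNH hxH hG using hcon
  set U : Ultrafilter ℕ := hyperfilter ℕ with hU
  have hUt : Tendsto id (U : Filter ℕ) atTop := by
    rw [hU, ← Nat.cofinite_eq_atTop]
    exact hyperfilter_le_cofinite
  have hgrow : ∀ E : ℕ, ∀ᶠ j in (U : Filter ℕ), (h j + 2) ^ E ≤ N j := fun E => by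
    filter_upwards [hUt.eventually_ge_atTop E] with j hj
    exact (Nat.pow_le_pow_right (by omega) hj).trans (hhN j)
  have hHt : Tendsto H U atTop := by
    have h1 : ∀ j, j ≤ H j := fun j => by
      have h2 : j < 2 ^ j := Nat.lt_two_pow_self
      have h3 : 2 ^ j ≤ (h j + 2) ^ j := Nat.pow_le_pow_left (by omega) _
      exact h2.le.trans (h3.trans ((hhN j).trans (hNH j)))
    exact tendsto_atTop_mono h1 hUt
  set N₀ : ℕ → ℕ := fun j => N j - 2 * (h j + 1) with hN₀
  have hN₀e : ∀ᶠ j in (U : Filter ℕ), N₀ j + 2 * (h j + 1) = N j := by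
    filter_upwards [hgrow 2] with j hj
    have h1 : 2 * (h j + 1) ≤ (h j + 2) ^ 2 := by nlinarith
    have h2 : N₀ j = N j - 2 * (h j + 1) := rfl
    omega
  have hgrow₀ : ∀ E : ℕ, ∀ᶠ j in (U : Filter ℕ), (h j + 2) ^ E ≤ N₀ j := fun E => by
    filter_upwards [hgrow (E + 3), hN₀e] with j h1 h3
    have h7 : 1 ≤ (h j + 2) ^ E := Nat.one_le_pow _ _ (by omega)
    have h8 : 1 + 2 * (h j + 1) ≤ (h j + 2) ^ 3 := by
      have : (h j + 2) ^ 3 = (h j + 2) * (h j + 2) ^ 2 := by ring
      nlinarith
    have h10 : (h j + 2) ^ E * (1 + 2 * (h j + 1)) ≤ (h j + 2) ^ E * (h j + 2) ^ 3 :=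
      Nat.mul_le_mul_left _ h8
    have h11 : 2 * (h j + 1) ≤ (h j + 2) ^ E * (2 * (h j + 1)) := Nat.le_mul_of_pos_left _ (by omega)
    have h6 : (h j + 2) ^ (E + 3) = (h j + 2) ^ E * (h j + 2) ^ 3 := pow_add _ _ _
    nlinarith
  have h6N : ∀ᶠ j in (U : Filter ℕ), 6 * (h j + 1) ≤ N₀ j := by
    filter_upwards [hgrow₀ 3] with j hj
    refine le_trans ?_ hj
    have : (h j + 2) ^ 3 = (h j + 2) * (h j + 2) ^ 2 := by ring
    nlinarith
  have hgN : ∀ j, (N j : ℝ) + 2 ≤ gr H j := fun j => by
    have h1 : (N j : ℝ) ≤ H j := by exact_mod_cast hNH j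
    unfold gr
    linarith
  set S : Set (Fl U H) := sg U H hHt '' Set.range u with hS
  have hSx : ∀ i, sg U H hHt (x i) ∈ acl (Zs U H) S := fun i => sg_acl U H hHt (hx i)
  -- the classes of the values
  set Y : (ℕ → ℂ) → Fl U H := fun g => tzc U H (fun j => Complex.log ((N j : ℂ) - g j)) with hY
  have hYc : ∀ g g' : ℕ → ℂ, (∀ᶠ j in (U : Filter ℕ), g j = g' j) → Y g = Y g' := by
    intro g g' hg
    apply tzc_congr
    filter_upwards [hg] with j hj
    rw [hj]
  -- the size of the values
  have hval : ∀ g : ℕ → ℂ, (∀ j, Near D (h j) (g j)) →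
      ∀ᶠ j in (U : Filter ℕ), ‖Complex.log ((N j : ℂ) - g j)‖ ≤ gr H j := by
    intro g hg
    filter_upwards [h6N, hN₀e] with j h1 h2
    obtain ⟨h3, h4, h5, h6⟩ := log_near h1 (hg j).norm_lt
    rw [h2] at h3
    rw [h3]
    refine (norm_add_le _ _).trans ?_
    rw [Complex.norm_real, Real.norm_eq_abs, abs_of_nonneg h6]
    have h7 := hgN j
    have h8 : (N₀ j : ℝ) ≤ N j := by exact_mod_cast Nat.sub_le _ _
    linarith
  -- one step
  have hstep : ∀ G : ℕ → Finset ℂ, (∀ j, (G j).card ≤ t + 1) → ∃ (F : ℕ → Fin r → ℂ) (x : Fin r),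
      (∀ j, Function.Injective (F j) ∧ ∀ s, Near D (h j) (F j s) ∧ F j s ∉ G j) ∧
      Y (fun j => F j x) ∈ acl (Zs U H) (S ∪ (fun x' => Y (fun j => F j x')) '' {x' | x' < x}) := by
    intro G hGc
    choose F hFi hFg γ hγ hf τ hτ hFb using fun j => hG j (G j) (hGc j)
    choose f hf0 hfd hfc hfr using hf
    set w : ℕ → Fin (n + 1) → ℂ := fun j => (Fin.snoc x (γ j) : Fin (n + 1) → ℂ) with hw
    have hwl : ∀ j, w j (Fin.last n) = γ j := fun j => by rw [hw]; simp only [Fin.snoc_last]
    have hwc : ∀ j i, w j (Fin.castSucc i) = x i := fun j i => by rw [hw]; simp only [Fin.snoc_castSucc]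
    have hwb : ∀ j i, ‖w j i‖ ≤ H j := by
      intro j i
      refine Fin.lastCases ?_ (fun i => ?_) i
      · rw [hwl]
        exact hγ j
      · rw [hwc]
        exact hxH j i
    have hτ' : (∀ᶠ j in (U : Filter ℕ), τ j = 0) ∨ ∃ i, ∀ᶠ j in (U : Filter ℕ), τ j = w j i := by
      have h1 : ∀ᶠ j in (U : Filter ℕ), τ j = 0 ∨ ∃ i, τ j = w j i := Eventually.of_forall fun j => by
        rcases hτ j with h2 | ⟨i, h2⟩
        · exact Or.inl h2
        · exact Or.inr ⟨Fin.castSucc i, by rw [hwc]; exact h2⟩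
      rcases (Ultrafilter.eventually_or).1 h1 with h2 | h2
      · exact Or.inl h2
      · right
        exact Ultrafilter.eventually_exists_iff.1 h2
    by_contra hno
    push Not at hno
    refine no_badN U H w hwb τ hτ' (fun j s => (N j : ℂ) - F j s) id hUt
      (fun x => hval _ fun j => (hFg j x).1) (Eventually.of_forall hFb) fun y hy => ?_
    refine hno F y (fun j => ⟨hFi j, hFg j⟩) (acl_of ?_ hy)
    rintro z (⟨i, rfl⟩ | hz)
    · refine acl_mono Set.subset_union_left ?_
      have h1 : ∀ (i : Fin (n + 1)) (g : ℕ → ℂ), (∀ j, w j i = g j) →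
          (Ideal.Quotient.mk (ms U H) (cst U H w hwb i) : Fl U H) = tzc U H g := by
        intro i g hg
        apply mk_congr
        refine Eventually.of_forall fun j => ?_
        rw [evo_tz U H]
        · rw [← hg j]
          rfl
        · rw [← hg j]
          have h2 := hwb j i
          unfold gr
          linarith
      refine Fin.lastCases ?_ (fun i => ?_) i
      · beta_reduce
        rw [h1 _ γ (fun j => hwl j)]
        refine alg_of_root U H (n := m) (c := 1) f γ (Eventually.of_forall hfd) (Eventually.of_forall fun j l => ?_)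
          (Eventually.of_forall hf0) (Eventually.of_forall fun j => ?_) (Eventually.of_forall hfr) _
        · have h2 : |(((f j).coeff l : ℤ) : ℝ)| ≤ H j := by exact_mod_cast hfc j l
          rw [pow_one]
          unfold gr
          linarith
        · have h2 := hγ j
          unfold gr
          linarith
      · beta_reduce
        rw [h1 _ (fun _ => x i) (fun j => hwc j i), ← sg_eq U H hHt]
        exact hSx i
    · exact subset_acl (Or.inr hz)
  -- `m` steps
  have hsteps : ∀ m : ℕ, m ≤ t + 2 → ∃ (F : Fin m → ℕ → Fin r → ℂ) (x : Fin m → Fin r),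
      (∀ i j, Function.Injective (F i j) ∧ ∀ s, Near D (h j) (F i j s)) ∧
      (∀ i i', i' < i → ∀ j s, F i j s ≠ F i' j (x i')) ∧
      ∀ i, Y (fun j => F i j (x i)) ∈
        acl (Zs U H) (S ∪ (fun x' => Y (fun j => F i j x')) '' {x' | x' < x i}) := by
    intro m
    induction m with
    | zero =>
      intro _
      exact ⟨fun i => i.elim0, fun i => i.elim0, fun i => i.elim0, fun i => i.elim0, fun i => i.elim0⟩
    | succ m ih =>
      intro hm
      obtain ⟨F, x, h1, h2, h3⟩ := ih (by omega)
      obtain ⟨F', x', h4, h5⟩ := hstep (fun j => univ.image fun i : Fin m => F i j (x i)) (fun j => by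
        refine Finset.card_image_le.trans ?_
        rw [Finset.card_univ, Fintype.card_fin]
        omega)
      refine ⟨Fin.snoc F F', Fin.snoc x x', ?_, ?_, ?_⟩
      · intro i
        refine Fin.lastCases ?_ (fun i => ?_) i
        · intro j
          rw [Fin.snoc_last]
          exact ⟨(h4 j).1, fun s => ((h4 j).2 s).1⟩
        · intro j
          rw [Fin.snoc_castSucc]
          exact h1 i j
      · intro i i'
        refine Fin.lastCases ?_ (fun i => ?_) i
        · refine Fin.lastCases ?_ (fun i' => ?_) i'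
          · intro hlt
            exact absurd hlt (lt_irrefl _)
          · intro _ j s
            rw [Fin.snoc_last, Fin.snoc_castSucc, Fin.snoc_castSucc]
            intro heq
            exact ((h4 j).2 s).2 (Finset.mem_image.2 ⟨i', mem_univ _, heq.symm⟩)
        · refine Fin.lastCases ?_ (fun i' => ?_) i'
          · intro hlt
            exact absurd hlt (not_lt.2 (Fin.le_last _))
          · intro hlt j s
            rw [Fin.snoc_castSucc, Fin.snoc_castSucc, Fin.snoc_castSucc]
            exact h2 i i' (Fin.castSucc_lt_castSucc_iff.1 hlt) j s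
      · intro i
        refine Fin.lastCases ?_ (fun i => ?_) i
        · simp only [Fin.snoc_last]
          exact h5
        · simp only [Fin.snoc_castSucc]
          exact h3 i
  obtain ⟨F, x, hF, hFF, hFx⟩ := hsteps (t + 2) le_rfl
  -- the germs
  set γ : Fin (t + 2) × Fin r → Germ (U : Filter ℕ) ℂ := fun p => ((fun j => F p.1 j p.2 : ℕ → ℂ) :
    Germ (U : Filter ℕ) ℂ) with hγ
  set Γ : Finset (Germ (U : Filter ℕ) ℂ) := univ.image γ with hΓ
  set v : ℕ := Γ.card with hv
  set en : Fin v ≃ Γ := Γ.equivFin.symm with hen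
  have hrep : ∀ t : Fin v, ∃ p, γ p = (en t : Germ (U : Filter ℕ) ℂ) := by
    intro t
    obtain ⟨p, -, hp⟩ := Finset.mem_image.1 (en t).2
    exact ⟨p, hp⟩
  choose rep hrep using hrep
  set g : ℕ → Fin v → ℂ := fun j t => F (rep t).1 j (rep t).2 with hg
  have hgood : ∀ j t, Near D (h j) (g j t) := fun j t => (hF _ j).2 _
  have hginj : ∀ᶠ j in (U : Filter ℕ), Function.Injective (g j) := by
    have h1 : ∀ t t', t ≠ t' → ∀ᶠ j in (U : Filter ℕ), g j t ≠ g j t' := by
      intro t t' htt
      have h2 : ¬ ∀ᶠ j in (U : Filter ℕ), g j t = g j t' := by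
        intro h3
        apply htt
        apply en.injective
        apply Subtype.ext
        rw [← hrep t, ← hrep t', hγ]
        exact Germ.coe_eq.2 h3
      exact Ultrafilter.eventually_not.2 h2
    have h2 : ∀ᶠ j in (U : Filter ℕ), ∀ t t', t ≠ t' → g j t ≠ g j t' :=
      Filter.eventually_all.2 fun t => Filter.eventually_all.2 fun t' => by
        by_cases htt : t = t'
        · exact Eventually.of_forall fun j h => absurd htt h
        · exact (h1 t t' htt).mono fun j hj _ => hj
    filter_upwards [h2] with j hj t t' htt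
    by_contra h
    exact hj t t' h htt
  obtain ⟨-, hind⟩ := num_cls U H (u := v) (D := D) N h g (Eventually.of_forall hNH)
    (Eventually.of_forall hgood) hginj hgrow
  set ε : Set (Germ (U : Filter ℕ) ℂ) := Set.range fun i => γ (i, x i) with hε
  set Z : Set (Fl U H) := S ∪ (fun t : Fin v => Y (fun j => g j t)) ''
    {t | (en t : Germ (U : Filter ℕ) ℂ) ∉ ε} with hZ
  have hSZ : S ⊆ Z := fun y hy => Or.inl hy
  have hYZ : ∀ p, γ p ∉ ε → Y (fun j => F p.1 j p.2) ∈ Z := by
    intro p hp
    obtain ⟨t, ht⟩ := en.surjective ⟨γ p, Finset.mem_image_of_mem _ (mem_univ p)⟩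
    have ht' : (en t : Germ (U : Filter ℕ) ℂ) = γ p := by rw [ht]
    refine Or.inr ⟨t, ?_, ?_⟩
    · rw [Set.mem_setOf_eq, ht']
      exact hp
    · apply hYc
      have h1 := (hrep t).trans ht'
      exact Germ.coe_eq.1 h1
  have hεZ : ∀ i : Fin (t + 2), Y (fun j => F i j (x i)) ∈ acl (Zs U H) Z := by
    intro i
    induction i using WellFoundedGT.induction with
    | ind i ih =>
      refine acl_of ?_ (hFx i)
      rintro _ (hy | ⟨x', hx', rfl⟩)
      · exact subset_acl (hSZ hy)
      · by_cases hp : γ (i, x') ∈ ε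
        · obtain ⟨i'', hi''⟩ := hp
          have h1 : ∀ᶠ j in (U : Filter ℕ), F i'' j (x i'') = F i j x' := Germ.coe_eq.1 hi''
          have h2 : i < i'' := by
            obtain ⟨j, hj⟩ := h1.exists
            rcases lt_trichotomy i i'' with h3 | h3 | h3
            · exact h3
            · exfalso
              subst h3
              have h4 := (hF i j).1 hj
              exact absurd h4.symm (ne_of_lt hx')
            · exact absurd hj.symm (hFF i i'' h3 j x')
          have h3 := ih i'' h2
          have h4 : Y (fun j => F i j x') = Y (fun j => F i'' j (x i'')) := (hYc _ _ h1).symm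
          simp only
          rw [h4]
          exact h3
        · exact subset_acl (hYZ (i, x') hp)
  have hallZ : ∀ t : Fin v, Y (fun j => g j t) ∈ acl (Zs U H) Z := by
    intro t
    by_cases ht : (en t : Germ (U : Filter ℕ) ℂ) ∈ ε
    · obtain ⟨i, hi⟩ := ht
      have h1 : γ (i, x i) = γ (rep t) := by rw [hrep t]; exact hi
      have h2 : Y (fun j => F i j (x i)) = Y (fun j => g j t) := hYc _ _ (Germ.coe_eq.1 h1)
      rw [← h2]
      exact hεZ i
    · exact subset_acl (Or.inr ⟨t, ht, rfl⟩)
  -- the size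
  have hεinj : Function.Injective fun i => γ (i, x i) := by
    intro i i' hii
    obtain ⟨j, hj⟩ := (Germ.coe_eq.1 hii : ∀ᶠ j in (U : Filter ℕ), F i j (x i) = F i' j (x i')).exists
    rcases lt_trichotomy i i' with h1 | h1 | h1
    · exact absurd hj.symm (hFF i' i h1 j _)
    · exact h1
    · exact absurd hj (hFF i i' h1 j _)
  have hcard : ((univ : Finset (Fin v)).filter fun t => (en t : Germ (U : Filter ℕ) ℂ) ∉ ε).card + (t + 2) = v := by
    have h1 := Finset.card_filter_add_card_filter_not (s := (univ : Finset (Fin v)))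
      (fun t => (en t : Germ (U : Filter ℕ) ℂ) ∉ ε)
    have h2 : ((univ : Finset (Fin v)).filter fun t => ¬ (en t : Germ (U : Filter ℕ) ℂ) ∉ ε).card = t + 2 := by
      have h3 : ((univ : Finset (Fin v)).filter fun t => ¬ (en t : Germ (U : Filter ℕ) ℂ) ∉ ε) =
          (univ : Finset (Fin (t + 2))).image fun i => en.symm ⟨γ (i, x i), Finset.mem_image_of_mem _ (mem_univ _)⟩ := by
        ext t
        simp only [mem_filter, mem_univ, true_and, not_not, mem_image, hε, Set.mem_range]
        constructor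
        · rintro ⟨i, hi⟩
          refine ⟨i, ?_⟩
          rw [Equiv.symm_apply_eq]
          exact Subtype.ext hi
        · rintro ⟨i, rfl⟩
          exact ⟨i, by rw [Equiv.apply_symm_apply]⟩
      rw [h3, Finset.card_image_of_injective, Finset.card_univ, Fintype.card_fin]
      intro i i' hii
      exact hεinj (congrArg Subtype.val (en.symm.injective hii))
    rw [h2, Finset.card_univ, Fintype.card_fin] at h1
    exact h1
  have hZc : Z.encard + 1 < (v : ℕ∞) := by
    have h1 : Z.encard ≤ ((t + ((univ : Finset (Fin v)).filter fun t =>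
        (en t : Germ (U : Filter ℕ) ℂ) ∉ ε).card : ℕ) : ℕ∞) := by
      push_cast
      refine (Set.encard_union_le _ _).trans (add_le_add ?_ ?_)
      · refine (Set.encard_image_le _ _).trans ?_
        rw [← Set.image_univ]
        refine (Set.encard_image_le _ _).trans ?_
        rw [Set.encard_univ]
        simp
      · refine (Set.encard_image_le _ _).trans ?_
        rw [← Set.encard_coe_eq_coe_finsetCard]
        refine Set.encard_le_encard ?_
        intro t ht
        simpa using ht
    refine (add_le_add h1 le_rfl).trans_lt ?_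
    have h2 : t + ((univ : Finset (Fin v)).filter fun t =>
        (en t : Germ (U : Filter ℕ) ℂ) ∉ ε).card + 1 < v := by omega
    exact_mod_cast h2
  obtain ⟨y, hy⟩ := hind Z hZc
  exact hy (hallZ y)

end Pool.Agent.K3h1.LA
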