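import Mathlib
import Pool.Agent.K3h1.LA.Fx
import Pool.Agent.K3h1.LA.Of

/-!
# Exact relations over the periods of a motive and number fields
-/

set_option autoImplicit false

namespace Pool.Agent.K3h1.LA

open Finset Pool.Agent.R351.GF
open Polynomial (aeval)

/-- relations of degree at most `d` over `K V`, where `K` is a number field of degree at most `m` -/
def Rel {r : ℕ} (d m : ℕ) (V : Submodule ℚ ℂ) (l : Fin r → ℂ) : Prop :=
  ∃ K : IntermediateField ℚ ℂ, FiniteDimensional ℚ K ∧ Module.finrank ℚ K ≤ m ∧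
    ∃ P : MvPolynomial (Fin r) ℂ, P ≠ 0 ∧ P.totalDegree ≤ d ∧ (∀ s, P.coeff s ∈ Submodule.span K (V : Set ℂ)) ∧
      MvPolynomial.aeval l P = 0

theorem exists_gen {m : ℕ} (K : IntermediateField ℚ ℂ) (hK : FiniteDimensional ℚ K) (hm : Module.finrank ℚ K ≤ m) :
    ∃ γ : ℂ, (∃ f : Polynomial ℤ, f ≠ 0 ∧ f.natDegree ≤ m ∧ aeval γ f = 0) ∧
      ∀ κ : K, ∃ a : Fin m → ℚ, (κ : ℂ) = ∑ i : Fin m, (a i : ℂ) * γ ^ (i : ℕ) := by
  set pb := Field.powerBasisOfFiniteOfSeparable ℚ K with hpb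
  have hdim : pb.dim ≤ m := by rw [← pb.finrank]; exact hm
  refine ⟨(pb.gen : ℂ), ?_, fun κ => ?_⟩
  · have h1 : aeval (pb.gen : ℂ) (minpoly ℚ pb.gen) = 0 := by
      have h2 := minpoly.aeval ℚ pb.gen
      have h3 : aeval (algebraMap K ℂ pb.gen) (minpoly ℚ pb.gen) = 0 := by
        rw [Polynomial.aeval_algebraMap_apply, h2, map_zero]
      exact h3
    have h0 : minpoly ℚ pb.gen ≠ 0 := minpoly.ne_zero (Algebra.IsIntegral.isIntegral pb.gen)
    refine ⟨IsLocalization.integerNormalization (nonZeroDivisors ℤ) (minpoly ℚ pb.gen), ?_, ?_, ?_⟩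
    · rw [Ne, IsFractionRing.integerNormalization_eq_zero_iff]
      exact h0
    · have h4 : (minpoly ℚ pb.gen).natDegree ≤ m := by
        rw [pb.natDegree_minpoly]
        exact hdim
      rw [Polynomial.natDegree_le_iff_coeff_eq_zero]
      intro N hN
      obtain ⟨b, hb⟩ := IsLocalization.integerNormalization_spec (nonZeroDivisors ℤ) (minpoly ℚ pb.gen)
      have h5 := congrArg (fun p => Polynomial.coeff p N) hb.2
      simp only [Polynomial.coeff_map, Polynomial.coeff_smul] at h5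
      rw [Polynomial.coeff_eq_zero_of_natDegree_lt (lt_of_le_of_lt h4 hN), smul_zero] at h5
      exact (map_eq_zero_iff _ (IsFractionRing.injective ℤ ℚ)).1 h5
    · exact IsLocalization.integerNormalization_aeval_eq_zero _ _ h1
  · obtain ⟨p, hp, hκ⟩ := pb.exists_eq_aeval κ
    refine ⟨fun i => p.coeff i, ?_⟩
    have h1 : (κ : ℂ) = aeval (pb.gen : ℂ) p := by
      have h2 : (κ : ℂ) = algebraMap K ℂ (aeval pb.gen p) := congrArg (algebraMap K ℂ) hκ
      rw [h2, ← Polynomial.aeval_algebraMap_apply]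
      rfl
    rw [h1, Polynomial.aeval_eq_sum_range' (lt_of_lt_of_le hp hdim), Finset.sum_range]
    refine Finset.sum_congr rfl fun i _ => ?_
    rw [Algebra.smul_def]
    rfl

theorem coef_form {m n : ℕ} {K : IntermediateField ℚ ℂ} {V : Submodule ℚ ℂ} {v : Fin n → ℂ}
    (hv : Submodule.span ℚ (Set.range v) = V) {γ : ℂ}
    (hγ : ∀ κ : K, ∃ a : Fin m → ℚ, (κ : ℂ) = ∑ i : Fin m, (a i : ℂ) * γ ^ (i : ℕ)) {c : ℂ}
    (hc : c ∈ Submodule.span K (V : Set ℂ)) :
    ∃ a : Fin n → Fin m → ℚ, c = ∑ k : Fin n, ∑ i : Fin m, (a k i : ℂ) * (γ ^ (i : ℕ) * v k) := by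
  have h1 : Submodule.span K (V : Set ℂ) ≤ Submodule.span K (Set.range v) := by
    rw [Submodule.span_le, ← hv]
    exact Submodule.span_subset_span ℚ K (Set.range v)
  obtain ⟨κ, hκ⟩ := (Submodule.mem_span_range_iff_exists_fun K).1 (h1 hc)
  choose a ha using fun k => hγ (κ k)
  refine ⟨a, ?_⟩
  rw [← hκ]
  refine Finset.sum_congr rfl fun k _ => ?_
  have h2 : κ k • v k = (κ k : ℂ) * v k := rfl
  rw [h2, ha k, Finset.sum_mul]
  refine Finset.sum_congr rfl fun i _ => ?_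
  ring

/-- the coefficients as integer polynomials in the constants -/
noncomputable def cf {n m : ℕ} (z : Fin n → Fin m → ℤ) : MvPolynomial (Fin (n + 1 + 1)) ℤ :=
  ∑ k : Fin n, ∑ i : Fin m, MvPolynomial.C (z k i) *
    (MvPolynomial.X (Fin.last (n + 1)) ^ (i : ℕ) * MvPolynomial.X (Fin.castSucc (Fin.castSucc k)))

theorem cf_deg {n m : ℕ} (z : Fin n → Fin m → ℤ) : (cf z).totalDegree ≤ m + 1 := by
  unfold cf
  refine (MvPolynomial.totalDegree_finsetSum_le fun k _ => ?_)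
  refine (MvPolynomial.totalDegree_finsetSum_le fun i _ => ?_)
  refine (MvPolynomial.totalDegree_mul _ _).trans ?_
  rw [MvPolynomial.totalDegree_C, zero_add]
  refine (MvPolynomial.totalDegree_mul _ _).trans ?_
  rw [MvPolynomial.totalDegree_X_pow, MvPolynomial.totalDegree_X]
  omega

theorem cf_aeval {n m : ℕ} (z : Fin n → Fin m → ℤ) (v : Fin n → ℂ) (τ γ : ℂ) :
    MvPolynomial.aeval (Fin.snoc (Fin.snoc v τ : Fin (n + 1) → ℂ) γ : Fin (n + 1 + 1) → ℂ) (cf z) =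
      ∑ k : Fin n, ∑ i : Fin m, (z k i : ℂ) * (γ ^ (i : ℕ) * v k) := by
  unfold cf
  rw [map_sum]
  refine Finset.sum_congr rfl fun k _ => ?_
  rw [map_sum]
  refine Finset.sum_congr rfl fun i _ => ?_
  rw [map_mul, map_mul, map_pow, MvPolynomial.aeval_X, MvPolynomial.aeval_X, MvPolynomial.aeval_C,
    Fin.snoc_last, Fin.snoc_castSucc, Fin.snoc_castSucc]
  simp

/-- a relation, with integer coefficients -/
theorem rel_int {r d m n : ℕ} {V : Submodule ℚ ℂ} {v : Fin n → ℂ} (hv : Submodule.span ℚ (Set.range v) = V)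
    (τ : ℂ) {l : Fin r → ℂ} (h : Rel d m V l) :
    ∃ γ : ℂ, (∃ f : Polynomial ℤ, f ≠ 0 ∧ f.natDegree ≤ m ∧ aeval γ f = 0) ∧
      ∃ P : MvPolynomial (Fin r) (MvPolynomial (Fin (n + 1 + 1)) ℤ), P.totalDegree ≤ d + m + 1 ∧
        (∀ s, (P.coeff s).totalDegree ≤ d + m + 1) ∧
        (∃ s, MvPolynomial.aeval (Fin.snoc (Fin.snoc v τ : Fin (n + 1) → ℂ) γ : Fin (n + 1 + 1) → ℂ)
          (P.coeff s) ≠ 0) ∧
        MvPolynomial.eval₂ (MvPolynomial.aeval (Fin.snoc (Fin.snoc v τ : Fin (n + 1) → ℂ) γ :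
          Fin (n + 1 + 1) → ℂ) : MvPolynomial (Fin (n + 1 + 1)) ℤ →ₐ[ℤ] ℂ).toRingHom l P = 0 := by
  classical
  obtain ⟨K, hK, hm, P, hP0, hPd, hPc, hPv⟩ := h
  obtain ⟨γ, hγ, hκ⟩ := exists_gen K hK hm
  refine ⟨γ, hγ, ?_⟩
  choose a ha using fun s => coef_form hv hκ (hPc s)
  obtain ⟨A, hA⟩ := IsLocalization.exist_integer_multiples (nonZeroDivisors ℤ)
    (P.support ×ˢ (univ : Finset (Fin n × Fin m))) (fun x => a x.1 x.2.1 x.2.2)
  have hA0 : ((A : ℤ) : ℂ) ≠ 0 := by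
    have := nonZeroDivisors.ne_zero A.2
    exact_mod_cast this
  have hz : ∀ s k i, ∃ z : ℤ, s ∈ P.support → (z : ℚ) = ((A : ℤ) : ℚ) * a s k i := by
    intro s k i
    by_cases hs : s ∈ P.support
    · obtain ⟨z, hz⟩ := hA (s, (k, i)) (by
        rw [mem_product]
        exact ⟨hs, mem_univ _⟩)
      refine ⟨z, fun _ => ?_⟩
      have h1 : algebraMap ℤ ℚ z = (A : nonZeroDivisors ℤ) • a s k i := hz
      rw [Submonoid.smul_def, zsmul_eq_mul] at h1
      exact h1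
    · exact ⟨0, fun h => absurd h hs⟩
  choose z hz using hz
  set w : Fin (n + 1 + 1) → ℂ := (Fin.snoc (Fin.snoc v τ : Fin (n + 1) → ℂ) γ : Fin (n + 1 + 1) → ℂ) with hw
  set Q : MvPolynomial (Fin r) (MvPolynomial (Fin (n + 1 + 1)) ℤ) :=
    ∑ s ∈ P.support, MvPolynomial.monomial s (cf (z s)) with hQ
  have hcoef : ∀ s, Q.coeff s = if s ∈ P.support then cf (z s) else 0 := by
    intro s
    rw [hQ, MvPolynomial.coeff_sum]
    simp only [MvPolynomial.coeff_monomial]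
    rw [Finset.sum_ite_eq']
  have hcv : ∀ s ∈ P.support, MvPolynomial.aeval w (cf (z s)) = ((A : ℤ) : ℂ) * P.coeff s := by
    intro s hs
    rw [hw, cf_aeval, ha s, Finset.mul_sum]
    refine Finset.sum_congr rfl fun k _ => ?_
    rw [Finset.mul_sum]
    refine Finset.sum_congr rfl fun i _ => ?_
    have h1 := hz s k i hs
    have h2 : ((z s k i : ℚ) : ℂ) = ((((A : ℤ) : ℚ) * a s k i : ℚ) : ℂ) := by rw [h1]
    push_cast at h2
    rw [h2]
    ring
  refine ⟨Q, ?_, fun s => ?_, ?_, ?_⟩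
  · rw [hQ]
    refine MvPolynomial.totalDegree_finsetSum_le fun s hs => ?_
    refine (MvPolynomial.totalDegree_monomial_le s _).trans ?_
    refine (MvPolynomial.le_totalDegree hs).trans ?_
    omega
  · rw [hcoef]
    split_ifs
    · refine (cf_deg _).trans ?_
      omega
    · rw [MvPolynomial.totalDegree_zero]
      omega
  · obtain ⟨s, hs⟩ : ∃ s, P.coeff s ≠ 0 := by
      by_contra hcon
      push Not at hcon
      exact hP0 (MvPolynomial.ext _ _ fun s => by rw [hcon s, MvPolynomial.coeff_zero])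
    have hs' : s ∈ P.support := MvPolynomial.mem_support_iff.2 hs
    refine ⟨s, ?_⟩
    rw [hcoef, if_pos hs', hcv s hs']
    exact mul_ne_zero hA0 hs
  · rw [hQ, MvPolynomial.eval₂_sum]
    have h1 : ∀ s ∈ P.support, MvPolynomial.eval₂ (MvPolynomial.aeval w : MvPolynomial (Fin (n + 1 + 1)) ℤ →ₐ[ℤ]
        ℂ).toRingHom l (MvPolynomial.monomial s (cf (z s))) =
        ((A : ℤ) : ℂ) * (P.coeff s * s.prod fun i e => l i ^ e) := by
      intro s hs
      rw [MvPolynomial.eval₂_monomial]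
      have h2 : (MvPolynomial.aeval w : MvPolynomial (Fin (n + 1 + 1)) ℤ →ₐ[ℤ] ℂ).toRingHom (cf (z s)) =
          ((A : ℤ) : ℂ) * P.coeff s := hcv s hs
      rw [h2, mul_assoc]
    rw [Finset.sum_congr rfl h1, ← Finset.mul_sum]
    have h3 : ∑ s ∈ P.support, P.coeff s * (s.prod fun i e => l i ^ e) = MvPolynomial.aeval l P := by
      rw [MvPolynomial.aeval_def, MvPolynomial.eval₂_eq']
      refine Finset.sum_congr rfl fun s _ => ?_
      rw [Finsupp.prod_fintype _ _ (fun _ => pow_zero _)]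
      rfl
    rw [h3, hPv, mul_zero]

theorem exists_bd {r n : ℕ} (P : MvPolynomial (Fin r) (MvPolynomial (Fin n) ℤ)) :
    ∃ B : ℕ, ∀ s t, |(P.coeff s).coeff t| ≤ B := by
  classical
  refine ⟨∑ s ∈ P.support, ∑ t ∈ (P.coeff s).support, ((P.coeff s).coeff t).natAbs, fun s t => ?_⟩
  by_cases hs : s ∈ P.support
  · by_cases ht : t ∈ (P.coeff s).support
    · have h1 : ((P.coeff s).coeff t).natAbs ≤ ∑ t ∈ (P.coeff s).support, ((P.coeff s).coeff t).natAbs :=
        single_le_sum (f := fun t => ((P.coeff s).coeff t).natAbs) (fun _ _ => Nat.zero_le _) ht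
      have h2 : ∑ t ∈ (P.coeff s).support, ((P.coeff s).coeff t).natAbs ≤
          ∑ s ∈ P.support, ∑ t ∈ (P.coeff s).support, ((P.coeff s).coeff t).natAbs :=
        single_le_sum (f := fun s => ∑ t ∈ (P.coeff s).support, ((P.coeff s).coeff t).natAbs)
          (fun _ _ => Nat.zero_le _) hs
      rw [Int.abs_eq_natAbs]
      exact_mod_cast h1.trans h2
    · rw [MvPolynomial.notMem_support_iff.1 ht, abs_zero]
      exact Int.natCast_nonneg _
  · rw [MvPolynomial.notMem_support_iff.1 hs, MvPolynomial.coeff_zero, abs_zero]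
    exact Int.natCast_nonneg _

theorem alg_conv {S : Set ℂ} {x : ℂ} (h : IsAlgebraic (IntermediateField.adjoin ℚ S) x) :
    IsAlgebraic (Algebra.adjoin ℤ S) x := by
  have h1 : ∀ y ∈ IntermediateField.adjoin ℚ S, IsAlgebraic (Algebra.adjoin ℤ S) y := by
    intro y hy
    refine IntermediateField.adjoin_induction ℚ (p := fun y _ => IsAlgebraic (Algebra.adjoin ℤ S) y)
      ?_ ?_ ?_ ?_ ?_ hy
    · intro y hy
      exact isAlgebraic_algebraMap (⟨y, Algebra.subset_adjoin hy⟩ : Algebra.adjoin ℤ S)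
    · intro q
      have h2 : algebraMap ℚ ℂ q = (q.num : ℂ) * ((q.den : ℤ) : ℂ)⁻¹ := by
        rw [eq_ratCast, Rat.cast_def, div_eq_mul_inv]
        push_cast
        rfl
      rw [h2]
      exact (isAlgebraic_intCast _).mul (isAlgebraic_intCast _).inv
    · intro y z _ _ h1 h2
      exact h1.add h2
    · intro y _ h1
      exact h1.inv
    · intro y z _ _ h1 h2
      exact h1.mul h2
  have hle : ∀ y ∈ Algebra.adjoin ℤ S, y ∈ IntermediateField.adjoin ℚ S := by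
    intro y hy
    refine Algebra.adjoin_induction (p := fun y _ => y ∈ IntermediateField.adjoin ℚ S) ?_ ?_ ?_ ?_ hy
    · intro y hy
      exact IntermediateField.subset_adjoin ℚ S hy
    · intro n
      rw [algebraMap_int_eq, eq_intCast]
      exact intCast_mem _ n
    · intro y z _ _ h1 h2
      exact add_mem h1 h2
    · intro y z _ _ h1 h2
      exact mul_mem h1 h2
  let _ : Algebra (Algebra.adjoin ℤ S) (IntermediateField.adjoin ℚ S) :=
    (((Algebra.adjoin ℤ S).val : Algebra.adjoin ℤ S →+* ℂ).codRestrict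
      (IntermediateField.adjoin ℚ S) (fun y => hle y y.2)).toAlgebra
  have _ : IsScalarTower (Algebra.adjoin ℤ S) (IntermediateField.adjoin ℚ S) ℂ := IsScalarTower.of_algebraMap_eq' rfl
  have _ : Algebra.IsAlgebraic (Algebra.adjoin ℤ S) (IntermediateField.adjoin ℚ S) := ⟨fun y => by
    have h2 := h1 y y.2
    exact (isAlgebraic_algebraMap_iff (FaithfulSMul.algebraMap_injective (IntermediateField.adjoin ℚ S) ℂ)).1 h2⟩
  exact h.restrictScalars (Algebra.adjoin ℤ S)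

theorem gpMain (V : Submodule ℚ ℂ) [Module.Finite ℚ V] {t : ℕ} (u : Fin t → ℂ)
    (hV : ∀ x ∈ V, IsAlgebraic (IntermediateField.adjoin ℚ (Set.range u)) x) (r D d m : ℕ) :
    ∃ E : ℕ, ∀ h N : ℕ, (h + 2) ^ E ≤ N → ∃ G : Finset ℂ, G.card ≤ t + 1 ∧
      ∀ ζ : Fin r → ℂ, Function.Injective ζ → (∀ s, Near D h (ζ s) ∧ ζ s ∉ G) →
      ∀ l : Fin r → ℂ, (∀ s, Complex.exp (l s) = N - ζ s) →
      (IsAlgebraic (IntermediateField.adjoin ℚ (Set.range u)) (2 * Real.pi * Complex.I : ℂ) ∨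
        ∀ s, l s = Complex.log (N - ζ s)) → ¬ Rel d m V l := by
  classical
  set b := Module.finBasis ℚ V with hb
  set n := Module.finrank ℚ V with hn
  set v : Fin n → ℂ := fun k => (b k : ℂ) with hv
  have hspan : Submodule.span ℚ (Set.range v) = V := by
    have h1 : Set.range v = V.subtype '' Set.range b := by
      rw [← Set.range_comp]
      rfl
    rw [h1, Submodule.span_image, b.span_eq, Submodule.map_top, Submodule.range_subtype]
  set τ : ℂ := if IsAlgebraic (IntermediateField.adjoin ℚ (Set.range u)) (2 * Real.pi * Complex.I : ℂ) then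
    2 * Real.pi * Complex.I else 0 with hτ
  have hτa : IsAlgebraic (IntermediateField.adjoin ℚ (Set.range u)) τ := by
    rw [hτ]
    split_ifs with h
    · exact h
    · exact isAlgebraic_zero
  set x : Fin (n + 1) → ℂ := (Fin.snoc v τ : Fin (n + 1) → ℂ) with hx
  obtain ⟨E, hE⟩ := exc_fix r D (d + m + 1) 1 m x u (fun i => by
    apply alg_conv
    refine Fin.lastCases ?_ (fun i => ?_) i
    · rw [hx, Fin.snoc_last]
      exact hτa
    · rw [hx, Fin.snoc_castSucc]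
      exact hV _ (b i).2)
  refine ⟨E, fun h N hN => ?_⟩
  obtain ⟨𝓖, h𝓖⟩ := exists_allN D h
  obtain ⟨G, hG, hGf⟩ := exists_arb (a := t + 1) (Q := fun H G => ∀ ζ : Fin r → ℂ, Function.Injective ζ →
      (∀ s, Near D h (ζ s) ∧ ζ s ∉ G) →
      ∀ γ : ℂ, ‖γ‖ ≤ (⌊H⌋₊ : ℕ) → (∃ f : Polynomial ℤ, f ≠ 0 ∧ f.natDegree ≤ m ∧ (∀ l, |f.coeff l| ≤ (⌊H⌋₊ : ℕ)) ∧
        aeval γ f = 0) →
      ∀ τ : ℂ, (τ = 0 ∨ ∃ i, τ = x i) →
      ¬ BadN (d + m + 1) 1 E ⌊H⌋₊ (Fin.snoc x γ : Fin (n + 1 + 1) → ℂ) τ (fun s => (N : ℂ) - ζ s))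
    (H₁ := N + ∑ i, ‖x i‖ + 1) 𝓖 (fun H G hQ ζ hζ hζG => hQ ζ hζ fun s =>
      ⟨(hζG s).1, fun hs => (hζG s).2 (mem_filter.2 ⟨hs, h𝓖 _ (hζG s).1⟩)⟩)
    (fun H hH => by
      have h0 : 0 ≤ ∑ i, ‖x i‖ := Finset.sum_nonneg fun i _ => norm_nonneg _
      have hN0 : (0 : ℝ) ≤ N := Nat.cast_nonneg _
      have h1 : H - 1 < (⌊H⌋₊ : ℝ) := Nat.sub_one_lt_floor H
      refine hE h N ⌊H⌋₊ hN ?_ fun i => ?_
      · have h2 : (N : ℝ) ≤ (⌊H⌋₊ : ℝ) := by linarith
        exact_mod_cast h2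
      · have := Finset.single_le_sum (f := fun i => ‖x i‖) (fun i _ => norm_nonneg _) (mem_univ i)
        linarith)
    (Set.range fun k : ℕ => (k : ℝ)) (by
      rw [not_bddAbove_iff]
      intro B
      obtain ⟨k, hk⟩ := exists_nat_gt B
      exact ⟨k, ⟨k, rfl⟩, hk⟩)
  refine ⟨G, hG, fun ζ hζ hζG l hl hor hrel => ?_⟩
  -- the branches
  have hb : ∀ s, ∃ c : ℤ, l s = Complex.log (N - ζ s) + c * τ := by
    intro s
    rcases hor with h1 | h1
    · have h2 : (N : ℂ) - ζ s ≠ 0 := by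
        rw [← hl s]
        exact Complex.exp_ne_zero _
      have h3 : Complex.exp (l s) = Complex.exp (Complex.log (N - ζ s)) := by rw [hl s, Complex.exp_log h2]
      obtain ⟨c, hc⟩ := Complex.exp_eq_exp_iff_exists_int.1 h3
      refine ⟨c, ?_⟩
      rw [hτ, if_pos h1]
      exact hc
    · exact ⟨0, by rw [h1 s]; simp⟩
  choose c hc using hb
  obtain ⟨γ, ⟨f, hf0, hfd, hfr⟩, P, hPd, hPc, ⟨s₀, hs₀⟩, hPv⟩ := rel_int hspan τ hrel
  obtain ⟨B, hB⟩ := exists_bd P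
  set w : Fin (n + 1 + 1) → ℂ := (Fin.snoc (Fin.snoc v τ : Fin (n + 1) → ℂ) γ : Fin (n + 1 + 1) → ℂ) with hw
  set η : ℝ := ‖MvPolynomial.aeval w (P.coeff s₀)‖ with hη
  have hη0 : 0 < η := norm_pos_iff.2 hs₀
  obtain ⟨_, ⟨k, rfl⟩, hk, hbad⟩ := hGf (∑ s, |(c s : ℝ)| + ‖γ‖ + ∑ i ∈ f.support, |((f.coeff i : ℤ) : ℝ)| + B + 1 / η)
  simp only [Nat.floor_natCast] at hbad
  have e1 : 0 ≤ ∑ s, |(c s : ℝ)| := Finset.sum_nonneg fun i _ => abs_nonneg _
  have e2 : 0 ≤ ∑ i ∈ f.support, |((f.coeff i : ℤ) : ℝ)| := Finset.sum_nonneg fun i _ => abs_nonneg _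
  have e3 : 0 ≤ ‖γ‖ := norm_nonneg _
  have e4 : (0 : ℝ) ≤ B := Nat.cast_nonneg _
  have e5 : 0 < 1 / η := by positivity
  refine hbad ζ hζ hζG γ (by linarith) ⟨f, hf0, hfd, fun i => ?_, hfr⟩ τ (Or.inr ⟨Fin.last n, by
    rw [hx, Fin.snoc_last]⟩) ⟨c, fun s => ?_, P, hPd, hPc, fun s s' => ?_, ⟨s₀, ?_⟩, ?_⟩
  · by_cases hi : i ∈ f.support
    · have h1 := Finset.single_le_sum (f := fun i => |((f.coeff i : ℤ) : ℝ)|) (fun i _ => abs_nonneg _) hi
      have h2 : |((f.coeff i : ℤ) : ℝ)| ≤ k := by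
        have : |((f.coeff i : ℤ) : ℝ)| ≤ ∑ i ∈ f.support, |((f.coeff i : ℤ) : ℝ)| := h1
        linarith
      exact_mod_cast h2
    · rw [Polynomial.notMem_support_iff.1 hi, abs_zero]
      exact Int.natCast_nonneg _
  · have h1 := Finset.single_le_sum (f := fun s => |(c s : ℝ)|) (fun i _ => abs_nonneg _) (mem_univ s)
    have h2 : |((c s : ℤ) : ℝ)| ≤ k := by
      have : |((c s : ℤ) : ℝ)| ≤ ∑ s, |(c s : ℝ)| := h1
      linarith
    exact_mod_cast h2
  · have h1 : B ≤ k := by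
      have : (B : ℝ) ≤ k := by linarith
      exact_mod_cast this
    have h2 := hB s s'
    have h3 : (B : ℤ) ≤ k := by exact_mod_cast h1
    linarith
  · have h1 : 1 / η ≤ (k : ℝ) + 2 := by linarith
    rw [pow_one]
    rw [div_le_iff₀ hη0] at h1
    linarith
  · have h1 : (fun s => Complex.log ((N : ℂ) - ζ s) + c s * τ) = l := funext fun s => (hc s).symm
    rw [h1]
    rw [hPv, norm_zero, zero_mul]
    exact one_pos

end Pool.Agent.K3h1.LA
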