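import Mathlib
import Pool.Agent.K3h1.LM.Sc
import Pool.Agent.K3h1.LA.Tc
import Pool.Agent.K3h1.LA.Of

/-!
# The count at one scale
-/

set_option autoImplicit false

namespace Pool.Agent.K3h1.LA

open Filter Finset Pool.Agent.R351.GF Pool.Agent.Y916 Pool.Agent.Y535.LG Pool.Agent.K3h1.LM

/-- There are logarithms `l x` of the numbers `v x` with `|Im (l x)| ≤ H`, and a nonzero
polynomial with integer coefficients, of degree at most `δ` and height at most `H`, whose value at `l`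
is smaller than `(H + 2) ^ (- C)`. -/
def BadC {M : ℕ} (δ C H : ℕ) (v : Fin M → ℂ) : Prop :=
  ∃ l : Fin M → ℂ, (∀ x, Complex.exp (l x) = v x) ∧ (∀ x, |(l x).im| ≤ H) ∧
    ∃ P : MvPolynomial (Fin M) ℤ, P ≠ 0 ∧ P.totalDegree ≤ δ ∧ (∀ s, |P.coeff s| ≤ H) ∧
      ‖MvPolynomial.aeval l P‖ * ((H : ℝ) + 2) ^ C < 1

theorem BadC.mono {M δ C C' H : ℕ} {v : Fin M → ℂ} (h : BadC δ C' H v) (hC : C ≤ C') : BadC δ C H v := by
  obtain ⟨l, h1, h2, P, h3, h4, h5, h6⟩ := h
  refine ⟨l, h1, h2, P, h3, h4, h5, lt_of_le_of_lt ?_ h6⟩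
  refine mul_le_mul_of_nonneg_left (pow_le_pow_right₀ ?_ hC) (norm_nonneg _)
  linarith [(Nat.cast_nonneg H : (0 : ℝ) ≤ H)]

theorem BadC.toN {M δ C H : ℕ} {v : Fin M → ℂ} (h : BadC δ C H v) (hH : 2 ≤ H) :
    BadN δ 0 C H (fun _ : Fin 1 => (2 * Real.pi * Complex.I : ℂ)) (2 * Real.pi * Complex.I) v := by
  obtain ⟨l, h1, h2, P, h3, h4, h5, h6⟩ := h
  have hHr : (2 : ℝ) ≤ H := by exact_mod_cast hH
  choose b hb hbH using fun x => exists_brC (h1 x) hHr (h2 x)
  set P' : MvPolynomial (Fin M) (MvPolynomial (Fin 1) ℤ) := MvPolynomial.map MvPolynomial.C P with hP'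
  have hc : ∀ s, P'.coeff s = MvPolynomial.C (P.coeff s) := fun s => by rw [hP', MvPolynomial.coeff_map]
  refine ⟨b, fun x => ?_, P', ?_, fun s => ?_, fun s s' => ?_, ?_, ?_⟩
  · have := hbH x
    exact_mod_cast this
  · refine le_trans ?_ h4
    rw [MvPolynomial.totalDegree, MvPolynomial.totalDegree]
    refine Finset.sup_mono ?_
    rw [hP']
    exact MvPolynomial.support_map_subset _ _
  · rw [hc, MvPolynomial.totalDegree_C]
    exact Nat.zero_le _
  · classical
    rw [hc, MvPolynomial.coeff_C]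
    split_ifs
    · exact h5 s
    · rw [abs_zero]
      exact Int.natCast_nonneg _
  · obtain ⟨s, hs⟩ : ∃ s, P.coeff s ≠ 0 := by
      by_contra hcon
      push Not at hcon
      exact h3 (MvPolynomial.ext _ _ fun s => by rw [hcon s, MvPolynomial.coeff_zero])
    refine ⟨s, ?_⟩
    rw [hc, MvPolynomial.aeval_C, pow_zero, mul_one]
    have h7 := Int.one_le_abs hs
    have h8 : ‖((algebraMap ℤ ℂ) (P.coeff s))‖ = |((P.coeff s : ℤ) : ℝ)| := by
      rw [algebraMap_int_eq, eq_intCast, Complex.norm_intCast]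
    rw [h8]
    exact_mod_cast h7
  · have h7 : (fun x => Complex.log (v x) + b x * (2 * Real.pi * Complex.I)) = l := funext fun x => (hb x).symm
    rw [h7, hP', MvPolynomial.eval₂_map]
    have h8 : ((MvPolynomial.aeval fun _ : Fin 1 => (2 * Real.pi * Complex.I : ℂ)) :
        MvPolynomial (Fin 1) ℤ →ₐ[ℤ] ℂ).toRingHom.comp MvPolynomial.C = algebraMap ℤ ℂ := RingHom.ext_int _ _
    rw [h8]
    exact h6

/-- the numbers, in one row -/
noncomputable def valsN {k K : ℕ} (f : Fin k → Fin K → ℂ) (n : Fin k → ℕ) (x : Fin (k * K)) : ℂ :=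
  (n (finProdFinEquiv.symm x).1 : ℂ) - f (finProdFinEquiv.symm x).1 (finProdFinEquiv.symm x).2

open Classical in
/-- **The count at one scale**, for one family. -/
theorem scaleN (k K D δ : ℕ) : ∃ C : ℕ, 0 < C ∧ ∀ T H h : ℕ, 1 ≤ T → T ≤ H → (h + 2) ^ C ≤ T →
    ∀ f : Fin k → Fin K → ℂ, (∀ i, FamN D h (f i)) →
    (((Fintype.piFinset fun _ : Fin k => Ioc 0 T).filter fun n => BadC δ C H (valsN f n)).card : ℝ) ≤
      C * (T : ℝ) ^ ((k : ℝ) - 1 / C) := by
  classical
  by_contra hcon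
  push Not at hcon
  choose T H h hT hTH hhT f hf hcard using fun j : ℕ => hcon (j + 3) (by omega)
  set U : Ultrafilter ℕ := hyperfilter ℕ with hU
  have hUa : (U : Filter ℕ) ≤ atTop := Nat.hyperfilter_le_atTop
  set B : ℕ → Finset (Fin k → ℕ) := fun j => (Fintype.piFinset fun _ : Fin k => Ioc 0 (T j)).filter
    fun n => BadC δ (j + 3) (H j) (valsN (f j) n) with hB
  have h8 : ∀ j, 8 ≤ T j := fun j => by
    refine le_trans ?_ (hhT j)
    calc 8 = 2 ^ 3 := by norm_num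
      _ ≤ 2 ^ (j + 3) := Nat.pow_le_pow_right (by norm_num) (by omega)
      _ ≤ (h j + 2) ^ (j + 3) := Nat.pow_le_pow_left (by omega) _
  have hTj : ∀ j, j ≤ T j := by
    intro j
    have h1 : j + 3 < 2 ^ (j + 3) := Nat.lt_two_pow_self
    have h2 : 2 ^ (j + 3) ≤ (h j + 2) ^ (j + 3) := Nat.pow_le_pow_left (by omega) _
    have h3 := hhT j
    omega
  have hTt : Tendsto T U atTop := (tendsto_atTop_mono hTj tendsto_id).mono_left hUa
  have hh : ∀ E : ℕ, ∀ᶠ j in (U : Filter ℕ), (h j + 2) ^ E ≤ T j := by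
    intro E
    have h1 : ∀ᶠ j : ℕ in (U : Filter ℕ), E ≤ j := hUa (eventually_ge_atTop E)
    filter_upwards [h1] with j hj
    exact (Nat.pow_le_pow_right (by omega) (by omega)).trans (hhT j)
  have hw : ∀ (j : ℕ) (i : Fin 1), ‖((fun _ _ => 2 * Real.pi * Complex.I : ℕ → Fin 1 → ℂ) j i)‖ ≤ H j := by
    intro j i
    have hpi : ‖(2 * Real.pi * Complex.I : ℂ)‖ = 2 * Real.pi := by
      rw [norm_mul, Complex.norm_I, mul_one, norm_mul, Complex.norm_real, Real.norm_eq_abs,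
        abs_of_pos Real.pi_pos]
      simp
    show ‖(2 * Real.pi * Complex.I : ℂ)‖ ≤ H j
    rw [hpi]
    have h1 : (8 : ℝ) ≤ H j := by exact_mod_cast (h8 j).trans (hTH j)
    have h2 := Real.pi_le_four
    linarith
  obtain ⟨n, hn, hnv, hch⟩ := exists_chainN (D := D) U H T hTt (Eventually.of_forall hTH) h hh k
    (fun i j => f j i) (fun i => Eventually.of_forall fun j => hf j i)
    B (fun j => Finset.filter_subset _ _) (by
      intro c hc
      have h1 : ∀ᶠ j : ℕ in (U : Filter ℕ), 1 / c ≤ (j : ℝ) :=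
        (tendsto_natCast_atTop_atTop.mono_left hUa).eventually_ge_atTop (1 / c)
      filter_upwards [h1] with j hj
      refine lt_of_le_of_lt ?_ (hcard j)
      have ht1 : (1 : ℝ) ≤ T j := by exact_mod_cast hT j
      have h2 : (T j : ℝ) ^ ((k : ℝ) - c) ≤ (T j : ℝ) ^ ((k : ℝ) - 1 / ((j + 3 : ℕ) : ℝ)) := by
        apply Real.rpow_le_rpow_of_exponent_le ht1
        have h3 : 1 / ((j + 3 : ℕ) : ℝ) ≤ c := by
          rw [div_le_iff₀ (by positivity)]
          rw [div_le_iff₀ hc] at hj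
          push_cast
          nlinarith
        linarith
      refine h2.trans (le_mul_of_one_le_left (Real.rpow_nonneg (by linarith) _) ?_)
      push_cast
      linarith [show (0 : ℝ) ≤ j from Nat.cast_nonneg j])
    (Set.range fun i => (Ideal.Quotient.mk (ms U H) (cst U H
      (fun _ _ => 2 * Real.pi * Complex.I : ℕ → Fin 1 → ℂ) hw i) : Fl U H)) (Set.finite_range _)
  refine no_badN (δ := δ) (E₀ := 0) U H (fun _ _ => 2 * Real.pi * Complex.I : ℕ → Fin 1 → ℂ) hw
    (fun _ => 2 * Real.pi * Complex.I) (Or.inr ⟨0, Eventually.of_forall fun j => rfl⟩)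
    (fun j => valsN (f j) (n j)) (fun j => j + 3) ?_ ?_ ?_ ?_
  · exact (tendsto_add_atTop_nat 3).mono_left hUa
  · intro x
    filter_upwards [hnv] with j hj
    exact hj _ _
  · filter_upwards [hn] with j hj
    have h1 := (mem_filter.1 hj).2
    exact h1.toN (by have := h8 j; have := hTH j; omega)
  · intro x hcon
    apply hch (finProdFinEquiv.symm x).1 (finProdFinEquiv.symm x).2
    refine acl_mono ?_ hcon
    rintro y (hy | ⟨x', hx', rfl⟩)
    · exact Or.inl hy
    · exact Or.inr ⟨finProdFinEquiv.symm x', lex_of_lt hx', rfl⟩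

/-! ### All families -/

/-- the algebraic numbers of bounded degree and height are few -/
theorem exists_allC (D h : ℕ) : ∃ 𝓖 : Finset ℂ, 𝓖.card ≤ (2 * h + 1) ^ (D + 1) * D ∧
    ∀ ζ, Near D h ζ → ζ ∈ 𝓖 := by
  classical
  set Pl : Finset (Polynomial ℤ) := (Fintype.piFinset fun _ : Fin (D + 1) => Icc (-(h : ℤ)) h).image
    fun c => ∑ l : Fin (D + 1), Polynomial.C (c l) * Polynomial.X ^ (l : ℕ) with hPl
  refine ⟨Pl.biUnion fun g => (g.map (Int.castRingHom ℂ)).roots.toFinset, ?_, fun ζ hζ => ?_⟩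
  · refine (card_biUnion_le_card_mul _ _ D fun g hg => ?_).trans (Nat.mul_le_mul_right _ ?_)
    · obtain ⟨c, -, rfl⟩ := mem_image.1 hg
      refine (Multiset.toFinset_card_le _).trans ((Polynomial.card_roots' _).trans
        (Polynomial.natDegree_map_le.trans ?_))
      refine Polynomial.natDegree_sum_le_of_forall_le _ _ fun l _ => ?_
      refine (Polynomial.natDegree_C_mul_X_pow_le _ _).trans ?_
      have := l.2
      omega
    · refine card_image_le.trans ?_
      rw [Fintype.card_piFinset, Finset.prod_const, Finset.card_univ, Fintype.card_fin, Int.card_Icc]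
      have h3 : ((h : ℤ) + 1 - -(h : ℤ)).toNat = 2 * h + 1 := by omega
      rw [h3]
  · obtain ⟨f, h1, h2, h3, h4⟩ := hζ
    rw [mem_biUnion]
    refine ⟨f, ?_, ?_⟩
    · refine mem_image.2 ⟨fun l => f.coeff l, ?_, ?_⟩
      · rw [Fintype.mem_piFinset]
        intro l
        rw [mem_Icc]
        exact abs_le.1 (h3 l)
      · conv_rhs => rw [f.as_sum_range_C_mul_X_pow' (n := D + 1) (Nat.lt_succ_of_le h2)]
        rw [Finset.sum_range]
    · rw [Multiset.mem_toFinset, Polynomial.mem_roots (by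
        rw [Ne, Polynomial.map_eq_zero_iff Int.cast_injective]
        exact h1.ne_zero), Polynomial.IsRoot.def, Polynomial.eval_map]
      exact h4

open Classical in
/-- the exceptional tuples -/
noncomputable def excN (k K D δ C T H h : ℕ) : Finset (Fin k → ℕ) :=
  (Fintype.piFinset fun _ : Fin k => Ioc 0 T).filter fun n =>
    ∃ f : Fin k → Fin K → ℂ, (∀ i, FamN D h (f i)) ∧ BadC δ C H (valsN f n)

open Classical in
theorem card_excN (k K D δ C T H h : ℕ) {R : ℝ}
    (hR : ∀ f : Fin k → Fin K → ℂ, (∀ i, FamN D h (f i)) →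
      (((Fintype.piFinset fun _ : Fin k => Ioc 0 T).filter fun n => BadC δ C H (valsN f n)).card : ℝ) ≤ R)
    (hR0 : 0 ≤ R) :
    ((excN k K D δ C T H h).card : ℝ) ≤ (((2 * h + 1) ^ (D + 1) * D : ℕ) : ℝ) ^ (k * K) * R := by
  classical
  obtain ⟨𝓖, h𝓖, h𝓖m⟩ := exists_allC D h
  set Ω : Finset (Fin k → Fin K → ℂ) := Fintype.piFinset fun _ => Fintype.piFinset fun _ => 𝓖 with hΩ
  set bad : (Fin k → Fin K → ℂ) → Finset (Fin k → ℕ) := fun c =>
    if ∀ i, FamN D h (c i) then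
      (Fintype.piFinset fun _ : Fin k => Ioc 0 T).filter fun n => BadC δ C H (valsN c n)
    else ∅ with hbad
  have hsub : excN k K D δ C T H h ⊆ Ω.biUnion bad := by
    intro n hn
    obtain ⟨h1, f, hf, hfb⟩ := mem_filter.1 hn
    refine mem_biUnion.2 ⟨f, ?_, ?_⟩
    · rw [hΩ, Fintype.mem_piFinset]
      intro i
      rw [Fintype.mem_piFinset]
      intro s
      exact h𝓖m _ ((hf i).2 s)
    · rw [hbad]
      simp only
      rw [if_pos hf, mem_filter]
      exact ⟨h1, hfb⟩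
  have h1 : ((excN k K D δ C T H h).card : ℝ) ≤ ∑ c ∈ Ω, ((bad c).card : ℝ) := by
    have := (card_le_card hsub).trans card_biUnion_le
    exact_mod_cast this
  have h2 : ∀ c ∈ Ω, ((bad c).card : ℝ) ≤ R := by
    intro c _
    rw [hbad]
    simp only
    split_ifs with hc
    · refine le_of_eq_of_le ?_ (hR _ hc)
      congr!
    · simpa using hR0
  refine h1.trans ((Finset.sum_le_sum h2).trans ?_)
  rw [Finset.sum_const, nsmul_eq_mul]
  refine mul_le_mul_of_nonneg_right ?_ hR0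
  have h3 : Ω.card ≤ ((2 * h + 1) ^ (D + 1) * D) ^ (k * K) := by
    rw [hΩ, Fintype.card_piFinset, Finset.prod_const, Finset.card_univ, Fintype.card_fin,
      Fintype.card_piFinset, Finset.prod_const, Finset.card_univ, Fintype.card_fin, ← pow_mul, mul_comm K k]
    exact Nat.pow_le_pow_left h𝓖 _
  exact_mod_cast h3

/-- **The count at one scale**, for all families at once. -/
theorem unionN (k K D δ : ℕ) : ∃ C : ℕ, 0 < C ∧ ∀ T H h : ℕ, 1 ≤ T → T ≤ H → (h + 2) ^ C ≤ T →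
    ((excN k K D δ C T H h).card : ℝ) ≤ C * (T : ℝ) ^ ((k : ℝ) - 1 / C) := by
  classical
  obtain ⟨C₁, hC₁, hs⟩ := scaleN k K D δ
  set M : ℕ := (2 * D + 1) * (k * K) with hM
  set C : ℕ := (4 * M + 2) * C₁ with hC
  have hC1le : C₁ ≤ C := by rw [hC]; nlinarith
  refine ⟨C, by positivity, fun T H h hT hTH hhT => ?_⟩
  have ht1 : (1 : ℝ) ≤ T := by exact_mod_cast hT
  have ht0 : (0 : ℝ) < T := by linarith
  have hC₁0 : (0 : ℝ) < C₁ := by exact_mod_cast hC₁
  have hCr : (C : ℝ) = (4 * M + 2) * C₁ := by rw [hC]; push_cast; ring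
  have hM0 : (0 : ℝ) ≤ M := Nat.cast_nonneg M
  have hC0 : (0 : ℝ) < C := by rw [hCr]; positivity
  have h1 : ((excN k K D δ C T H h).card : ℝ) ≤ (excN k K D δ C₁ T H h).card := by
    have : excN k K D δ C T H h ⊆ excN k K D δ C₁ T H h := by
      intro n hn
      obtain ⟨h2, f, hf, hb⟩ := mem_filter.1 hn
      exact mem_filter.2 ⟨h2, f, hf, hb.mono hC1le⟩
    exact_mod_cast card_le_card this
  have hhT1 : (h + 2) ^ C₁ ≤ T := (Nat.pow_le_pow_right (by omega) hC1le).trans hhT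
  have h2 := card_excN k K D δ C₁ T H h (R := C₁ * (T : ℝ) ^ ((k : ℝ) - 1 / C₁))
    (fun f hf => hs T H h hT hTH hhT1 f hf) (by positivity)
  refine h1.trans (h2.trans ?_)
  have h3 : (((2 * h + 1) ^ (D + 1) * D : ℕ) : ℝ) ^ (k * K) ≤ (T : ℝ) ^ (1 / (2 * C₁ : ℝ)) := by
    have h4 : (((2 * h + 1) ^ (D + 1) * D : ℕ) : ℝ) ^ (k * K) ≤ (((h : ℝ) + 2) ^ 2) ^ M := by
      rw [hM, pow_mul (((h : ℝ) + 2) ^ 2)]
      refine pow_le_pow_left₀ (by positivity) ?_ _
      have e1 : (2 * h + 1) ^ (D + 1) * D ≤ ((h + 2) ^ 2) ^ (2 * D + 1) := by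
        have e2 : (2 * h + 1) ^ (D + 1) ≤ ((h + 2) ^ 2) ^ (D + 1) := Nat.pow_le_pow_left (by nlinarith) _
        have e3 : D ≤ ((h + 2) ^ 2) ^ D :=
          (Nat.lt_two_pow_self (n := D)).le.trans (Nat.pow_le_pow_left
            (le_trans (by norm_num : 2 ≤ 2 ^ 2) (Nat.pow_le_pow_left (by omega) 2)) _)
        calc (2 * h + 1) ^ (D + 1) * D ≤ ((h + 2) ^ 2) ^ (D + 1) * ((h + 2) ^ 2) ^ D := Nat.mul_le_mul e2 e3
          _ = ((h + 2) ^ 2) ^ (2 * D + 1) := by rw [← pow_add]; congr 1; omega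
      exact_mod_cast e1
    have h5 : ((h : ℝ) + 2) ^ C ≤ T := by exact_mod_cast hhT
    have h6 : (((h : ℝ) + 2) ^ 2) ^ M = (((h : ℝ) + 2) ^ C) ^ ((2 * M : ℝ) / C) := by
      rw [← pow_mul, ← Real.rpow_natCast, ← Real.rpow_natCast ((h : ℝ) + 2) C,
        ← Real.rpow_mul (by positivity)]
      congr 1
      push_cast
      field_simp
    rw [h6] at h4
    refine h4.trans ((Real.rpow_le_rpow (by positivity) h5 (by positivity)).trans ?_)
    apply Real.rpow_le_rpow_of_exponent_le ht1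
    rw [div_le_div_iff₀ hC0 (by positivity), hCr]
    nlinarith
  calc (((2 * h + 1) ^ (D + 1) * D : ℕ) : ℝ) ^ (k * K) * (C₁ * (T : ℝ) ^ ((k : ℝ) - 1 / C₁)) ≤
        (T : ℝ) ^ (1 / (2 * C₁ : ℝ)) * (C₁ * (T : ℝ) ^ ((k : ℝ) - 1 / C₁)) :=
        mul_le_mul_of_nonneg_right h3 (by positivity)
    _ = C₁ * (T : ℝ) ^ ((k : ℝ) - 1 / (2 * C₁)) := by
        rw [mul_left_comm, ← Real.rpow_add ht0]
        congr 2
        field_simp
        ring
    _ ≤ C * (T : ℝ) ^ ((k : ℝ) - 1 / C) := by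
        refine mul_le_mul (by exact_mod_cast hC1le) ?_ (Real.rpow_nonneg ht0.le _) hC0.le
        apply Real.rpow_le_rpow_of_exponent_le ht1
        have : 1 / (C : ℝ) ≤ 1 / (2 * C₁) := by
          apply one_div_le_one_div_of_le (by positivity)
          rw [hCr]
          nlinarith
        linarith

end Pool.Agent.K3h1.LA
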