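import Mathlib
import Pool.Agent.K3h1.LA.Pl

/-!
# The roots of polynomials with algebraic coefficients
-/

set_option autoImplicit false

open Polynomial

namespace Pool.Agent.K3h1.LA

open Filter

theorem Near.mono {D D' h h' : ℕ} {ζ : ℂ} (hζ : Near D h ζ) (hD : D ≤ D') (hh : h ≤ h') : Near D' h' ζ := by
  obtain ⟨f, h1, h2, h3, h4⟩ := hζ
  exact ⟨f, h1, h2.trans hD, fun m => (h3 m).trans (by exact_mod_cast hh), h4⟩

/-- a root of a nonzero integer polynomial of degree at most `D` with coefficients at most `h` -/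
def IsA (D h : ℕ) (z : ℂ) : Prop :=
  ∃ g : ℤ[X], g ≠ 0 ∧ g.natDegree ≤ D ∧ (∀ m, |g.coeff m| ≤ h) ∧ aeval z g = 0

theorem exists_irr_factor {g : ℤ[X]} (hg : g ≠ 0) {z : ℂ} (hz : aeval z g = 0) :
    ∃ f : ℤ[X], Irreducible f ∧ f ∣ g ∧ aeval z f = 0 := by
  revert hg hz
  refine WfDvdMonoid.induction_on_irreducible g ?_ ?_ ?_
  · intro h
    exact absurd rfl h
  · intro u hu _ hz
    exfalso
    have h1 : IsUnit (aeval z u) := hu.map (aeval z)
    rw [hz] at h1
    exact not_isUnit_zero h1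
  · intro a i ha hi ih _ hz
    rw [map_mul] at hz
    rcases mul_eq_zero.1 hz with h | h
    · exact ⟨i, hi, dvd_mul_right _ _, h⟩
    · obtain ⟨f, h1, h2, h3⟩ := ih ha h
      exact ⟨f, h1, h2.mul_left _, h3⟩

/-- **The irreducible factors of an integer polynomial have small coefficients.** -/
theorem IsA.near {D h : ℕ} {z : ℂ} (hz : IsA D h z) : Near D (2 ^ D * ((D + 1) * h)) z := by
  obtain ⟨g, hg, hD, hh, hz⟩ := hz
  obtain ⟨f, hf, ⟨q, hq⟩, hfz⟩ := exists_irr_factor hg hz
  have hq0 : q ≠ 0 := by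
    rintro rfl
    exact hg (by rw [hq, mul_zero])
  have hfD : f.natDegree ≤ D := by
    rw [hq, natDegree_mul hf.ne_zero hq0] at hD
    omega
  refine ⟨f, hf, hfD, fun m => ?_, hfz⟩
  set ψ : ℤ →+* ℂ := Int.castRingHom ℂ with hψ
  have h1 : 1 ≤ (q.map ψ).mahlerMeasure := by
    apply one_le_mahlerMeasure_of_one_le_norm_leadingCoeff
    rw [leadingCoeff_map_of_injective Int.cast_injective, hψ, eq_intCast, Complex.norm_intCast]
    have := Int.one_le_abs (leadingCoeff_ne_zero.2 hq0)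
    exact_mod_cast this
  have h2 := norm_coeff_le_choose_mul_mahlerMeasure_of_one_le_mahlerMeasure m (f.map ψ) (q.map ψ) h1
  rw [← Polynomial.map_mul, ← hq, natDegree_map_eq_of_injective Int.cast_injective] at h2
  have h3 : (g.map ψ).mahlerMeasure ≤ (D + 1) * h := by
    refine (mahlerMeasure_le_sum_norm_coeff _).trans ?_
    rw [Polynomial.sum_over_range' _ (fun _ => norm_zero) (D + 1)
      (Nat.lt_succ_of_le (natDegree_map_le.trans hD))]
    refine (Finset.sum_le_card_nsmul _ _ (h : ℝ) fun l _ => ?_).trans ?_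
    · rw [coeff_map, hψ, eq_intCast, Complex.norm_intCast]
      exact_mod_cast hh l
    · rw [Finset.card_range, nsmul_eq_mul]
      push_cast
      exact le_rfl
  have h4 : ((f.natDegree.choose m : ℕ) : ℝ) ≤ 2 ^ D := by
    have h5 : f.natDegree.choose m ≤ 2 ^ f.natDegree := Nat.choose_le_two_pow _ _
    have h6 := h5.trans (Nat.pow_le_pow_right (by norm_num) hfD)
    exact_mod_cast h6
  have h7 : ‖(f.map ψ).coeff m‖ ≤ 2 ^ D * ((D + 1) * h) := by
    refine h2.trans (mul_le_mul h4 h3 ?_ (by positivity))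
    exact mahlerMeasure_nonneg _
  rw [coeff_map, hψ, eq_intCast, Complex.norm_intCast] at h7
  exact_mod_cast h7

/-! ### Germs -/

section Germs

variable (U : Ultrafilter ℕ) (h : ℕ → ℕ)

/-- the germs of the integer sequences of polynomial growth -/
def Rg : Subring (Germ (U : Filter ℕ) ℂ) where
  carrier := {x | ∃ (v : ℕ → ℤ) (c : ℕ), (∀ᶠ j in (U : Filter ℕ), |v j| ≤ (((h j + 2) ^ c : ℕ) : ℤ)) ∧
    x = Germ.coeRingHom (U : Filter ℕ) (fun j => (v j : ℂ))}
  mul_mem' := by
    rintro x y ⟨v, c, h1, rfl⟩ ⟨v', c', h1', rfl⟩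
    refine ⟨fun j => v j * v' j, c + c', ?_, ?_⟩
    · filter_upwards [h1, h1'] with j h2 h3
      rw [abs_mul, pow_add]
      push_cast at h2 h3 ⊢
      exact mul_le_mul h2 h3 (abs_nonneg _) (by positivity)
    · rw [← map_mul]
      congr 1
      funext j
      simp
  one_mem' := ⟨fun _ => 1, 0, Eventually.of_forall fun j => by simp, by
    rw [← map_one (Germ.coeRingHom (U : Filter ℕ))]
    congr 1
    funext j
    simp⟩
  add_mem' := by
    rintro x y ⟨v, c, h1, rfl⟩ ⟨v', c', h1', rfl⟩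
    refine ⟨fun j => v j + v' j, c + c' + 1, ?_, ?_⟩
    · filter_upwards [h1, h1'] with j h2 h3
      have h4 : (h j + 2) ^ c ≤ (h j + 2) ^ (c + c') := Nat.pow_le_pow_right (by omega) (by omega)
      have h5 : (h j + 2) ^ c' ≤ (h j + 2) ^ (c + c') := Nat.pow_le_pow_right (by omega) (by omega)
      have h6 : (h j + 2) ^ (c + c') * 2 ≤ (h j + 2) ^ (c + c' + 1) := by
        rw [pow_succ]
        exact Nat.mul_le_mul_left _ (by omega)
      have h7 := abs_add_le (v j) (v' j)
      omega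
    · rw [← map_add]
      congr 1
      funext j
      simp
  zero_mem' := ⟨fun _ => 0, 0, Eventually.of_forall fun j => by simp, by
    rw [← map_zero (Germ.coeRingHom (U : Filter ℕ))]
    congr 1
    funext j
    simp⟩
  neg_mem' := by
    rintro x ⟨v, c, h1, rfl⟩
    refine ⟨fun j => - v j, c, ?_, ?_⟩
    · filter_upwards [h1] with j h2
      rwa [abs_neg]
    · rw [← map_neg]
      congr 1
      funext j
      simp

variable {U h}

theorem germ_zero {x : ℕ → ℂ} : Germ.coeRingHom (U : Filter ℕ) x = 0 ↔ ∀ᶠ j in (U : Filter ℕ), x j = 0 := by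
  rw [← map_zero (Germ.coeRingHom (U : Filter ℕ))]
  exact Germ.coe_eq

/-- the class of a bounded sequence of integer polynomials -/
theorem germ_alg {D : ℕ} {g : ℕ → ℤ[X]} {z : ℕ → ℂ} {c : ℕ} (h0 : ∀ᶠ j in (U : Filter ℕ), g j ≠ 0)
    (hD : ∀ᶠ j in (U : Filter ℕ), (g j).natDegree ≤ D)
    (hc : ∀ᶠ j in (U : Filter ℕ), ∀ m, |(g j).coeff m| ≤ (((h j + 2) ^ c : ℕ) : ℤ))
    (hz : ∀ᶠ j in (U : Filter ℕ), aeval (z j) (g j) = 0) :
    IsAlgebraic (Rg U h) (Germ.coeRingHom (U : Filter ℕ) z) := by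
  classical
  set r : ℕ → Rg U h := fun m => ⟨Germ.coeRingHom (U : Filter ℕ) (fun j => (((g j).coeff m : ℤ) : ℂ)),
    ⟨fun j => (g j).coeff m, c, hc.mono fun j hj => hj m, rfl⟩⟩ with hr
  refine ⟨∑ m ∈ Finset.range (D + 1), C (r m) * X ^ m, ?_, ?_⟩
  · -- nonzero
    obtain ⟨m, hm⟩ : ∃ m : Fin (D + 1), ∀ᶠ j in (U : Filter ℕ), (g j).coeff m ≠ 0 := by
      apply Ultrafilter.eventually_exists_iff.1
      filter_upwards [h0, hD] with j h1 h2
      refine ⟨⟨(g j).natDegree, by omega⟩, ?_⟩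
      exact leadingCoeff_ne_zero.2 h1
    intro hcon
    have h1 := congrArg (fun p => coeff p (m : ℕ)) hcon
    simp only [finsetSum_coeff, coeff_C_mul, coeff_X_pow, coeff_zero, mul_ite, mul_one, mul_zero] at h1
    rw [Finset.sum_ite_eq, if_pos (Finset.mem_range.2 m.2)] at h1
    have h2 : Germ.coeRingHom (U : Filter ℕ) (fun j => (((g j).coeff m : ℤ) : ℂ)) = 0 :=
      congrArg Subtype.val h1
    rw [germ_zero] at h2
    obtain ⟨j, h3, h4⟩ := (hm.and h2).exists
    exact h3 (by exact_mod_cast h4)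
  · rw [map_sum]
    have h1 : ∀ m, aeval (Germ.coeRingHom (U : Filter ℕ) z) (C (r m) * X ^ m) =
        Germ.coeRingHom (U : Filter ℕ) (fun j => (((g j).coeff m : ℤ) : ℂ) * z j ^ m) := by
      intro m
      rw [map_mul, aeval_C, map_pow, aeval_X, ← map_pow]
      show Germ.coeRingHom (U : Filter ℕ) (fun j => (((g j).coeff m : ℤ) : ℂ)) * _ = _
      rw [← map_mul]
      rfl
    rw [Finset.sum_congr rfl fun m _ => h1 m, ← map_sum, germ_zero]
    filter_upwards [hD, hz] with j h2 h3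
    rw [Finset.sum_apply]
    rw [(g j).as_sum_range' (D + 1) (Nat.lt_succ_of_le h2), map_sum] at h3
    rw [← h3]
    refine Finset.sum_congr rfl fun m _ => ?_
    rw [aeval_monomial]
    simp

theorem germ_ext {z : ℕ → ℂ} (hz : IsAlgebraic (Rg U h) (Germ.coeRingHom (U : Filter ℕ) z)) :
    ∃ (D c : ℕ), ∀ᶠ j in (U : Filter ℕ), IsA D ((h j + 2) ^ c) (z j) := by
  classical
  obtain ⟨P, hP0, hP⟩ := hz
  have hco : ∀ m, ∃ (v : ℕ → ℤ) (c : ℕ), (∀ᶠ j in (U : Filter ℕ), |v j| ≤ (((h j + 2) ^ c : ℕ) : ℤ)) ∧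
    (P.coeff m : Germ (U : Filter ℕ) ℂ) = Germ.coeRingHom (U : Filter ℕ) (fun j => (v j : ℂ)) := fun m => (P.coeff m).2
  choose v c hv hvc using hco
  set n := P.natDegree with hn
  set g : ℕ → ℤ[X] := fun j => ∑ m ∈ Finset.range (n + 1), C (v m j) * X ^ m with hg
  have hgc : ∀ j m, (g j).coeff m = if m ∈ Finset.range (n + 1) then v m j else 0 := by
    intro j m
    rw [hg]
    simp only [finsetSum_coeff, coeff_C_mul, coeff_X_pow, mul_ite, mul_one, mul_zero]
    rw [Finset.sum_ite_eq]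
  refine ⟨n, ∑ m ∈ Finset.range (n + 1), c m, ?_⟩
  have h1 : ∀ᶠ j in (U : Filter ℕ), v n j ≠ 0 := by
    by_contra hcon
    rw [← Ultrafilter.eventually_not] at hcon
    apply hP0
    rw [← leadingCoeff_eq_zero]
    apply Subtype.ext
    show ((P.coeff n : Rg U h) : Germ (U : Filter ℕ) ℂ) = 0
    rw [hvc n, germ_zero]
    filter_upwards [hcon] with j hj
    rw [not_not] at hj
    rw [hj, Int.cast_zero]
  have h2 : ∀ᶠ j in (U : Filter ℕ), aeval (z j) (g j) = 0 := by
    rw [aeval_def, eval₂_eq_sum_range, ← hn] at hP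
    have h3 : ∀ m, (algebraMap (Rg U h) (Germ (U : Filter ℕ) ℂ)) (P.coeff m) *
        (Germ.coeRingHom (U : Filter ℕ) z) ^ m =
        Germ.coeRingHom (U : Filter ℕ) (fun j => (v m j : ℂ) * z j ^ m) := by
      intro m
      have h4 : (algebraMap (Rg U h) (Germ (U : Filter ℕ) ℂ)) (P.coeff m) =
        Germ.coeRingHom (U : Filter ℕ) (fun j => (v m j : ℂ)) := hvc m
      rw [h4, ← map_pow, ← map_mul]
      rfl
    rw [Finset.sum_congr rfl fun m _ => h3 m, ← map_sum, germ_zero] at hP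
    filter_upwards [hP] with j hj
    rw [Finset.sum_apply] at hj
    rw [hg]
    simp only [map_sum, map_mul, map_pow, aeval_X, aeval_C]
    rw [← hj]
    refine Finset.sum_congr rfl fun m _ => ?_
    simp
  have h3 : ∀ᶠ j in (U : Filter ℕ), ∀ m ∈ Finset.range (n + 1), |v m j| ≤ (((h j + 2) ^ c m : ℕ) : ℤ) := by
    rw [Filter.eventually_all_finset]
    exact fun m _ => hv m
  filter_upwards [h1, h2, h3] with j h4 h5 h6
  refine ⟨g j, ?_, ?_, ?_, h5⟩
  · intro hcon
    apply h4
    have h7 := hgc j n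
    rw [hcon, coeff_zero, if_pos (Finset.mem_range.2 (Nat.lt_succ_self n))] at h7
    exact h7.symm
  · refine natDegree_sum_le_of_forall_le _ _ fun m hm => ?_
    refine (natDegree_C_mul_X_pow_le _ _).trans ?_
    have := Finset.mem_range.1 hm
    omega
  · intro m
    rw [hgc]
    split_ifs with hm
    · refine (h6 m hm).trans ?_
      have h7 : (h j + 2) ^ c m ≤ (h j + 2) ^ (∑ m ∈ Finset.range (n + 1), c m) :=
        Nat.pow_le_pow_right (by omega) (Finset.single_le_sum (f := c) (fun _ _ => Nat.zero_le _) hm)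
      exact_mod_cast h7
    · rw [abs_zero]
      exact Int.natCast_nonneg _

end Germs

/-- a root of a polynomial whose coefficients are algebraic over a subring -/
theorem alg_root {F : Type*} [Field F] {R : Subring F} {P : F[X]} (hP : P ≠ 0)
    (hc : ∀ m, IsAlgebraic R (P.coeff m)) {z : F} (hz : aeval z P = 0) : IsAlgebraic R z := by
  classical
  set A : Subalgebra R F := Subalgebra.algebraicClosure R F with hA
  have hlift : P ∈ Polynomial.lifts (algebraMap A F) := by
    rw [lifts_iff_coeff_lifts]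
    intro m
    exact ⟨⟨P.coeff m, hc m⟩, rfl⟩
  obtain ⟨Q, hQ⟩ := (mem_lifts _).1 hlift
  have hQ0 : Q ≠ 0 := by
    rintro rfl
    exact hP (by rw [← hQ, Polynomial.map_zero])
  have h1 : IsAlgebraic A z := by
    refine ⟨Q, hQ0, ?_⟩
    rw [aeval_def, ← eval_map, hQ]
    simpa using hz
  have : Algebra.IsAlgebraic R A := ⟨fun x => by
    have h2 := x.2
    have h3 : IsAlgebraic R (algebraMap A F x) := h2
    exact (isAlgebraic_algebraMap_iff (Subtype.val_injective)).1 h3⟩
  exact h1.restrictScalars R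

/-- **The roots of a polynomial of bounded degree whose coefficients are algebraic numbers of bounded degree and
height.** -/
theorem roots_near (D : ℕ) : ∃ D' E : ℕ, ∀ (h : ℕ) (f : ℂ[X]), f ≠ 0 → f.natDegree ≤ D →
    (∀ m, IsA D h (f.coeff m)) → ∀ z, f.IsRoot z → Near D' ((h + 2) ^ E) z := by
  classical
  by_contra hcon
  push Not at hcon
  choose h f hf0 hfD hfc z hz hnot using fun j : ℕ => hcon j j
  set U : Ultrafilter ℕ := hyperfilter ℕ with hU
  have hUa : (U : Filter ℕ) ≤ atTop := Nat.hyperfilter_le_atTop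
  have halg : IsAlgebraic (Rg U h) (Germ.coeRingHom (U : Filter ℕ) z) := by
    set a : ℕ → Germ (U : Filter ℕ) ℂ := fun m => Germ.coeRingHom (U : Filter ℕ) (fun j => (f j).coeff m) with ha
    have haa : ∀ m, IsAlgebraic (Rg U h) (a m) := by
      intro m
      choose g hg1 hg2 hg3 hg4 using fun j => hfc j m
      refine germ_alg (D := D) (g := g) (c := 1) (Eventually.of_forall hg1) (Eventually.of_forall hg2)
        (Eventually.of_forall fun j l => (hg3 j l).trans ?_) (Eventually.of_forall hg4)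
      rw [pow_one]
      push_cast
      omega
    set P : (Germ (U : Filter ℕ) ℂ)[X] := ∑ m ∈ Finset.range (D + 1), C (a m) * X ^ m with hP
    have hPc : ∀ m, P.coeff m = if m ∈ Finset.range (D + 1) then a m else 0 := by
      intro m
      rw [hP]
      simp only [finsetSum_coeff, coeff_C_mul, coeff_X_pow, mul_ite, mul_one, mul_zero]
      rw [Finset.sum_ite_eq]
    refine alg_root (P := P) ?_ ?_ ?_
    · obtain ⟨m, hm⟩ : ∃ m : Fin (D + 1), ∀ᶠ j in (U : Filter ℕ), (f j).coeff m ≠ 0 := by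
        apply Ultrafilter.eventually_exists_iff.1
        refine Eventually.of_forall fun j => ?_
        refine ⟨⟨(f j).natDegree, by have := hfD j; omega⟩, ?_⟩
        exact leadingCoeff_ne_zero.2 (hf0 j)
      intro h0
      have h1 := hPc m
      rw [h0, coeff_zero, if_pos (Finset.mem_range.2 m.2)] at h1
      have h2 := germ_zero.1 h1.symm
      obtain ⟨j, h3, h4⟩ := (hm.and h2).exists
      exact h3 h4
    · intro m
      rw [hPc]
      split_ifs with hm
      · exact haa m
      · exact isAlgebraic_zero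
    · rw [hP, map_sum]
      have h1 : ∀ m, aeval (Germ.coeRingHom (U : Filter ℕ) z) (C (a m) * X ^ m) =
          Germ.coeRingHom (U : Filter ℕ) (fun j => (f j).coeff m * z j ^ m) := by
        intro m
        rw [map_mul, aeval_C, map_pow, aeval_X, ← map_pow]
        show Germ.coeRingHom (U : Filter ℕ) (fun j => (f j).coeff m) * _ = _
        rw [← map_mul]
        rfl
      rw [Finset.sum_congr rfl fun m _ => h1 m, ← map_sum, germ_zero]
      refine Eventually.of_forall fun j => ?_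
      rw [Finset.sum_apply]
      have h3 : (f j).eval (z j) = 0 := hz j
      rw [eval_eq_sum_range' (Nat.lt_succ_of_le (hfD j))] at h3
      exact h3
  obtain ⟨D₁, c, hDc⟩ := germ_ext halg
  have hj := hUa (eventually_ge_atTop (D₁ + (c + 2 * D₁ + 1)))
  obtain ⟨j, h1, h2⟩ := (hDc.and hj).exists
  apply hnot j
  refine h1.near.mono (by omega) ?_
  have h3 : 2 ^ D₁ ≤ (h j + 2) ^ D₁ := Nat.pow_le_pow_left (by omega) _
  have h4 : D₁ + 1 ≤ (h j + 2) ^ (D₁ + 1) :=
    (Nat.lt_two_pow_self (n := D₁ + 1)).le.trans (Nat.pow_le_pow_left (by omega) _)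
  calc 2 ^ D₁ * ((D₁ + 1) * (h j + 2) ^ c) ≤ (h j + 2) ^ D₁ * ((h j + 2) ^ (D₁ + 1) * (h j + 2) ^ c) :=
        Nat.mul_le_mul h3 (Nat.mul_le_mul_right _ h4)
    _ = (h j + 2) ^ (D₁ + (D₁ + 1 + c)) := by rw [← pow_add, ← pow_add]
    _ ≤ (h j + 2) ^ j := Nat.pow_le_pow_right (by omega) (by omega)

end Pool.Agent.K3h1.LA
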