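import Mathlib
import Pool.Agent.K3h1.LA.Pr
import Pool.Agent.K3h1.LA.Tc

/-!
# The roots of a family of polynomials with algebraic coefficients
-/

set_option autoImplicit false

open Polynomial

namespace Pool.Agent.K3h1.LA

open Filter Pool.Agent.K3h1.LM

/-- families of `K` polynomials with algebraic coefficients of degree at most `D` and height at most `h`, which are not
constant, of degree at most `D`, squarefree and pairwise coprime -/
def FamP {K : ℕ} (D h : ℕ) (f : Fin K → ℂ[X]) : Prop :=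
  (∀ s, 1 ≤ (f s).natDegree ∧ (f s).natDegree ≤ D) ∧ (∀ s m, IsA D h ((f s).coeff m)) ∧ Squarefree (∏ s, f s)

theorem IsA.norm_lt {D h : ℕ} {z : ℂ} (hz : IsA D h z) : ‖z‖ < h + 1 := by
  obtain ⟨g, h1, -, h2, h3⟩ := hz
  exact root_norm h1 h2 h3

theorem IsA.inv_norm_lt {D h : ℕ} {z : ℂ} (hz : IsA D h z) (h0 : z ≠ 0) : ‖z‖⁻¹ < h + 1 := by
  obtain ⟨g, h1, -, h2, h3⟩ := hz
  rw [← norm_inv]
  refine root_norm (f := g.reverse) (by rwa [Ne, reverse_eq_zero]) (fun l => ?_) ?_
  · rw [coeff_reverse]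
    exact h2 _
  · rw [aeval_def] at h3 ⊢
    let _ := invertibleOfNonzero h0
    rw [← invOf_eq_inv]
    exact (eval₂_reverse_eq_zero_iff _ _ g).2 h3

theorem near_nat {m : ℕ} {D h : ℕ} (hD : 1 ≤ D) (hm : m ≤ h) (hh : 1 ≤ h) : Near D h (m : ℂ) := by
  refine ⟨X - C (m : ℤ), ?_, ?_, fun l => ?_, ?_⟩
  · exact irreducible_X_sub_C _
  · rwa [natDegree_X_sub_C]
  · rw [coeff_sub, coeff_X, coeff_C]
    split_ifs <;> (rw [abs_le]; constructor <;> omega)
  · simp

/-- **Enumeration of the roots.** -/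
theorem FamP.exists_roots (K D : ℕ) : ∃ D' E : ℕ, ∀ (h : ℕ) (f : Fin K → ℂ[X]), FamP D h f →
    ∃ ζ : Fin (K * D) → ℂ, Function.Injective ζ ∧ (∀ x, Near D' ((h + 2) ^ E) (ζ x)) ∧
      ∀ s, f s = C (f s).leadingCoeff *
        ∏ e : Fin D, if (e : ℕ) < (f s).natDegree then X - C (ζ (finProdFinEquiv (s, e))) else 1 := by
  classical
  obtain ⟨D₁, E₁, hr⟩ := roots_near D
  refine ⟨D₁ + 1, E₁ + (2 * (K * D) + 1), fun h f hf => ?_⟩
  obtain ⟨hdeg, hco, hsq⟩ := hf
  have hf0 : ∀ s, f s ≠ 0 := by
    intro s h0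
    have := (hdeg s).1
    rw [h0, natDegree_zero] at this
    omega
  have hsqs : ∀ s, Squarefree (f s) := fun s => hsq.squarefree_of_dvd (Finset.dvd_prod_of_mem _ (Finset.mem_univ s))
  have hnd : ∀ s, (f s).roots.Nodup := fun s => nodup_roots (PerfectField.separable_iff_squarefree.2 (hsqs s))
  have hcard : ∀ s, (f s).roots.card = (f s).natDegree := fun s => ((IsAlgClosed.splits _).natDegree_eq_card_roots).symm
  -- no common roots
  have hdisj : ∀ s s' z, s ≠ s' → (f s).IsRoot z → (f s').IsRoot z → False := by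
    intro s s' z hss h1 h2
    have h3 : X - C z ∣ f s := dvd_iff_isRoot.2 h1
    have h4 : X - C z ∣ ∏ i ∈ Finset.univ.erase s, f i :=
      (dvd_iff_isRoot.2 h2).trans (Finset.dvd_prod_of_mem _ (Finset.mem_erase.2 ⟨Ne.symm hss, Finset.mem_univ _⟩))
    have h5 : (X - C z) * (X - C z) ∣ ∏ i, f i := by
      rw [← Finset.mul_prod_erase Finset.univ f (Finset.mem_univ s)]
      exact mul_dvd_mul h3 h4
    exact not_isUnit_X_sub_C z (hsq _ h5)
  -- enumeration of the roots
  have henum : ∀ s, ∃ Θ : Fin (f s).natDegree → ℂ, Finset.univ.val.map Θ = (f s).roots := by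
    intro s
    rw [← hcard s]
    generalize (f s).roots = m
    induction m using Quot.inductionOn with
    | h l =>
      refine ⟨l.get, ?_⟩
      show Finset.univ.val.map l.get = ((l : List ℂ) : Multiset ℂ)
      rw [Fin.univ_val_map]
      congr 1
      exact List.ofFn_get l
  choose Θ hΘ using henum
  have hΘi : ∀ s, Function.Injective (Θ s) := by
    intro s i i' hii
    have h1 := hnd s
    rw [← hΘ s] at h1
    exact Multiset.inj_on_of_nodup_map h1 i (Finset.mem_univ_val i) i' (Finset.mem_univ_val i') hii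
  have hΘr : ∀ s i, (f s).IsRoot (Θ s i) := by
    intro s i
    have h1 : Θ s i ∈ (f s).roots := by
      rw [← hΘ s]
      exact Multiset.mem_map_of_mem _ (Finset.mem_univ_val i)
    exact isRoot_of_mem_roots h1
  -- the pads
  set R : Finset ℂ := Finset.univ.biUnion fun s => (f s).roots.toFinset with hR
  have hRc : R.card ≤ K * D := by
    refine (Finset.card_biUnion_le_card_mul _ _ D fun s _ => ?_).trans ?_
    · exact (Multiset.toFinset_card_le _).trans ((hcard s).le.trans (hdeg s).2)
    · rw [Finset.card_univ, Fintype.card_fin]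
  set N : Finset ℕ := (Finset.range (2 * (K * D) + 1)).filter fun m => (m : ℂ) ∉ R with hN
  have hNc : K * D ≤ N.card := by
    have h1 := Finset.card_filter_add_card_filter_not (s := Finset.range (2 * (K * D) + 1)) (fun m : ℕ => (m : ℂ) ∉ R)
    have h2 : ((Finset.range (2 * (K * D) + 1)).filter fun m : ℕ => ¬ (m : ℂ) ∉ R).card ≤ R.card := by
      refine Finset.card_le_card_of_injOn (fun m : ℕ => (m : ℂ)) (fun m hm => ?_) (Nat.cast_injective.injOn)
      have h3 := (Finset.mem_filter.1 hm).2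
      rwa [not_not] at h3
    rw [Finset.card_range, ← hN] at h1
    omega
  obtain ⟨pad⟩ : Nonempty (Fin (K * D) ↪ N) := Function.Embedding.nonempty_of_card_le (by
    rw [Fintype.card_fin, Fintype.card_coe]
    exact hNc)
  have hpadR : ∀ x, (((pad x : ℕ)) : ℂ) ∉ R := fun x => (Finset.mem_filter.1 (pad x).2).2
  have hpadN : ∀ x, (pad x : ℕ) ≤ 2 * (K * D) := fun x => by
    have := Finset.mem_range.1 (Finset.mem_filter.1 (pad x).2).1
    omega
  set ζ : Fin (K * D) → ℂ := fun x =>
    if hx : ((finProdFinEquiv.symm x).2 : ℕ) < (f (finProdFinEquiv.symm x).1).natDegree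
      then Θ (finProdFinEquiv.symm x).1 ⟨(finProdFinEquiv.symm x).2, hx⟩ else ((pad x : ℕ) : ℂ) with hζ
  have hζR : ∀ x, ((finProdFinEquiv.symm x).2 : ℕ) < (f (finProdFinEquiv.symm x).1).natDegree →
      (f (finProdFinEquiv.symm x).1).IsRoot (ζ x) := by
    intro x hx
    rw [hζ]
    simp only
    rw [dif_pos hx]
    exact hΘr _ _
  have hmemR : ∀ s z, (f s).IsRoot z → z ∈ R := by
    intro s z hz
    rw [hR, Finset.mem_biUnion]
    exact ⟨s, Finset.mem_univ _, by rw [Multiset.mem_toFinset, mem_roots (hf0 s)]; exact hz⟩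
  refine ⟨ζ, ?_, ?_, ?_⟩
  · intro x y hxy
    by_cases hx : ((finProdFinEquiv.symm x).2 : ℕ) < (f (finProdFinEquiv.symm x).1).natDegree
    · by_cases hy : ((finProdFinEquiv.symm y).2 : ℕ) < (f (finProdFinEquiv.symm y).1).natDegree
      · have h1 : (finProdFinEquiv.symm x).1 = (finProdFinEquiv.symm y).1 := by
          by_contra hne
          exact hdisj _ _ (ζ x) hne (hζR x hx) (by rw [hxy]; exact hζR y hy)
        have h2 : ζ x = Θ (finProdFinEquiv.symm x).1 ⟨(finProdFinEquiv.symm x).2, hx⟩ := dif_pos hx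
        have h3 : ζ y = Θ (finProdFinEquiv.symm y).1 ⟨(finProdFinEquiv.symm y).2, hy⟩ := dif_pos hy
        rw [h2, h3] at hxy
        clear h2 h3
        apply finProdFinEquiv.symm.injective
        refine Prod.ext h1 ?_
        revert hxy hx hy h1
        generalize finProdFinEquiv.symm x = p
        generalize finProdFinEquiv.symm y = q
        obtain ⟨s, e⟩ := p
        obtain ⟨s', e'⟩ := q
        intro hx hy hxy h1
        obtain rfl : s = s' := h1
        have h4 := hΘi s hxy
        exact Fin.ext (Fin.mk.inj h4)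
      · exfalso
        have h3 : ζ y = ((pad y : ℕ) : ℂ) := dif_neg hy
        apply hpadR y
        rw [← h3, ← hxy]
        exact hmemR _ _ (hζR x hx)
    · by_cases hy : ((finProdFinEquiv.symm y).2 : ℕ) < (f (finProdFinEquiv.symm y).1).natDegree
      · exfalso
        have h3 : ζ x = ((pad x : ℕ) : ℂ) := dif_neg hx
        apply hpadR x
        rw [← h3, hxy]
        exact hmemR _ _ (hζR y hy)
      · have h2 : ζ x = ((pad x : ℕ) : ℂ) := dif_neg hx
        have h3 : ζ y = ((pad y : ℕ) : ℂ) := dif_neg hy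
        rw [h2, h3] at hxy
        exact pad.injective (Subtype.ext (by exact_mod_cast hxy))
  · intro x
    by_cases hx : ((finProdFinEquiv.symm x).2 : ℕ) < (f (finProdFinEquiv.symm x).1).natDegree
    · refine (hr h _ (hf0 _) (hdeg _).2 (hco _) _ (hζR x hx)).mono (by omega) ?_
      exact Nat.pow_le_pow_right (by omega) (by omega)
    · have h3 : ζ x = ((pad x : ℕ) : ℂ) := dif_neg hx
      rw [h3]
      have h4 : 2 * (K * D) + 1 ≤ (h + 2) ^ (E₁ + (2 * (K * D) + 1)) :=
        (Nat.lt_two_pow_self (n := 2 * (K * D) + 1)).le.trans ((Nat.pow_le_pow_left (by omega) _).trans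
          (Nat.pow_le_pow_right (by omega) (by omega)))
      exact near_nat (by omega) ((hpadN x).trans (by omega)) (by omega)
  · intro s
    have h1 := C_leadingCoeff_mul_prod_multiset_X_sub_C (hcard s)
    conv_lhs => rw [← h1]
    congr 1
    rw [← hΘ s, Multiset.map_map]
    show ∏ i : Fin (f s).natDegree, (X - C (Θ s i)) = _
    set r' : ℕ → ℂ[X] := fun e => if he : e < (f s).natDegree then X - C (Θ s ⟨e, he⟩) else 1 with hr'
    have h2 : ∏ i : Fin (f s).natDegree, (X - C (Θ s i)) = ∏ e ∈ Finset.range (f s).natDegree, r' e := by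
      rw [Finset.prod_range]
      refine Finset.prod_congr rfl fun i _ => ?_
      rw [hr']
      simp only
      rw [dif_pos i.2]
    have h3 : (∏ e : Fin D, if (e : ℕ) < (f s).natDegree then X - C (ζ (finProdFinEquiv (s, e))) else 1) =
        ∏ e ∈ Finset.range D, r' e := by
      rw [Finset.prod_range]
      refine Finset.prod_congr rfl fun e _ => ?_
      rw [hr']
      simp only
      by_cases he : (e : ℕ) < (f s).natDegree
      · rw [if_pos he, dif_pos he]
        have h5 : ∀ q : Fin K × Fin D, q = (s, e) → (if hx : (q.2 : ℕ) < (f q.1).natDegree then Θ q.1 ⟨q.2, hx⟩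
            else ((pad (finProdFinEquiv (s, e)) : ℕ) : ℂ)) = Θ s ⟨e, he⟩ := by
          rintro q rfl
          rw [dif_pos he]
        have h6 : ζ (finProdFinEquiv (s, e)) = Θ s ⟨e, he⟩ := h5 _ (Equiv.symm_apply_apply _ _)
        rw [h6]
      · rw [if_neg he, dif_neg he]
    rw [h2, h3]
    refine Finset.prod_subset (Finset.range_mono (hdeg s).2) fun e _ he => ?_
    rw [hr']
    simp only
    rw [dif_neg (by simpa using he)]

end Pool.Agent.K3h1.LA
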