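import Mathlib
import Pool.Agent.K3h1.LA.Py

/-!
# Values of polynomials with algebraic coefficients near the elements of large sets of integers
-/

set_option autoImplicit false

namespace Pool.Agent.K3h1.LA

open Filter Finset Pool.Agent.R351.GF Pool.Agent.Y916 Pool.Agent.Y535.LG Pool.Agent.K3h1.LM
open Polynomial (X C)

theorem log_norm_le {z : ℂ} {B : ℝ} (h : |Real.log ‖z‖| ≤ B) : ‖Complex.log z‖ ≤ B + 4 := by
  have h1 := Complex.norm_le_abs_re_add_abs_im (Complex.log z)
  rw [Complex.log_re, Complex.log_im] at h1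
  have h2 := Complex.abs_arg_le_pi z
  have h3 := Real.pi_le_four
  linarith

theorem abs_log_le {x B : ℝ} (hx : 0 < x) (h1 : x ≤ B) (h2 : x⁻¹ ≤ B) : |Real.log x| ≤ Real.log B := by
  have hB : 0 < B := hx.trans_le h1
  rw [abs_le]
  constructor
  · have h3 := Real.log_le_log (inv_pos.2 hx) h2
    rw [Real.log_inv] at h3
    linarith
  · exact Real.log_le_log hx h1

/-- the branch -/
theorem exists_br {D : ℕ} {v c : ℂ} {w : Fin D → ℂ} {p : Fin D → Prop} [DecidablePred p] (hc : c ≠ 0)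
    (hw : ∀ e, w e ≠ 0) (hv : v = c * ∏ e, if p e then w e else 1) :
    ∃ b : ℤ, |b| ≤ D + 2 ∧ Complex.log v = Complex.log c + (∑ e, if p e then Complex.log (w e) else 0) +
      b * (2 * Real.pi * Complex.I) := by
  classical
  have hP : (∏ e, if p e then w e else 1) ≠ 0 := by
    refine Finset.prod_ne_zero_iff.2 fun e _ => ?_
    split_ifs
    · exact hw e
    · exact one_ne_zero
  have hv0 : v ≠ 0 := by
    rw [hv]
    exact mul_ne_zero hc hP
  have h1 : Complex.exp (Complex.log v) =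
      Complex.exp (Complex.log c + ∑ e, if p e then Complex.log (w e) else 0) := by
    rw [Complex.exp_log hv0, Complex.exp_add, Complex.exp_log hc, Complex.exp_sum, hv]
    congr 1
    refine Finset.prod_congr rfl fun e _ => ?_
    split_ifs
    · rw [Complex.exp_log (hw e)]
    · rw [Complex.exp_zero]
  obtain ⟨b, hb⟩ := Complex.exp_eq_exp_iff_exists_int.1 h1
  refine ⟨b, ?_, hb⟩
  have h2 : (Complex.log v).im = (Complex.log c).im + (∑ e, if p e then (Complex.log (w e)).im else 0) +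
      b * (2 * Real.pi) := by
    have h3 := congrArg Complex.im hb
    rw [Complex.add_im, Complex.add_im, Complex.im_sum] at h3
    rw [h3]
    congr 1
    · congr 1
      refine Finset.sum_congr rfl fun e _ => ?_
      split_ifs <;> rfl
    · simp
  have hpi : 0 < Real.pi := Real.pi_pos
  have h4 : ∀ z : ℂ, |(Complex.log z).im| ≤ Real.pi := fun z => by
    rw [Complex.log_im]
    exact Complex.abs_arg_le_pi z
  have h5 : |∑ e, if p e then (Complex.log (w e)).im else 0| ≤ D * Real.pi := by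
    refine (Finset.abs_sum_le_sum_abs _ _).trans ?_
    refine (Finset.sum_le_card_nsmul _ _ Real.pi fun e _ => ?_).trans ?_
    · split_ifs
      · exact h4 _
      · rw [abs_zero]
        exact hpi.le
    · rw [Finset.card_univ, Fintype.card_fin, nsmul_eq_mul]
  have h6 : |(b : ℝ) * (2 * Real.pi)| ≤ (D + 2) * Real.pi := by
    have h7 : (b : ℝ) * (2 * Real.pi) = (Complex.log v).im - (Complex.log c).im -
      ∑ e, (if p e then (Complex.log (w e)).im else 0) := by linarith
    rw [h7]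
    have h8 := abs_sub ((Complex.log v).im - (Complex.log c).im) (∑ e, if p e then (Complex.log (w e)).im else 0)
    have h9 := abs_sub (Complex.log v).im (Complex.log c).im
    have h10 := h4 v
    have h11 := h4 c
    linarith
  rw [abs_mul, abs_of_pos (by positivity : 0 < 2 * Real.pi)] at h6
  have h7 : |(b : ℝ)| * 2 ≤ D + 2 := by
    have h8 : |(b : ℝ)| * 2 * Real.pi ≤ (D + 2) * Real.pi := by linarith
    exact le_of_mul_le_mul_right h8 hpi
  have h8 : |(b : ℝ)| ≤ D + 2 := by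
    have := abs_nonneg (b : ℝ)
    linarith
  exact_mod_cast h8

variable (U : Ultrafilter ℕ) (H T : ℕ → ℕ)

/-- **Values of polynomials at an element of large sets.** -/
theorem exists_goodP {K D : ℕ} (hT : Tendsto T U atTop) (hTH : ∀ᶠ j in (U : Filter ℕ), T j ≤ H j)
    (f : ℕ → Fin K → Polynomial ℂ) (h : ℕ → ℕ)
    (hf : ∀ᶠ j in (U : Filter ℕ), FamP D (h j) (f j))
    (hh : ∀ E : ℕ, ∀ᶠ j in (U : Filter ℕ), (h j + 2) ^ E ≤ T j)
    (A : ℕ → Finset ℕ) (hA : ∀ j, A j ⊆ Ioc 0 (T j))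
    (hL : ∀ c : ℝ, 0 < c → ∀ᶠ j in (U : Filter ℕ), (T j : ℝ) ^ (1 - c) < (A j).card)
    (S : Set (Fl U H)) (hS : S.Finite) :
    ∃ a : ℕ → ℕ, (∀ᶠ j in (U : Filter ℕ), a j ∈ A j) ∧
      (∀ᶠ j in (U : Filter ℕ), ∀ s, ‖Complex.log ((f j s).eval (a j : ℂ))‖ ≤ gr H j) ∧ ∀ s : Fin K,
      tzc U H (fun j => Complex.log ((f j s).eval (a j : ℂ))) ∉ acl (Zs U H)
        (S ∪ (fun s' => tzc U H (fun j => Complex.log ((f j s').eval (a j : ℂ)))) '' {s' | s' < s}) := by
  classical
  have hTr : Tendsto (fun j => (T j : ℝ)) U atTop := tendsto_natCast_atTop_atTop.comp hT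
  have hH : Tendsto H U atTop := tendsto_atTop_mono' _ hTH hT
  obtain ⟨D', E, hroots⟩ := FamP.exists_roots K D
  have hζ : ∀ j, ∃ ζ : Fin (K * D) → ℂ, FamP D (h j) (f j) → (Function.Injective ζ ∧
      (∀ x, Near D' ((h j + 2) ^ E) (ζ x)) ∧ ∀ s, f j s = C (f j s).leadingCoeff *
        ∏ e : Fin D, if (e : ℕ) < (f j s).natDegree then X - C (ζ (finProdFinEquiv (s, e))) else 1) := by
    intro j
    by_cases h1 : FamP D (h j) (f j)
    · obtain ⟨ζ, h2⟩ := hroots (h j) (f j) h1
      exact ⟨ζ, fun _ => h2⟩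
    · exact ⟨0, fun h2 => absurd h2 h1⟩
  choose ζ hζ using hζ
  -- the degrees
  obtain ⟨δ, hδ⟩ : ∃ δ : Fin K → Fin (D + 1), ∀ᶠ j in (U : Filter ℕ), ∀ s, (f j s).natDegree = δ s := by
    apply Ultrafilter.eventually_exists_iff.1
    filter_upwards [hf] with j hj
    exact ⟨fun s => ⟨(f j s).natDegree, by have := (hj.1 s).2; omega⟩, fun s => rfl⟩
  have hδ1 : ∀ s, 1 ≤ (δ s : ℕ) ∧ (δ s : ℕ) ≤ D := by
    intro s
    obtain ⟨j, h1, h2⟩ := (hf.and hδ).exists
    rw [← h2 s]
    exact h1.1 s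
  set h' : ℕ → ℕ := fun j => (h j + 2) ^ E with hh'
  have hh'g : ∀ E' : ℕ, ∀ᶠ j in (U : Filter ℕ), (h' j + 2) ^ E' ≤ T j := by
    intro E'
    filter_upwards [hh ((E + 2) * E')] with j hj
    refine le_trans ?_ hj
    rw [pow_mul]
    refine Nat.pow_le_pow_left ?_ _
    have h4 : 1 ≤ (h j + 2) ^ E := Nat.one_le_pow _ _ (by omega)
    have h5 : (h j + 2) ^ (E + 2) = (h j + 2) ^ E * ((h j + 2) * (h j + 2)) := by ring
    have h6 : 4 ≤ (h j + 2) * (h j + 2) := Nat.mul_le_mul (by omega : 2 ≤ h j + 2) (by omega : 2 ≤ h j + 2)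
    have h7 : (h j + 2) ^ E * 4 ≤ (h j + 2) ^ E * ((h j + 2) * (h j + 2)) := Nat.mul_le_mul_left _ h6
    rw [h5]
    show (h j + 2) ^ E + 2 ≤ _
    omega
  -- the large elements
  set A' : ℕ → Finset ℕ := fun j => (A j).filter fun a => (h' j + 2) ^ 2 ≤ a with hA'
  have hL' : ∀ c : ℝ, 0 < c → ∀ᶠ j in (U : Filter ℕ), (T j : ℝ) ^ (1 - c) < (A' j).card := by
    intro c hc
    set c' : ℝ := min c (1 / 2) / 2 with hc'
    have hc'0 : 0 < c' := by
      rw [hc']
      have : 0 < min c (1 / 2) := lt_min hc (by norm_num)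
      linarith
    have hc'1 : 2 * c' ≤ c := by
      have := min_le_left c (1 / 2)
      rw [hc']
      linarith
    have hc'2 : 2 * c' ≤ 1 / 2 := by
      have := min_le_right c (1 / 2)
      rw [hc']
      linarith
    filter_upwards [hL c' hc'0, hTr.eventually_ge_atTop 1, hh'g 4,
      ((tendsto_rpow_atTop hc'0).comp hTr).eventually_ge_atTop 2] with j h1 h2 h3 h4
    have ht0 : (0 : ℝ) < T j := by linarith
    have h5 : (A j).card ≤ (A' j).card + (h' j + 2) ^ 2 := by
      have h6 := Finset.card_filter_add_card_filter_not (s := A j) (fun a => (h' j + 2) ^ 2 ≤ a)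
      have h7 : ((A j).filter fun a => ¬ (h' j + 2) ^ 2 ≤ a).card ≤ (h' j + 2) ^ 2 := by
        refine (Finset.card_le_card (t := range ((h' j + 2) ^ 2)) fun a ha => ?_).trans (Finset.card_range _).le
        rw [Finset.mem_range]
        exact not_le.1 (Finset.mem_filter.1 ha).2
      have h8 : (A' j).card = ((A j).filter fun a => (h' j + 2) ^ 2 ≤ a).card := rfl
      omega
    have h6 : (((h' j + 2) ^ 2 : ℕ) : ℝ) ≤ (T j : ℝ) ^ (1 / 2 : ℝ) := by
      rw [← Real.sqrt_eq_rpow]
      apply Real.le_sqrt_of_sq_le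
      have h7 : ((h' j + 2) ^ 2) ^ 2 ≤ T j := by
        rw [← pow_mul]
        exact h3
      exact_mod_cast h7
    have h7 : (T j : ℝ) ^ (1 / 2 : ℝ) ≤ (T j : ℝ) ^ (1 - 2 * c') :=
      Real.rpow_le_rpow_of_exponent_le h2 (by linarith)
    have h8 : (T j : ℝ) ^ (1 - c) ≤ (T j : ℝ) ^ (1 - 2 * c') :=
      Real.rpow_le_rpow_of_exponent_le h2 (by linarith)
    have h9 : (T j : ℝ) ^ (1 - c') = (T j : ℝ) ^ c' * (T j : ℝ) ^ (1 - 2 * c') := by
      rw [← Real.rpow_add ht0]
      congr 1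
      ring
    have h10 : (0 : ℝ) < (T j : ℝ) ^ (1 - 2 * c') := Real.rpow_pos_of_pos ht0 _
    have h4' : 2 ≤ (T j : ℝ) ^ c' := h4
    have h11 : 2 * (T j : ℝ) ^ (1 - 2 * c') ≤ (T j : ℝ) ^ (1 - c') := by
      rw [h9]
      exact mul_le_mul_of_nonneg_right h4' h10.le
    have h12 : ((A j).card : ℝ) ≤ (A' j).card + (((h' j + 2) ^ 2 : ℕ) : ℝ) := by exact_mod_cast h5
    linarith
  -- the constants
  set τ : Fl U H := tzc U H (fun _ => 2 * Real.pi * Complex.I) with hτ
  set κ : Fin K → Fl U H := fun s => tzc U H (fun j => Complex.log (f j s).leadingCoeff) with hκ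
  set S' : Set (Fl U H) := S ∪ ({τ} ∪ Set.range κ) with hS'
  obtain ⟨a, haA, hav, hat⟩ := exists_goodN U H T (K := K * D) (D := D') hT hTH ζ h' (by
      filter_upwards [hf] with j hj
      exact ⟨(hζ j hj).1, (hζ j hj).2.1⟩) hh'g A' (fun j => (Finset.filter_subset _ _).trans (hA j)) hL' S'
      (hS.union ((Set.finite_singleton _).union (Set.finite_range _)))
  have haA1 : ∀ᶠ j in (U : Filter ℕ), a j ∈ A j := haA.mono fun j hj => (Finset.mem_filter.1 hj).1
  have haT : ∀ᶠ j in (U : Filter ℕ), a j ≤ T j := haA1.mono fun j hj => (Finset.mem_Ioc.1 (hA j hj)).2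
  have habig : ∀ᶠ j in (U : Filter ℕ), 2 * (h' j + 1) ≤ a j := by
    filter_upwards [haA] with j hj
    have h1 := (Finset.mem_filter.1 hj).2
    nlinarith
  have hlc0 : ∀ᶠ j in (U : Filter ℕ), ∀ s, (f j s).leadingCoeff ≠ 0 := by
    filter_upwards [hf] with j hj s
    rw [Ne, Polynomial.leadingCoeff_eq_zero]
    intro h0
    have := (hj.1 s).1
    rw [h0, Polynomial.natDegree_zero] at this
    omega
  have hlcn : ∀ᶠ j in (U : Filter ℕ), ∀ s, |Real.log ‖(f j s).leadingCoeff‖| ≤ Real.log (2 * T j) := by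
    filter_upwards [hf, hlc0, hh 1] with j hj h1 h2 s
    rw [pow_one] at h2
    have h3 : ((h j : ℝ) + 2) ≤ T j := by exact_mod_cast h2
    have h4 : (0 : ℝ) ≤ h j := Nat.cast_nonneg _
    have h5 := (hj.2.1 s (f j s).natDegree).norm_lt
    have h6 := (hj.2.1 s (f j s).natDegree).inv_norm_lt (h1 s)
    refine abs_log_le (norm_pos_iff.2 (h1 s)) ?_ ?_
    · have : ‖(f j s).leadingCoeff‖ = ‖(f j s).coeff (f j s).natDegree‖ := rfl
      linarith
    · have : ‖(f j s).leadingCoeff‖⁻¹ = ‖(f j s).coeff (f j s).natDegree‖⁻¹ := rfl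
      linarith
  have hne : ∀ᶠ j in (U : Filter ℕ), ∀ x, (a j : ℂ) - ζ j x ≠ 0 ∧
      |Real.log ‖(a j : ℂ) - ζ j x‖| ≤ Real.log (2 * T j) := by
    filter_upwards [hf, habig, haT] with j hj h1 h2 x
    have h3 := ((hζ j hj).2.1 x).norm_lt
    have h4 : (2 * ((h' j : ℝ) + 1)) ≤ a j := by exact_mod_cast h1
    have h5 : (a j : ℝ) ≤ T j := by exact_mod_cast h2
    have h0 : (0 : ℝ) ≤ h' j := Nat.cast_nonneg _
    have h6 := norm_sub_norm_le (a j : ℂ) (ζ j x)
    have h7 := norm_sub_le (a j : ℂ) (ζ j x)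
    rw [Complex.norm_natCast] at h6 h7
    have h3' : ‖ζ j x‖ < (h' j : ℝ) + 1 := h3
    have h8 : 1 ≤ ‖(a j : ℂ) - ζ j x‖ := by linarith
    refine ⟨norm_pos_iff.1 (by linarith), abs_log_le (by linarith) (by linarith) ?_⟩
    refine (inv_le_one_of_one_le₀ h8).trans ?_
    linarith
  have hTlog : ∀ᶠ j in (U : Filter ℕ), (D + 1) * Real.log (2 * T j) + 4 ≤ T j := by
    have h1 : ∀ᶠ x : ℝ in atTop, ‖Real.log x‖ ≤ (1 / (4 * (D + 1)) : ℝ) * ‖id x‖ :=
      Real.isLittleO_log_id_atTop.def (by positivity)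
    have h2 : Tendsto (fun j => 2 * (T j : ℝ)) U atTop := hTr.const_mul_atTop (by norm_num)
    filter_upwards [h2.eventually h1, hTr.eventually_ge_atTop 8] with j h3 h4
    rw [id, Real.norm_eq_abs, Real.norm_eq_abs, abs_of_nonneg (by positivity : (0 : ℝ) ≤ 2 * T j)] at h3
    have h5 := (le_abs_self _).trans h3
    have h6 : ((D : ℝ) + 1) * Real.log (2 * T j) ≤ (D + 1) * (1 / (4 * (D + 1)) * (2 * T j)) :=
      mul_le_mul_of_nonneg_left h5 (by positivity)
    have h7 : ((D : ℝ) + 1) * (1 / (4 * (D + 1)) * (2 * T j)) = T j / 2 := by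
      field_simp
      ring
    linarith
  have hfac : ∀ᶠ j in (U : Filter ℕ), ∀ s, (f j s).eval (a j : ℂ) = (f j s).leadingCoeff *
      ∏ e : Fin D, if (e : ℕ) < δ s then (a j : ℂ) - ζ j (finProdFinEquiv (s, e)) else 1 := by
    filter_upwards [hf, hδ] with j hj h1 s
    have h2 := congrArg (Polynomial.eval (a j : ℂ)) ((hζ j hj).2.2 s)
    rw [Polynomial.eval_mul, Polynomial.eval_C, Polynomial.eval_prod] at h2
    rw [h2]
    congr 1
    refine Finset.prod_congr rfl fun e _ => ?_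
    rw [h1 s]
    split_ifs
    · rw [Polynomial.eval_sub, Polynomial.eval_X, Polynomial.eval_C]
    · rw [Polynomial.eval_one]
  -- the size of the values
  have hval : ∀ᶠ j in (U : Filter ℕ), ∀ s, ‖Complex.log ((f j s).eval (a j : ℂ))‖ ≤ gr H j := by
    filter_upwards [hfac, hne, hlcn, hTlog, hTH, hlc0, hTr.eventually_ge_atTop 1] with j h1 h2 h3 h4 h5 h6 h0 s
    have h7 : |Real.log ‖(f j s).eval (a j : ℂ)‖| ≤ (D + 1) * Real.log (2 * T j) := by
      rw [h1 s, norm_mul, norm_prod, Real.log_mul (norm_ne_zero_iff.2 (h6 s)), Real.log_prod]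
      · have h8 : |∑ e : Fin D, Real.log ‖if (e : ℕ) < δ s then (a j : ℂ) - ζ j (finProdFinEquiv (s, e)) else 1‖| ≤
            D * Real.log (2 * T j) := by
          refine (Finset.abs_sum_le_sum_abs _ _).trans ?_
          refine (Finset.sum_le_card_nsmul _ _ (Real.log (2 * T j)) fun e _ => ?_).trans ?_
          · split_ifs
            · exact (h2 _).2
            · rw [norm_one, Real.log_one, abs_zero]
              exact Real.log_nonneg (by linarith)
          · rw [Finset.card_univ, Fintype.card_fin, nsmul_eq_mul]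
        have h9 := abs_add_le (Real.log ‖(f j s).leadingCoeff‖)
          (∑ e : Fin D, Real.log ‖if (e : ℕ) < δ s then (a j : ℂ) - ζ j (finProdFinEquiv (s, e)) else 1‖)
        have h10 := h3 s
        linarith
      · intro e _
        rw [norm_ne_zero_iff]
        split_ifs
        · exact (h2 _).1
        · exact one_ne_zero
      · rw [Finset.prod_ne_zero_iff]
        intro e _
        rw [norm_ne_zero_iff]
        split_ifs
        · exact (h2 _).1
        · exact one_ne_zero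
    have h8 := log_norm_le h7
    have h9 : (T j : ℝ) ≤ H j := by exact_mod_cast h5
    unfold gr
    linarith
  have hlcg : ∀ᶠ j in (U : Filter ℕ), ∀ s, ‖Complex.log (f j s).leadingCoeff‖ ≤ gr H j := by
    filter_upwards [hlcn, hTlog, hTH, hTr.eventually_ge_atTop 1] with j h3 h4 h5 h0 s
    have h8 := log_norm_le (h3 s)
    have h9 : (T j : ℝ) ≤ H j := by exact_mod_cast h5
    have h10 : 0 ≤ Real.log (2 * T j) := Real.log_nonneg (by linarith)
    have h11 : (0 : ℝ) ≤ D * Real.log (2 * T j) := by positivity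
    unfold gr
    linarith
  have hτg : ∀ᶠ j in (U : Filter ℕ), ‖(2 * Real.pi * Complex.I : ℂ)‖ ≤ gr H j := by
    have hHr : Tendsto (fun j => (H j : ℝ)) U atTop := tendsto_natCast_atTop_atTop.comp hH
    filter_upwards [hHr.eventually_ge_atTop 8] with j hj
    have hpi : ‖(2 * Real.pi * Complex.I : ℂ)‖ = 2 * Real.pi := by
      rw [norm_mul, Complex.norm_I, mul_one, norm_mul, Complex.norm_real, Real.norm_eq_abs,
        abs_of_pos Real.pi_pos]
      simp
    rw [hpi]
    have h2 := Real.pi_le_four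
    unfold gr
    linarith
  -- the branches
  obtain ⟨b, hb⟩ : ∃ b : Fin K → Finset.Icc (-((D : ℤ) + 2)) (D + 2), ∀ᶠ j in (U : Filter ℕ), ∀ s,
      Complex.log ((f j s).eval (a j : ℂ)) = Complex.log (f j s).leadingCoeff +
        (∑ e : Fin D, if (e : ℕ) < δ s then Complex.log ((a j : ℂ) - ζ j (finProdFinEquiv (s, e))) else 0) +
        ((b s : ℤ) : ℂ) * (2 * Real.pi * Complex.I) := by
    apply Ultrafilter.eventually_exists_iff.1
    filter_upwards [hfac, hne, hlc0] with j h1 h2 h3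
    have h4 : ∀ s, ∃ b : ℤ, |b| ≤ D + 2 ∧ Complex.log ((f j s).eval (a j : ℂ)) =
        Complex.log (f j s).leadingCoeff +
        (∑ e : Fin D, if (e : ℕ) < δ s then Complex.log ((a j : ℂ) - ζ j (finProdFinEquiv (s, e))) else 0) +
        b * (2 * Real.pi * Complex.I) := fun s =>
      exists_br (p := fun e : Fin D => (e : ℕ) < δ s) (h3 s) (fun e => (h2 _).1) (h1 s)
    choose b hb hb2 using h4
    exact ⟨fun s => ⟨b s, Finset.mem_Icc.2 (abs_le.1 (hb s))⟩, hb2⟩
  set X' : Fin (K * D) → Fl U H := fun x => tzc U H (fun j => Complex.log ((a j : ℂ) - ζ j x)) with hX'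
  set V : Fin K → Fl U H := fun s => tzc U H (fun j => Complex.log ((f j s).eval (a j : ℂ))) with hV
  have hrel : ∀ s, V s = κ s + (∑ e : Fin D, if (e : ℕ) < δ s then X' (finProdFinEquiv (s, e)) else 0) +
      ((b s : ℤ) : Fl U H) * τ := by
    intro s
    have h1 : κ s + (∑ e : Fin D, if (e : ℕ) < δ s then X' (finProdFinEquiv (s, e)) else 0) +
        ((b s : ℤ) : Fl U H) * τ = (Ideal.Quotient.mk (ms U H)
          (tz U H (fun j => Complex.log (f j s).leadingCoeff) +
          (∑ e : Fin D, if (e : ℕ) < δ s then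
            tz U H (fun j => Complex.log ((a j : ℂ) - ζ j (finProdFinEquiv (s, e)))) else (0 : Os U H)) +
          ((b s : ℤ) : Os U H) * tz U H (fun _ => 2 * Real.pi * Complex.I)) : Fl U H) := by
      rw [map_add, map_add, map_sum, map_mul, map_intCast]
      congr 2
      refine Finset.sum_congr rfl fun e _ => ?_
      split_ifs
      · rfl
      · rw [map_zero]
    rw [h1]
    apply mk_congr
    filter_upwards [hb, hval, hlcg, hav, hτg] with j g1 g2 g3 g4 g5
    rw [evo_tz U H (g2 s), map_add, map_add, map_sum, map_mul, map_intCast, evo_tz U H (g3 s), evo_tz U H g5, g1 s]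
    congr 2
    refine Finset.sum_congr rfl fun e _ => ?_
    split_ifs
    · rw [evo_tz U H (g4 _)]
    · rw [map_zero]
  refine ⟨a, haA1, hval, fun s hcon => ?_⟩
  -- the last root of `f s`
  set top : Fin D := ⟨(δ s : ℕ) - 1, by have := hδ1 s; omega⟩ with htop
  set x : Fin (K * D) := finProdFinEquiv (s, top) with hx
  apply hat x
  set W : Set (Fl U H) := S' ∪ X' '' {x' | x' < x} with hW
  show X' x ∈ acl (Zs U H) W
  have hτW : τ ∈ acl (Zs U H) W := subset_acl (Or.inl (Or.inr (Or.inl rfl)))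
  have hκW : ∀ s, κ s ∈ acl (Zs U H) W := fun s => subset_acl (Or.inl (Or.inr (Or.inr ⟨s, rfl⟩)))
  have hltW : ∀ s' (e : Fin D), (s' < s ∨ (s' = s ∧ e < top)) → X' (finProdFinEquiv (s', e)) ∈ acl (Zs U H) W := by
    intro s' e hse
    refine subset_acl (Or.inr ⟨_, ?_, rfl⟩)
    show finProdFinEquiv (s', e) < finProdFinEquiv (s, top)
    rw [Fin.lt_def]
    simp only [finProdFinEquiv_apply_val]
    have h1 := e.2
    rcases hse with h2 | ⟨rfl, h2⟩
    · have h3 : (s' : ℕ) + 1 ≤ s := h2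
      have h4 : D * ((s' : ℕ) + 1) ≤ D * s := Nat.mul_le_mul_left _ h3
      rw [Nat.mul_add, Nat.mul_one] at h4
      omega
    · have h3 : (e : ℕ) < top := h2
      omega
  have hVW : ∀ s', s' < s → V s' ∈ acl (Zs U H) W := by
    intro s' hs'
    rw [hrel s']
    have h1 : (∑ e : Fin D, if (e : ℕ) < δ s' then X' (finProdFinEquiv (s', e)) else 0) ∈ acR (Zs U H) W := by
      refine Subring.sum_mem _ fun e _ => ?_
      split_ifs
      · exact hltW s' e (Or.inl hs')
      · exact Subring.zero_mem _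
    exact acl_add (acl_add (hκW s') h1) (acl_mul (intCast_mem (acR (Zs U H) W) _) hτW)
  have hVs : V s ∈ acl (Zs U H) W := by
    refine acl_of ?_ hcon
    rintro y (hy | ⟨s', hs', rfl⟩)
    · exact subset_acl (Or.inl (Or.inl hy))
    · exact hVW s' hs'
  have hsum : (∑ e : Fin D, if (e : ℕ) < δ s then X' (finProdFinEquiv (s, e)) else 0) = X' x +
      ∑ e ∈ Finset.univ.erase top, if (e : ℕ) < δ s then X' (finProdFinEquiv (s, e)) else 0 := by
    have h5 := Finset.add_sum_erase Finset.univ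
      (fun e : Fin D => if (e : ℕ) < δ s then X' (finProdFinEquiv (s, e)) else 0) (Finset.mem_univ top)
    rw [← h5]
    congr 1
    have h6 : (top : ℕ) < δ s := by
      show (δ s : ℕ) - 1 < δ s
      have := hδ1 s
      omega
    rw [if_pos h6]
  have h1 : (∑ e ∈ Finset.univ.erase top, if (e : ℕ) < δ s then X' (finProdFinEquiv (s, e)) else 0) ∈
      acR (Zs U H) W := by
    refine Subring.sum_mem _ fun e he => ?_
    split_ifs with hes
    · refine hltW s e (Or.inr ⟨rfl, ?_⟩)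
      have h2 := (Finset.mem_erase.1 he).1
      rw [Fin.lt_def]
      show (e : ℕ) < (δ s : ℕ) - 1
      have h3 : (e : ℕ) ≠ (δ s : ℕ) - 1 := fun h => h2 (Fin.ext h)
      omega
    · exact Subring.zero_mem _
  have h2 : X' x = V s - (κ s + (∑ e ∈ Finset.univ.erase top,
      if (e : ℕ) < δ s then X' (finProdFinEquiv (s, e)) else 0) + ((b s : ℤ) : Fl U H) * τ) := by
    rw [hrel s, hsum]
    ring
  rw [h2]
  exact acl_sub hVs (acl_add (acl_add (hκW s) h1) (acl_mul (intCast_mem (acR (Zs U H) W) _) hτW))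

end Pool.Agent.K3h1.LA
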