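import Mathlib
import Pool.Agent.K3h1.LA.Pq
import Pool.Agent.K3h1.LA.Sn

/-!
# The count at one scale for values of polynomials with algebraic coefficients
-/

set_option autoImplicit false

namespace Pool.Agent.K3h1.LA

open Filter Finset Pool.Agent.R351.GF Pool.Agent.Y916 Pool.Agent.Y535.LG Pool.Agent.K3h1.LM
open Polynomial (aeval)

variable (U : Ultrafilter ℕ) (H T : ℕ → ℕ)

/-- **Chains.** -/
theorem exists_chainQ {K D : ℕ} (hT : Tendsto T U atTop) (hTH : ∀ᶠ j in (U : Filter ℕ), T j ≤ H j)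
    (h : ℕ → ℕ) (hh : ∀ E : ℕ, ∀ᶠ j in (U : Filter ℕ), (h j + 2) ^ E ≤ T j) (k : ℕ) :
    ∀ f : Fin k → ℕ → Fin K → Polynomial ℂ, (∀ i, ∀ᶠ j in (U : Filter ℕ), FamP D (h j) (f i j)) →
    ∀ B : ℕ → Finset (Fin k → ℕ), (∀ j, B j ⊆ Fintype.piFinset fun _ => Ioc 0 (T j)) →
    (∀ c : ℝ, 0 < c → ∀ᶠ j in (U : Filter ℕ), (T j : ℝ) ^ ((k : ℝ) - c) < (B j).card) →
    ∀ S : Set (Fl U H), S.Finite →
    ∃ n : ℕ → Fin k → ℕ, (∀ᶠ j in (U : Filter ℕ), n j ∈ B j) ∧
      (∀ᶠ j in (U : Filter ℕ), ∀ i s, ‖Complex.log ((f i j s).eval (n j i : ℂ))‖ ≤ gr H j) ∧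
      ∀ i s, tzc U H (fun j => Complex.log ((f i j s).eval (n j i : ℂ))) ∉
        acl (Zs U H) (S ∪ (fun p : Fin k × Fin K =>
          tzc U H (fun j => Complex.log ((f p.1 j p.2).eval (n j p.1 : ℂ)))) '' lex i s) := by
  classical
  have hTr : Tendsto (fun j => (T j : ℝ)) U atTop := tendsto_natCast_atTop_atTop.comp hT
  induction k with
  | zero =>
    intro f hf B hB hL S hS
    have h1 : ∀ᶠ j in (U : Filter ℕ), (fun i : Fin 0 => i.elim0 : Fin 0 → ℕ) ∈ B j := by
      filter_upwards [hL 1 one_pos, hTr.eventually_ge_atTop 1] with j hj hj2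
      have h2 : (0 : ℝ) < (B j).card := lt_trans (Real.rpow_pos_of_pos (by linarith) _) hj
      have h3 : 0 < (B j).card := by exact_mod_cast h2
      obtain ⟨n, hn⟩ := Finset.card_pos.1 h3
      have : n = (fun i : Fin 0 => i.elim0 : Fin 0 → ℕ) := funext fun i => i.elim0
      rwa [← this]
    exact ⟨fun _ => fun i => i.elim0, h1, Eventually.of_forall fun j i => i.elim0, fun i => i.elim0⟩
  | succ k ih =>
    intro f hf B hB hL S hS
    have hhalf : ∀ c : ℝ, 0 < c → ∀ᶠ j in (U : Filter ℕ), 2 ≤ (T j : ℝ) ^ c := fun c hc =>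
      ((tendsto_rpow_atTop hc).comp hTr).eventually_ge_atTop 2
    -- the first coordinate
    obtain ⟨a, ha, hav, hat⟩ := exists_goodP U H T hT hTH (f 0) h (hf 0) hh
      (fun j => big (T j) (B j))
      (fun j => Finset.filter_subset _ _) (by
        intro c hc
        filter_upwards [hL (c / 2) (by positivity), hhalf (c / 2) (by positivity),
          hTr.eventually_ge_atTop 1] with j h1 h2 h3
        have ht0 : (0 : ℝ) < T j := by linarith
        have h4 : ((B j).card : ℝ) ≤ 2 * (big (T j) (B j)).card * (T j : ℝ) ^ k := by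
          exact_mod_cast card_le_big (hB j)
        have h5 : (0 : ℝ) < (T j : ℝ) ^ k := by positivity
        have h6 : (T j : ℝ) ^ (((k + 1 : ℕ) : ℝ) - c / 2) =
            (T j : ℝ) ^ (c / 2) * (T j : ℝ) ^ (1 - c) * (T j : ℝ) ^ k := by
          rw [← Real.rpow_natCast (T j : ℝ) k, ← Real.rpow_add ht0, ← Real.rpow_add ht0]
          congr 1
          push_cast
          ring
        rw [h6] at h1
        have h7 : (T j : ℝ) ^ (c / 2) * (T j : ℝ) ^ (1 - c) < 2 * (big (T j) (B j)).card :=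
          lt_of_mul_lt_mul_right (lt_of_lt_of_le h1 h4) h5.le
        have h8 : 0 < (T j : ℝ) ^ (1 - c) := Real.rpow_pos_of_pos ht0 _
        nlinarith) S hS
    -- the fibre
    set R : Set (Fl U H) := Set.range fun s : Fin K => tzc U H (fun j => Complex.log ((f 0 j s).eval (a j : ℂ))) with hR
    obtain ⟨m, hm, hmv, hmt⟩ := ih (fun i => f i.succ) (fun i => hf i.succ)
      (fun j => fib (T j) (B j) (a j)) (fun j => Finset.filter_subset _ _) (by
        intro c hc
        filter_upwards [hL (c / 2) (by positivity), hhalf (c / 2) (by positivity),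
          hTr.eventually_ge_atTop 1, ha] with j h1 h2 h3 ha
        have ht0 : (0 : ℝ) < T j := by linarith
        have h4 : ((B j).card : ℝ) ≤ 2 * T j * (fib (T j) (B j) (a j)).card := by
          exact_mod_cast (Finset.mem_filter.1 ha).2
        have h6 : (T j : ℝ) ^ (((k + 1 : ℕ) : ℝ) - c / 2) =
            (T j : ℝ) * ((T j : ℝ) ^ (c / 2) * (T j : ℝ) ^ ((k : ℝ) - c)) := by
          rw [← Real.rpow_add ht0]
          nth_rewrite 2 [← Real.rpow_one (T j : ℝ)]
          rw [← Real.rpow_add ht0]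
          congr 1
          push_cast
          ring
        rw [h6] at h1
        have h7 : (T j : ℝ) ^ (c / 2) * (T j : ℝ) ^ ((k : ℝ) - c) < 2 * (fib (T j) (B j) (a j)).card := by
          have h9 : (T j : ℝ) * ((T j : ℝ) ^ (c / 2) * (T j : ℝ) ^ ((k : ℝ) - c)) <
              (T j : ℝ) * (2 * (fib (T j) (B j) (a j)).card) := by
            refine lt_of_lt_of_le h1 (h4.trans (le_of_eq ?_))
            ring
          exact lt_of_mul_lt_mul_left h9 ht0.le
        have h8 : 0 < (T j : ℝ) ^ ((k : ℝ) - c) := Real.rpow_pos_of_pos ht0 _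
        nlinarith) (S ∪ R) (hS.union (Set.finite_range _))
    refine ⟨fun j => Fin.cons (a j) (m j), ?_, ?_, ?_⟩
    · filter_upwards [hm] with j hj
      exact (Finset.mem_filter.1 hj).2
    · filter_upwards [hav, hmv] with j h1 h2 i s
      refine Fin.cases ?_ (fun i => ?_) i
      · exact h1 s
      · exact h2 i s
    · intro i s
      refine Fin.cases ?_ (fun i => ?_) i
      · intro hcon
        apply hat s
        refine acl_mono ?_ hcon
        rintro x (hx | ⟨p, hp, rfl⟩)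
        · exact Or.inl hx
        · rcases hp with hp | ⟨hp1, hp2⟩
          · exact absurd hp (Fin.not_lt_zero _)
          · refine Or.inr ⟨p.2, hp2, ?_⟩
            simp only [hp1]
            rfl
      · intro hcon
        apply hmt i s
        refine acl_mono ?_ hcon
        rintro x (hx | ⟨⟨i', s'⟩, hp, rfl⟩)
        · exact Or.inl (Or.inl hx)
        · revert hp
          refine Fin.cases ?_ (fun i' => ?_) i'
          · intro _
            exact Or.inl (Or.inr ⟨s', rfl⟩)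
          · intro hp
            refine Or.inr ⟨(i', s'), ?_, rfl⟩
            rcases hp with hp | ⟨hp1, hp2⟩
            · exact Or.inl (Fin.succ_lt_succ_iff.1 hp)
            · exact Or.inr ⟨Fin.succ_injective _ hp1, hp2⟩

/-- the numbers, in one row -/
noncomputable def valsQ {k K : ℕ} (f : Fin k → Fin K → Polynomial ℂ) (n : Fin k → ℕ) (x : Fin (k * K)) : ℂ :=
  (f (finProdFinEquiv.symm x).1 (finProdFinEquiv.symm x).2).eval (n (finProdFinEquiv.symm x).1 : ℂ)

open Classical in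
/-- **The count at one scale**, for one family. -/
theorem scaleQ (k K D δ : ℕ) : ∃ C : ℕ, 0 < C ∧ ∀ T H h : ℕ, 1 ≤ T → T ≤ H → (h + 2) ^ C ≤ T →
    ∀ f : Fin k → Fin K → Polynomial ℂ, (∀ i, FamP D h (f i)) →
    (((Fintype.piFinset fun _ : Fin k => Ioc 0 T).filter fun n => BadC δ C H (valsQ f n)).card : ℝ) ≤
      C * (T : ℝ) ^ ((k : ℝ) - 1 / C) := by
  classical
  by_contra hcon
  push Not at hcon
  choose T H h hT hTH hhT f hf hcard using fun j : ℕ => hcon (j + 3) (by omega)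
  set U : Ultrafilter ℕ := hyperfilter ℕ with hU
  have hUa : (U : Filter ℕ) ≤ atTop := Nat.hyperfilter_le_atTop
  set B : ℕ → Finset (Fin k → ℕ) := fun j => (Fintype.piFinset fun _ : Fin k => Ioc 0 (T j)).filter
    fun n => BadC δ (j + 3) (H j) (valsQ (f j) n) with hB
  have h8 : ∀ j, 8 ≤ T j := fun j => by
    refine le_trans ?_ (hhT j)
    calc 8 = 2 ^ 3 := by norm_num
      _ ≤ 2 ^ (j + 3) := Nat.pow_le_pow_right (by norm_num) (by omega)
      _ ≤ (h j + 2) ^ (j + 3) := Nat.pow_le_pow_left (by omega) _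
  have hTj : ∀ j, j ≤ T j := by
    intro j
    have h1 : j + 3 < 2 ^ (j + 3) := Nat.lt_two_pow_self
    have h2 : 2 ^ (j + 3) ≤ (h j + 2) ^ (j + 3) := Nat.pow_le_pow_left (by omega) _
    have h3 := hhT j
    omega
  have hTt : Tendsto T U atTop := (tendsto_atTop_mono hTj tendsto_id).mono_left hUa
  have hh : ∀ E : ℕ, ∀ᶠ j in (U : Filter ℕ), (h j + 2) ^ E ≤ T j := by
    intro E
    have h1 : ∀ᶠ j : ℕ in (U : Filter ℕ), E ≤ j := hUa (eventually_ge_atTop E)
    filter_upwards [h1] with j hj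
    exact (Nat.pow_le_pow_right (by omega) (by omega)).trans (hhT j)
  have hw : ∀ (j : ℕ) (i : Fin 1), ‖((fun _ _ => 2 * Real.pi * Complex.I : ℕ → Fin 1 → ℂ) j i)‖ ≤ H j := by
    intro j i
    have hpi : ‖(2 * Real.pi * Complex.I : ℂ)‖ = 2 * Real.pi := by
      rw [norm_mul, Complex.norm_I, mul_one, norm_mul, Complex.norm_real, Real.norm_eq_abs,
        abs_of_pos Real.pi_pos]
      simp
    show ‖(2 * Real.pi * Complex.I : ℂ)‖ ≤ H j
    rw [hpi]
    have h1 : (8 : ℝ) ≤ H j := by exact_mod_cast (h8 j).trans (hTH j)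
    have h2 := Real.pi_le_four
    linarith
  obtain ⟨n, hn, hnv, hch⟩ := exists_chainQ (D := D) U H T hTt (Eventually.of_forall hTH) h hh k
    (fun i j => f j i) (fun i => Eventually.of_forall fun j => hf j i)
    B (fun j => Finset.filter_subset _ _) (by
      intro c hc
      have h1 : ∀ᶠ j : ℕ in (U : Filter ℕ), 1 / c ≤ (j : ℝ) :=
        (tendsto_natCast_atTop_atTop.mono_left hUa).eventually_ge_atTop (1 / c)
      filter_upwards [h1] with j hj
      refine lt_of_le_of_lt ?_ (hcard j)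
      have ht1 : (1 : ℝ) ≤ T j := by exact_mod_cast hT j
      have h2 : (T j : ℝ) ^ ((k : ℝ) - c) ≤ (T j : ℝ) ^ ((k : ℝ) - 1 / ((j + 3 : ℕ) : ℝ)) := by
        apply Real.rpow_le_rpow_of_exponent_le ht1
        have h3 : 1 / ((j + 3 : ℕ) : ℝ) ≤ c := by
          rw [div_le_iff₀ (by positivity)]
          rw [div_le_iff₀ hc] at hj
          push_cast
          nlinarith
        linarith
      refine h2.trans (le_mul_of_one_le_left (Real.rpow_nonneg (by linarith) _) ?_)
      push_cast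
      linarith [show (0 : ℝ) ≤ j from Nat.cast_nonneg j])
    (Set.range fun i => (Ideal.Quotient.mk (ms U H) (cst U H
      (fun _ _ => 2 * Real.pi * Complex.I : ℕ → Fin 1 → ℂ) hw i) : Fl U H)) (Set.finite_range _)
  refine no_badN (δ := δ) (E₀ := 0) U H (fun _ _ => 2 * Real.pi * Complex.I : ℕ → Fin 1 → ℂ) hw
    (fun _ => 2 * Real.pi * Complex.I) (Or.inr ⟨0, Eventually.of_forall fun j => rfl⟩)
    (fun j => valsQ (f j) (n j)) (fun j => j + 3) ?_ ?_ ?_ ?_
  · exact (tendsto_add_atTop_nat 3).mono_left hUa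
  · intro x
    filter_upwards [hnv] with j hj
    exact hj _ _
  · filter_upwards [hn] with j hj
    have h1 := (mem_filter.1 hj).2
    exact h1.toN (by have := h8 j; have := hTH j; omega)
  · intro x hcon
    apply hch (finProdFinEquiv.symm x).1 (finProdFinEquiv.symm x).2
    refine acl_mono ?_ hcon
    rintro y (hy | ⟨x', hx', rfl⟩)
    · exact Or.inl hy
    · exact Or.inr ⟨finProdFinEquiv.symm x', lex_of_lt hx', rfl⟩

/-! ### All families -/

/-- the algebraic numbers of bounded degree and height are few -/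
theorem exists_allQ (D h : ℕ) : ∃ 𝓖 : Finset ℂ, 𝓖.card ≤ (2 * h + 1) ^ (D + 1) * D ∧
    ∀ ζ, IsA D h ζ → ζ ∈ 𝓖 := by
  classical
  set Pl : Finset (Polynomial ℤ) := (Fintype.piFinset fun _ : Fin (D + 1) => Icc (-(h : ℤ)) h).image
    fun c => ∑ l : Fin (D + 1), Polynomial.C (c l) * Polynomial.X ^ (l : ℕ) with hPl
  refine ⟨Pl.biUnion fun g => (g.map (Int.castRingHom ℂ)).roots.toFinset, ?_, fun ζ hζ => ?_⟩
  · refine (card_biUnion_le_card_mul _ _ D fun g hg => ?_).trans (Nat.mul_le_mul_right _ ?_)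
    · obtain ⟨c, -, rfl⟩ := mem_image.1 hg
      refine (Multiset.toFinset_card_le _).trans ((Polynomial.card_roots' _).trans
        (Polynomial.natDegree_map_le.trans ?_))
      refine Polynomial.natDegree_sum_le_of_forall_le _ _ fun l _ => ?_
      refine (Polynomial.natDegree_C_mul_X_pow_le _ _).trans ?_
      have := l.2
      omega
    · refine card_image_le.trans ?_
      rw [Fintype.card_piFinset, Finset.prod_const, Finset.card_univ, Fintype.card_fin, Int.card_Icc]
      have h3 : ((h : ℤ) + 1 - -(h : ℤ)).toNat = 2 * h + 1 := by omega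
      rw [h3]
  · obtain ⟨f, h1, h2, h3, h4⟩ := hζ
    rw [mem_biUnion]
    refine ⟨f, ?_, ?_⟩
    · refine mem_image.2 ⟨fun l => f.coeff l, ?_, ?_⟩
      · rw [Fintype.mem_piFinset]
        intro l
        rw [mem_Icc]
        exact abs_le.1 (h3 l)
      · conv_rhs => rw [f.as_sum_range_C_mul_X_pow' (n := D + 1) (Nat.lt_succ_of_le h2)]
        rw [Finset.sum_range]
    · rw [Multiset.mem_toFinset, Polynomial.mem_roots (by
        rw [Ne, Polynomial.map_eq_zero_iff Int.cast_injective]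
        exact h1), Polynomial.IsRoot.def, Polynomial.eval_map]
      exact h4

/-- the polynomials are few -/
theorem exists_allPol (D h : ℕ) : ∃ 𝓕 : Finset (Polynomial ℂ), 𝓕.card ≤ ((2 * h + 1) ^ (D + 1) * D) ^ (D + 1) ∧
    ∀ f : Polynomial ℂ, f.natDegree ≤ D → (∀ m, IsA D h (f.coeff m)) → f ∈ 𝓕 := by
  classical
  obtain ⟨𝓖, h𝓖, h𝓖m⟩ := exists_allQ D h
  refine ⟨(Fintype.piFinset fun _ : Fin (D + 1) => 𝓖).image
    fun c => ∑ l : Fin (D + 1), Polynomial.C (c l) * Polynomial.X ^ (l : ℕ), ?_, fun f h1 h2 => ?_⟩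
  · refine card_image_le.trans ?_
    rw [Fintype.card_piFinset, Finset.prod_const, Finset.card_univ, Fintype.card_fin]
    exact Nat.pow_le_pow_left h𝓖 _
  · refine mem_image.2 ⟨fun l => f.coeff l, ?_, ?_⟩
    · rw [Fintype.mem_piFinset]
      intro l
      exact h𝓖m _ (h2 _)
    · conv_rhs => rw [f.as_sum_range_C_mul_X_pow' (n := D + 1) (Nat.lt_succ_of_le h1)]
      rw [Finset.sum_range]

open Classical in
/-- the exceptional tuples -/
noncomputable def excQ (k K D δ C T H h : ℕ) : Finset (Fin k → ℕ) :=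
  (Fintype.piFinset fun _ : Fin k => Ioc 0 T).filter fun n =>
    ∃ f : Fin k → Fin K → Polynomial ℂ, (∀ i, FamP D h (f i)) ∧ BadC δ C H (valsQ f n)

open Classical in
theorem card_excQ (k K D δ C T H h : ℕ) {R : ℝ}
    (hR : ∀ f : Fin k → Fin K → Polynomial ℂ, (∀ i, FamP D h (f i)) →
      (((Fintype.piFinset fun _ : Fin k => Ioc 0 T).filter fun n => BadC δ C H (valsQ f n)).card : ℝ) ≤ R)
    (hR0 : 0 ≤ R) :
    ((excQ k K D δ C T H h).card : ℝ) ≤ (((2 * h + 1) ^ (D + 1) * D : ℕ) : ℝ) ^ ((D + 1) * (k * K)) * R := by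
  classical
  obtain ⟨𝓕, h𝓕, h𝓕m⟩ := exists_allPol D h
  set Ω : Finset (Fin k → Fin K → Polynomial ℂ) := Fintype.piFinset fun _ => Fintype.piFinset fun _ => 𝓕 with hΩ
  set bad : (Fin k → Fin K → Polynomial ℂ) → Finset (Fin k → ℕ) := fun c =>
    if ∀ i, FamP D h (c i) then
      (Fintype.piFinset fun _ : Fin k => Ioc 0 T).filter fun n => BadC δ C H (valsQ c n)
    else ∅ with hbad
  have hsub : excQ k K D δ C T H h ⊆ Ω.biUnion bad := by
    intro n hn
    obtain ⟨h1, f, hf, hfb⟩ := mem_filter.1 hn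
    refine mem_biUnion.2 ⟨f, ?_, ?_⟩
    · rw [hΩ, Fintype.mem_piFinset]
      intro i
      rw [Fintype.mem_piFinset]
      intro s
      exact h𝓕m _ ((hf i).1 s).2 ((hf i).2.1 s)
    · rw [hbad]
      simp only
      rw [if_pos hf, mem_filter]
      exact ⟨h1, hfb⟩
  have h1 : ((excQ k K D δ C T H h).card : ℝ) ≤ ∑ c ∈ Ω, ((bad c).card : ℝ) := by
    have := (card_le_card hsub).trans card_biUnion_le
    exact_mod_cast this
  have h2 : ∀ c ∈ Ω, ((bad c).card : ℝ) ≤ R := by
    intro c _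
    rw [hbad]
    simp only
    split_ifs with hc
    · refine le_of_eq_of_le ?_ (hR _ hc)
      congr!
    · simpa using hR0
  refine h1.trans ((Finset.sum_le_sum h2).trans ?_)
  rw [Finset.sum_const, nsmul_eq_mul]
  refine mul_le_mul_of_nonneg_right ?_ hR0
  have h3 : Ω.card ≤ ((2 * h + 1) ^ (D + 1) * D) ^ ((D + 1) * (k * K)) := by
    rw [hΩ, Fintype.card_piFinset, Finset.prod_const, Finset.card_univ, Fintype.card_fin,
      Fintype.card_piFinset, Finset.prod_const, Finset.card_univ, Fintype.card_fin, ← pow_mul, mul_comm K k, pow_mul _ (D + 1)]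
    exact Nat.pow_le_pow_left h𝓕 _
  exact_mod_cast h3

/-- **The count at one scale**, for all families at once. -/
theorem unionQ (k K D δ : ℕ) : ∃ C : ℕ, 0 < C ∧ ∀ T H h : ℕ, 1 ≤ T → T ≤ H → (h + 2) ^ C ≤ T →
    ((excQ k K D δ C T H h).card : ℝ) ≤ C * (T : ℝ) ^ ((k : ℝ) - 1 / C) := by
  classical
  obtain ⟨C₁, hC₁, hs⟩ := scaleQ k K D δ
  set M : ℕ := (2 * D + 1) * ((D + 1) * (k * K)) with hM
  set C : ℕ := (4 * M + 2) * C₁ with hC
  have hC1le : C₁ ≤ C := by rw [hC]; nlinarith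
  refine ⟨C, by positivity, fun T H h hT hTH hhT => ?_⟩
  have ht1 : (1 : ℝ) ≤ T := by exact_mod_cast hT
  have ht0 : (0 : ℝ) < T := by linarith
  have hC₁0 : (0 : ℝ) < C₁ := by exact_mod_cast hC₁
  have hCr : (C : ℝ) = (4 * M + 2) * C₁ := by rw [hC]; push_cast; ring
  have hM0 : (0 : ℝ) ≤ M := Nat.cast_nonneg M
  have hC0 : (0 : ℝ) < C := by rw [hCr]; positivity
  have h1 : ((excQ k K D δ C T H h).card : ℝ) ≤ (excQ k K D δ C₁ T H h).card := by
    have : excQ k K D δ C T H h ⊆ excQ k K D δ C₁ T H h := by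
      intro n hn
      obtain ⟨h2, f, hf, hb⟩ := mem_filter.1 hn
      exact mem_filter.2 ⟨h2, f, hf, hb.mono hC1le⟩
    exact_mod_cast card_le_card this
  have hhT1 : (h + 2) ^ C₁ ≤ T := (Nat.pow_le_pow_right (by omega) hC1le).trans hhT
  have h2 := card_excQ k K D δ C₁ T H h (R := C₁ * (T : ℝ) ^ ((k : ℝ) - 1 / C₁))
    (fun f hf => hs T H h hT hTH hhT1 f hf) (by positivity)
  refine h1.trans (h2.trans ?_)
  have h3 : (((2 * h + 1) ^ (D + 1) * D : ℕ) : ℝ) ^ ((D + 1) * (k * K)) ≤ (T : ℝ) ^ (1 / (2 * C₁ : ℝ)) := by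
    have h4 : (((2 * h + 1) ^ (D + 1) * D : ℕ) : ℝ) ^ ((D + 1) * (k * K)) ≤ (((h : ℝ) + 2) ^ 2) ^ M := by
      rw [hM, pow_mul (((h : ℝ) + 2) ^ 2)]
      refine pow_le_pow_left₀ (by positivity) ?_ _
      have e1 : (2 * h + 1) ^ (D + 1) * D ≤ ((h + 2) ^ 2) ^ (2 * D + 1) := by
        have e2 : (2 * h + 1) ^ (D + 1) ≤ ((h + 2) ^ 2) ^ (D + 1) := Nat.pow_le_pow_left (by nlinarith) _
        have e3 : D ≤ ((h + 2) ^ 2) ^ D :=
          (Nat.lt_two_pow_self (n := D)).le.trans (Nat.pow_le_pow_left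
            (le_trans (by norm_num : 2 ≤ 2 ^ 2) (Nat.pow_le_pow_left (by omega) 2)) _)
        calc (2 * h + 1) ^ (D + 1) * D ≤ ((h + 2) ^ 2) ^ (D + 1) * ((h + 2) ^ 2) ^ D := Nat.mul_le_mul e2 e3
          _ = ((h + 2) ^ 2) ^ (2 * D + 1) := by rw [← pow_add]; congr 1; omega
      exact_mod_cast e1
    have h5 : ((h : ℝ) + 2) ^ C ≤ T := by exact_mod_cast hhT
    have h6 : (((h : ℝ) + 2) ^ 2) ^ M = (((h : ℝ) + 2) ^ C) ^ ((2 * M : ℝ) / C) := by
      rw [← pow_mul, ← Real.rpow_natCast, ← Real.rpow_natCast ((h : ℝ) + 2) C,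
        ← Real.rpow_mul (by positivity)]
      congr 1
      push_cast
      field_simp
    rw [h6] at h4
    refine h4.trans ((Real.rpow_le_rpow (by positivity) h5 (by positivity)).trans ?_)
    apply Real.rpow_le_rpow_of_exponent_le ht1
    rw [div_le_div_iff₀ hC0 (by positivity), hCr]
    nlinarith
  calc (((2 * h + 1) ^ (D + 1) * D : ℕ) : ℝ) ^ ((D + 1) * (k * K)) * (C₁ * (T : ℝ) ^ ((k : ℝ) - 1 / C₁)) ≤
        (T : ℝ) ^ (1 / (2 * C₁ : ℝ)) * (C₁ * (T : ℝ) ^ ((k : ℝ) - 1 / C₁)) :=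
        mul_le_mul_of_nonneg_right h3 (by positivity)
    _ = C₁ * (T : ℝ) ^ ((k : ℝ) - 1 / (2 * C₁)) := by
        rw [mul_left_comm, ← Real.rpow_add ht0]
        congr 2
        field_simp
        ring
    _ ≤ C * (T : ℝ) ^ ((k : ℝ) - 1 / C) := by
        refine mul_le_mul (by exact_mod_cast hC1le) ?_ (Real.rpow_nonneg ht0.le _) hC0.le
        apply Real.rpow_le_rpow_of_exponent_le ht1
        have : 1 / (C : ℝ) ≤ 1 / (2 * C₁) := by
          apply one_div_le_one_div_of_le (by positivity)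
          rw [hCr]
          nlinarith
        linarith

end Pool.Agent.K3h1.LA
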