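import Mathlib
import Pool.Agent.K3h1.LA.Ps
import Pool.Agent.K3h1.LA.Mn

/-!
# The measure for almost all tuples, all families of polynomials with algebraic coefficients, all heights
-/

set_option autoImplicit false

namespace Pool.Agent.K3h1.LA

open Finset Pool.Agent.R351.GF

/-- algebraic numbers, with real parameters -/
def IsAR (D : ℕ) (h : ℝ) (z : ℂ) : Prop :=
  ∃ g : Polynomial ℤ, g ≠ 0 ∧ g.natDegree ≤ D ∧ (∀ m, |((g.coeff m : ℤ) : ℝ)| ≤ h) ∧ Polynomial.aeval z g = 0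

/-- families with real parameters -/
def FamPR {K : ℕ} (D : ℕ) (h : ℝ) (f : Fin K → Polynomial ℂ) : Prop :=
  (∀ s, 1 ≤ (f s).natDegree ∧ (f s).natDegree ≤ D) ∧ (∀ s m, IsAR D h ((f s).coeff m)) ∧ Squarefree (∏ s, f s)

theorem IsAR.toA {D : ℕ} {h : ℝ} {z : ℂ} (hz : IsAR D h z) : IsA D ⌊h⌋₊ z := by
  obtain ⟨g, h1, h2, h3, h4⟩ := hz
  refine ⟨g, h1, h2, fun l => ?_, h4⟩
  have h1 := h3 l
  have h2 : ((g.coeff l).natAbs : ℝ) ≤ h := by
    rw [Nat.cast_natAbs, Int.cast_abs]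
    exact h1
  have h3 : (g.coeff l).natAbs ≤ ⌊h⌋₊ := Nat.le_floor h2
  rw [← Int.natCast_natAbs]
  exact_mod_cast h3

theorem FamPR.toFam {K D : ℕ} {h : ℝ} {f : Fin K → Polynomial ℂ} (hf : FamPR D h f) : FamP D ⌊h⌋₊ f :=
  ⟨hf.1, fun s m => (hf.2.1 s m).toA, hf.2.2⟩

/-- the numbers `f_(i, s) (n_i)` -/
noncomputable def val4 {k K : ℕ} (f : Fin k → Fin K → Polynomial ℂ) (n : Fin k → ℕ) (p : Fin k × Fin K) : ℂ :=
  (f p.1 p.2).eval (n p.1 : ℂ)

theorem badC_of_smlQ {k K δ C N : ℕ} {H η : ℝ} {f : Fin k → Fin K → Polynomial ℂ} {n : Fin k → ℕ}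
    (hN : H ≤ N) (hη : η * ((N : ℝ) + 2) ^ C ≤ 1) (hs : SmlC δ H η (val4 f n)) :
    BadC δ C N (valsQ f n) := by
  obtain ⟨l, hl, hlH, P, hP0, hPd, hPH, hPv⟩ := hs
  refine ⟨fun x => l (finProdFinEquiv.symm x), fun x => hl _, fun x => (hlH _).trans hN,
    MvPolynomial.rename finProdFinEquiv P, ?_, ?_, fun s => ?_, ?_⟩
  · intro h
    exact hP0 (MvPolynomial.rename_injective _ finProdFinEquiv.injective (by rw [h, map_zero]))
  · exact (MvPolynomial.totalDegree_rename_le _ _).trans hPd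
  · by_cases hs : ∃ u : (Fin k × Fin K) →₀ ℕ, u.mapDomain finProdFinEquiv = s
    · obtain ⟨u, rfl⟩ := hs
      rw [MvPolynomial.coeff_rename_mapDomain _ finProdFinEquiv.injective]
      have h2 : |((P.coeff u : ℤ) : ℝ)| ≤ N := (hPH u).trans hN
      exact_mod_cast h2
    · rw [MvPolynomial.coeff_rename_eq_zero]
      · rw [abs_zero]
        exact Int.natCast_nonneg _
      · intro u hu
        exact absurd ⟨u, hu⟩ hs
  · rw [MvPolynomial.aeval_rename]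
    have h1 : (fun x => l (finProdFinEquiv.symm x)) ∘ finProdFinEquiv = l := by
      funext p
      exact congrArg l (Equiv.symm_apply_apply _ p)
    rw [h1]
    have hp : (0 : ℝ) < ((N : ℝ) + 2) ^ C := by positivity
    calc ‖MvPolynomial.aeval l P‖ * ((N : ℝ) + 2) ^ C < η * ((N : ℝ) + 2) ^ C :=
          mul_lt_mul_of_pos_right hPv hp
      _ ≤ 1 := hη

open Classical in
theorem mainQ (k K D δ : ℕ) : ∃ C : ℕ, 0 < C ∧ ∀ T : ℕ, 1 ≤ T →
    ((((Fintype.piFinset fun _ : Fin k => Ioc 0 T).filter fun n =>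
        ∃ f : Fin k → Fin K → Polynomial ℂ, (∀ i, FamPR D ((T : ℝ) ^ (1 / (C : ℝ))) (f i)) ∧
          ∃ H : ℝ, 2 ≤ H ∧ H ≤ Real.exp (Real.exp ((T : ℝ) ^ (1 / (C : ℝ)))) ∧
            SmlC δ H (1 / (T * H) ^ C) (val4 f n)).card : ℝ) ≤
        C * (T : ℝ) ^ ((k : ℝ) - 1 / C)) ∧
    (∀ H : ℝ, 2 ≤ H → T ≤ H →
      (((Fintype.piFinset fun _ : Fin k => Ioc 0 T).filter fun n =>
        ∃ f : Fin k → Fin K → Polynomial ℂ, (∀ i, FamPR D ((T : ℝ) ^ (1 / (C : ℝ))) (f i)) ∧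
          SmlC δ H (1 / H ^ C) (val4 f n)).card : ℝ) ≤ C * (T : ℝ) ^ ((k : ℝ) - 1 / C)) ∧
    (∀ 𝓗 : Set ℝ, ¬ BddAbove 𝓗 →
      (((Fintype.piFinset fun _ : Fin k => Ioc 0 T).filter fun n =>
        ∃ f : Fin k → Fin K → Polynomial ℂ, (∀ i, FamPR D ((T : ℝ) ^ (1 / (C : ℝ))) (f i)) ∧
          ∃ H₀ : ℝ, ∀ H ∈ 𝓗, H₀ ≤ H → SmlC δ H (1 / H ^ C) (val4 f n)).card : ℝ) ≤
        C * (T : ℝ) ^ ((k : ℝ) - 1 / C)) := by
  classical
  obtain ⟨C₁, hC₁, hu⟩ := unionQ k K D δ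
  set C : ℕ := 9 ^ C₁ + 10 * C₁ with hC
  have hC9 : 9 ^ C₁ ≤ C := Nat.le_add_right _ _
  have hC0N : 0 < C := by rw [hC]; positivity
  refine ⟨C, hC0N, fun T hT => ?_⟩
  have ht1 : (1 : ℝ) ≤ T := by exact_mod_cast hT
  have ht0 : (0 : ℝ) < T := by linarith
  have hC0 : (0 : ℝ) < C := by exact_mod_cast hC0N
  have hC1C : (1 : ℝ) ≤ C := by exact_mod_cast hC0N
  have hC₁0 : (0 : ℝ) < C₁ := by exact_mod_cast hC₁
  have hDC : 5 * C₁ ≤ C := by
    have h1 : 5 * C₁ ≤ 10 * C₁ := Nat.mul_le_mul_right _ (by omega)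
    exact h1.trans (Nat.le_add_left _ _)
  have hC10 : (10 * C₁ : ℝ) ≤ C := by
    have : 10 * C₁ ≤ C := Nat.le_add_left _ _
    exact_mod_cast this
  set x : ℝ := (T : ℝ) ^ (1 / (C : ℝ)) with hx
  have hx1 : 1 ≤ x := Real.one_le_rpow ht1 (by positivity)
  have hTk : (0 : ℝ) ≤ (T : ℝ) ^ ((k : ℝ) - 1 / C) := Real.rpow_nonneg ht0.le _
  -- all the sets are small for small `T`
  have hsmall : (T : ℝ) ≤ 9 ^ C₁ → ∀ S : Finset (Fin k → ℕ), S ⊆ (Fintype.piFinset fun _ : Fin k => Ioc 0 T) →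
      (S.card : ℝ) ≤ C * (T : ℝ) ^ ((k : ℝ) - 1 / C) := by
    intro hT9 S hS
    have h1 : S.card ≤ T ^ k := by
      refine (card_le_card hS).trans ?_
      rw [Fintype.card_piFinset_const, Nat.card_Ioc, Nat.sub_zero]
    have h2 : (S.card : ℝ) ≤ (T : ℝ) ^ k := by exact_mod_cast h1
    have h3 : (T : ℝ) ^ k = x * (T : ℝ) ^ ((k : ℝ) - 1 / C) := by
      rw [hx, ← Real.rpow_add ht0, ← Real.rpow_natCast]
      congr 1
      ring
    rw [h3] at h2
    refine h2.trans (mul_le_mul_of_nonneg_right ?_ hTk)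
    have h4 : ((9 ^ C₁ : ℕ) : ℝ) ≤ C := by exact_mod_cast hC9
    push_cast at h4
    have hxT : x ≤ T := by
      calc x ≤ (T : ℝ) ^ (1 : ℝ) := Real.rpow_le_rpow_of_exponent_le ht1 (by
            rw [div_le_one hC0]; exact hC1C)
        _ = T := Real.rpow_one _
    linarith
  rcases le_or_gt (T : ℝ) (9 ^ C₁) with hT9 | hT9
  · exact ⟨hsmall hT9 _ (filter_subset _ _), fun H _ _ => hsmall hT9 _ (filter_subset _ _),
      fun _ _ => hsmall hT9 _ (filter_subset _ _)⟩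
  set h : ℕ := ⌊x⌋₊ with hh
  have hhx : (h : ℝ) ≤ x := Nat.floor_le (by linarith)
  -- the height is small
  have hhT : (h + 2) ^ C₁ ≤ T := by
    have h1 : ((h : ℝ) + 2) ^ C₁ ≤ T := by
      have h2 : ((h : ℝ) + 2) ≤ 3 * x := by linarith
      have h3 : x ^ C₁ ≤ (T : ℝ) ^ (1 / 2 : ℝ) := by
        rw [hx, ← Real.rpow_mul_natCast ht0.le]
        apply Real.rpow_le_rpow_of_exponent_le ht1
        rw [div_mul_eq_mul_div, one_mul, div_le_div_iff₀ hC0 (by norm_num)]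
        linarith
      have h4 : (3 : ℝ) ^ C₁ ≤ (T : ℝ) ^ (1 / 2 : ℝ) := by
        rw [← Real.sqrt_eq_rpow]
        apply Real.le_sqrt_of_sq_le
        calc ((3 : ℝ) ^ C₁) ^ 2 = 9 ^ C₁ := by rw [← pow_mul, mul_comm, pow_mul]; norm_num
          _ ≤ T := hT9.le
      calc ((h : ℝ) + 2) ^ C₁ ≤ (3 * x) ^ C₁ := pow_le_pow_left₀ (by positivity) h2 _
        _ = 3 ^ C₁ * x ^ C₁ := mul_pow _ _ _
        _ ≤ (T : ℝ) ^ (1 / 2 : ℝ) * (T : ℝ) ^ (1 / 2 : ℝ) :=
            mul_le_mul h4 h3 (by positivity) (by positivity)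
        _ = T := by
            rw [← Real.rpow_add ht0]
            norm_num
    exact_mod_cast h1
  have hpow : (T : ℝ) ^ ((k : ℝ) - 1 / C₁) ≤ (T : ℝ) ^ ((k : ℝ) - 1 / C) := by
    apply Real.rpow_le_rpow_of_exponent_le ht1
    have : 1 / (C : ℝ) ≤ 1 / C₁ := one_div_le_one_div_of_le hC₁0 (by linarith)
    linarith
  have hT2 : 2 ≤ T := by
    have h1 : (9 : ℝ) ≤ 9 ^ C₁ := by
      calc (9 : ℝ) = 9 ^ 1 := (pow_one _).symm
        _ ≤ 9 ^ C₁ := pow_le_pow_right₀ (by norm_num) hC₁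
    have h2 : (2 : ℝ) ≤ T := by linarith
    exact_mod_cast h2
  have hFam : ∀ f : Fin k → Fin K → Polynomial ℂ, (∀ i, FamPR D x (f i)) → ∀ i, FamP D h (f i) :=
    fun f hf i => (hf i).toFam
  -- one scale
  have hscale : ∀ H : ℝ, 2 ≤ H → T ≤ H →
      (((Fintype.piFinset fun _ : Fin k => Ioc 0 T).filter fun n =>
        ∃ f : Fin k → Fin K → Polynomial ℂ, (∀ i, FamPR D x (f i)) ∧
        SmlC δ H (1 / H ^ C) (val4 f n)).card : ℝ) ≤ C * (T : ℝ) ^ ((k : ℝ) - 1 / C) := by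
    intro H hH hTH
    have hHp : (0 : ℝ) < H := by linarith
    have hH1 : (1 : ℝ) ≤ H := by linarith
    set N := ⌈H⌉₊ with hN
    have hN1 : H ≤ N := Nat.le_ceil _
    have hN2 : (N : ℝ) < H + 1 := Nat.ceil_lt_add_one (by positivity)
    have hTN : T ≤ N := by
      have : (T : ℝ) ≤ N := by linarith
      exact_mod_cast this
    have hN3 : (N : ℝ) + 2 ≤ H ^ 5 := by
      have h4 : (16 : ℝ) * H ≤ H ^ 5 := by
        have : (2 : ℝ) ^ 4 ≤ H ^ 4 := pow_le_pow_left₀ (by norm_num) hH _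
        nlinarith
      linarith
    have hsub : ((Fintype.piFinset fun _ : Fin k => Ioc 0 T).filter fun n =>
        ∃ f : Fin k → Fin K → Polynomial ℂ, (∀ i, FamPR D x (f i)) ∧
        SmlC δ H (1 / H ^ C) (val4 f n)) ⊆ excQ k K D δ C₁ T N h := by
      intro n hn
      obtain ⟨hnB, f, hf, hsm⟩ := mem_filter.1 hn
      refine mem_filter.2 ⟨hnB, f, hFam f hf, badC_of_smlQ hN1 ?_ hsm⟩
      have hp : (0 : ℝ) < H ^ C := by positivity
      rw [div_mul_eq_mul_div, one_mul, div_le_one hp]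
      calc ((N : ℝ) + 2) ^ C₁ ≤ (H ^ 5) ^ C₁ := pow_le_pow_left₀ (by positivity) hN3 _
        _ = H ^ (5 * C₁) := by rw [← pow_mul]
        _ ≤ H ^ C := pow_le_pow_right₀ hH1 hDC
    have h1 : (((Fintype.piFinset fun _ : Fin k => Ioc 0 T).filter fun n =>
        ∃ f : Fin k → Fin K → Polynomial ℂ, (∀ i, FamPR D x (f i)) ∧
        SmlC δ H (1 / H ^ C) (val4 f n)).card : ℝ) ≤ (excQ k K D δ C₁ T N h).card := by
      exact_mod_cast card_le_card hsub
    refine h1.trans ((hu T N h hT hTN hhT).trans ?_)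
    exact mul_le_mul (by linarith) hpow (Real.rpow_nonneg ht0.le _) hC0.le
  refine ⟨?_, hscale, fun 𝓗 h𝓗 => ?_⟩
  · -- the range
    set I := ⌈3 * x⌉₊ with hI
    have hI2 : (I : ℝ) + 1 ≤ 5 * x := by
      have := Nat.ceil_lt_add_one (by linarith : (0 : ℝ) ≤ 3 * x)
      rw [← hI] at this
      linarith
    set S := (Fintype.piFinset fun _ : Fin k => Ioc 0 T).filter fun n =>
        ∃ f : Fin k → Fin K → Polynomial ℂ, (∀ i, FamPR D x (f i)) ∧
          ∃ H : ℝ, 2 ≤ H ∧ H ≤ Real.exp (Real.exp x) ∧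
            SmlC δ H (1 / (T * H) ^ C) (val4 f n) with hS
    have hsub : S ⊆ (range (I + 1)).biUnion fun i => excQ k K D δ C₁ T (scl T i) h := by
      intro n hn
      obtain ⟨hnB, f, hf, H, hH, hHx, hsm⟩ := mem_filter.1 hn
      have hHp : (0 : ℝ) < H := by linarith
      have hH1 : (1 : ℝ) ≤ H := by linarith
      have hex : ∃ i, 2 * H ≤ scl T i := ⟨I, scl_bound hT2 hx1 hHx⟩
      set i := Nat.find hex with hi
      have hi1 : 2 * H ≤ scl T i := Nat.find_spec hex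
      have hiI : i ≤ I := Nat.find_min' hex (scl_bound hT2 hx1 hHx)
      rw [mem_biUnion]
      refine ⟨i, mem_range.2 (by omega), mem_filter.2 ⟨hnB, f, hFam f hf,
        badC_of_smlQ (by linarith) ?_ hsm⟩⟩
      have hTH2 : (2 : ℝ) ≤ T * H := by nlinarith
      have hTH1 : (1 : ℝ) ≤ T * H := by linarith
      have hNle : ((scl T i : ℕ) : ℝ) + 2 ≤ (T * H) ^ 5 := by
        have h16 : (16 : ℝ) ≤ (T * H) ^ 4 := by
          have : (2 : ℝ) ^ 4 ≤ (T * H) ^ 4 := pow_le_pow_left₀ (by norm_num) hTH2 _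
          linarith
        rcases Nat.eq_zero_or_pos i with h0 | hpos
        · rw [h0, scl_zero]
          push_cast
          have h5 : (T : ℝ) ≤ T * H := le_mul_of_one_le_right ht0.le hH1
          have h7 : (T * H) ^ 5 = (T * H) * (T * H) ^ 4 := by ring
          rw [h7]
          have h9 : (T * H) * 16 ≤ (T * H) * (T * H) ^ 4 :=
            mul_le_mul_of_nonneg_left h16 (by linarith)
          linarith
        · obtain ⟨j, hj⟩ := Nat.exists_eq_succ_of_ne_zero hpos.ne'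
          have hj1 : ¬ 2 * H ≤ scl T j := Nat.find_min hex (by omega)
          rw [not_le] at hj1
          rw [hj, Nat.succ_eq_add_one, scl_succ]
          push_cast
          have h0 : (0 : ℝ) ≤ scl T j := Nat.cast_nonneg _
          have h1 : ((scl T j : ℝ) ^ 2 + 2) ≤ H ^ 5 := by
            have hH3 : (5 : ℝ) ≤ H ^ 3 := by
              have : (2 : ℝ) ^ 3 ≤ H ^ 3 := pow_le_pow_left₀ (by norm_num) hH 3
              norm_num at this
              linarith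
            calc (scl T j : ℝ) ^ 2 + 2 ≤ (2 * H) ^ 2 + 2 := by
                  have := pow_le_pow_left₀ h0 hj1.le 2
                  linarith
              _ ≤ 5 * H ^ 2 := by nlinarith
              _ ≤ H ^ 3 * H ^ 2 := mul_le_mul_of_nonneg_right hH3 (by positivity)
              _ = H ^ 5 := by ring
          have h5 : H ≤ T * H := le_mul_of_one_le_left hHp.le ht1
          calc ((scl T j : ℝ) ^ 2 + 2) ≤ H ^ 5 := h1
            _ ≤ (T * H) ^ 5 := pow_le_pow_left₀ hHp.le h5 _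
      have hkey := scale_ineq (C := C₁) ht1 hH hNle
      refine le_trans ?_ hkey
      refine mul_le_mul_of_nonneg_right ?_ (by positivity)
      apply one_div_le_one_div_of_le (by positivity)
      exact pow_le_pow_right₀ hTH1 hDC
    have h1 : (S.card : ℝ) ≤ ∑ i ∈ range (I + 1), ((excQ k K D δ C₁ T (scl T i) h).card : ℝ) := by
      have := (card_le_card hsub).trans card_biUnion_le
      exact_mod_cast this
    have h2 : (S.card : ℝ) ≤ (I + 1) * (C₁ * (T : ℝ) ^ ((k : ℝ) - 1 / C₁)) := by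
      refine h1.trans ((Finset.sum_le_sum fun i _ => hu T _ h hT (le_scl hT i) hhT).trans ?_)
      rw [Finset.sum_const, nsmul_eq_mul, card_range]
      push_cast
      exact le_rfl
    refine h2.trans ?_
    have h4 : x * (T : ℝ) ^ ((k : ℝ) - 1 / C₁) ≤ (T : ℝ) ^ ((k : ℝ) - 1 / C) := by
      rw [hx, ← Real.rpow_add ht0]
      apply Real.rpow_le_rpow_of_exponent_le ht1
      have h5 : 1 / (C : ℝ) ≤ 1 / (2 * C₁) := one_div_le_one_div_of_le (by positivity) (by linarith)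
      have h6 : 1 / (C₁ : ℝ) = 2 * (1 / (2 * C₁)) := by field_simp
      linarith
    have h6 : (0 : ℝ) ≤ C₁ * (T : ℝ) ^ ((k : ℝ) - 1 / C₁) :=
      mul_nonneg hC₁0.le (Real.rpow_nonneg ht0.le _)
    calc ((I : ℝ) + 1) * (C₁ * (T : ℝ) ^ ((k : ℝ) - 1 / C₁)) ≤
          5 * x * (C₁ * (T : ℝ) ^ ((k : ℝ) - 1 / C₁)) := mul_le_mul_of_nonneg_right hI2 h6
      _ = 5 * C₁ * (x * (T : ℝ) ^ ((k : ℝ) - 1 / C₁)) := by ring
      _ ≤ 5 * C₁ * (T : ℝ) ^ ((k : ℝ) - 1 / C) := mul_le_mul_of_nonneg_left h4 (by positivity)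
      _ ≤ C * (T : ℝ) ^ ((k : ℝ) - 1 / C) := mul_le_mul_of_nonneg_right (by linarith) hTk
  · -- infinitely many scales
    set S := (Fintype.piFinset fun _ : Fin k => Ioc 0 T).filter fun n =>
        ∃ f : Fin k → Fin K → Polynomial ℂ, (∀ i, FamPR D x (f i)) ∧
        ∃ H₀ : ℝ, ∀ H ∈ 𝓗, H₀ ≤ H → SmlC δ H (1 / H ^ C) (val4 f n) with hS
    have hex : ∀ n : Fin k → ℕ, ∃ H₀ : ℝ, n ∈ S → ∃ f : Fin k → Fin K → Polynomial ℂ, (∀ i, FamPR D x (f i)) ∧
        ∀ H ∈ 𝓗, H₀ ≤ H → SmlC δ H (1 / H ^ C) (val4 f n) := by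
      intro n
      by_cases hn : n ∈ S
      · obtain ⟨f, hf, H₀, h⟩ := (mem_filter.1 hn).2
        exact ⟨H₀, fun _ => ⟨f, hf, h⟩⟩
      · exact ⟨0, fun h => absurd h hn⟩
    choose H₀ hH₀ using hex
    obtain ⟨B, hB⟩ := (S.image H₀).bddAbove
    obtain ⟨H, hH𝓗, hH⟩ := not_bddAbove_iff.1 h𝓗 (max B (max 2 T))
    have h2 : (2 : ℝ) ≤ H := ((le_max_left _ _).trans (le_max_right _ _)).trans hH.le
    have h3 : (T : ℝ) ≤ H := ((le_max_right _ _).trans (le_max_right _ _)).trans hH.le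
    have h4 : B ≤ H := (le_max_left _ _).trans hH.le
    refine le_trans ?_ (hscale H h2 h3)
    have hsub : S ⊆ ((Fintype.piFinset fun _ : Fin k => Ioc 0 T).filter fun n =>
        ∃ f : Fin k → Fin K → Polynomial ℂ, (∀ i, FamPR D x (f i)) ∧
        SmlC δ H (1 / H ^ C) (val4 f n)) := by
      intro n hn
      obtain ⟨f, hf, hfH⟩ := hH₀ n hn
      refine mem_filter.2 ⟨(mem_filter.1 hn).1, f, hf, hfH H hH𝓗 (le_trans ?_ h4)⟩
      exact hB (by rw [coe_image]; exact ⟨n, hn, rfl⟩)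
    exact_mod_cast card_le_card hsub

end Pool.Agent.K3h1.LA
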